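import Pool.Agent.H69.As.Chains

set_option autoImplicit false

namespace Pool.Agent.H69.As

open MulOpposite

namespace CSys
variable {n : ℕ} {L : List ℕ → Prop} {M : ℕ → List ℕ → List ℕ → Prop} {Rs : Set (SW × ℕ)}

/-- the equivalence relation on tapes -/
def setoid (h : CSys n L M Rs) : Setoid {c : List ℕ // L c} where
  r a b := M 0 a.1 b.1
  iseqv := ⟨fun a => h.refl a.2, fun {a b} hab => h.symm a.2 b.2 hab,
    fun {a b c} hab hbc => h.trans a.2 b.2 c.2 hab hbc⟩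

/-- the classes -/
def X (h : CSys n L M Rs) : Type := Quotient h.setoid

def cl (h : CSys n L M Rs) (c : List ℕ) (hc : L c) : h.X := Quotient.mk h.setoid ⟨c, hc⟩

theorem cl_eq (h : CSys n L M Rs) {c d : List ℕ} {hc : L c} {hd : L d} :
    h.cl c hc = h.cl d hd ↔ M 0 c d :=
  ⟨fun h' => Quotient.exact h', fun h' => Quotient.sound h'⟩

theorem exists_cl (h : CSys n L M Rs) (ξ : h.X) : ∃ c, ∃ hc : L c, ξ = h.cl c hc := by
  induction ξ using Quotient.inductionOn with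
  | h a => exact ⟨a.1, a.2, rfl⟩

/-- the action of a label -/
theorem exists_perm (h : CSys n L M Rs) (x : ℕ) : ∃ σ : Equiv.Perm h.X,
    (x ≤ n → ∀ c d (hc : L c) (hd : L d), M x c d → σ (h.cl c hc) = h.cl d hd) ∧
    (¬ x ≤ n → σ = 1) := by
  by_cases hx : x ≤ n
  · have h1 : ∀ ξ : h.X, ∃ η : h.X, ∀ c d (hc : L c) (hd : L d), ξ = h.cl c hc → M x c d →
        η = h.cl d hd := by
      intro ξ
      obtain ⟨c, hc, rfl⟩ := h.exists_cl ξ
      obtain ⟨d, hd, hcd⟩ := h.totR x hx c hc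
      refine ⟨h.cl d hd, ?_⟩
      intro c' d' hc' hd' he hcd'
      rw [cl_eq] at he ⊢
      exact h.fwd hx hc hc' hd hd' hcd hcd' he
    choose f hf using h1
    have f1 : ∀ c d (hc : L c) (hd : L d), M x c d → f (h.cl c hc) = h.cl d hd :=
      fun c d hc hd hcd => hf _ c d hc hd rfl hcd
    have finj : Function.Injective f := by
      intro ξ ξ' he
      obtain ⟨c, hc, rfl⟩ := h.exists_cl ξ
      obtain ⟨c', hc', rfl⟩ := h.exists_cl ξ'
      obtain ⟨d, hd, hcd⟩ := h.totR x hx c hc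
      obtain ⟨d', hd', hcd'⟩ := h.totR x hx c' hc'
      rw [f1 c d hc hd hcd, f1 c' d' hc' hd' hcd', cl_eq] at he
      rw [cl_eq]
      exact h.bwd hx hc hc' hd hd' hcd hcd' he
    have fsurj : Function.Surjective f := by
      intro ξ
      obtain ⟨d, hd, rfl⟩ := h.exists_cl ξ
      obtain ⟨c, hc, hcd⟩ := h.totL x hx d hd
      exact ⟨h.cl c hc, f1 c d hc hd hcd⟩
    exact ⟨Equiv.ofBijective f ⟨finj, fsurj⟩, fun _ c d hc hd hcd => f1 c d hc hd hcd,
      fun h' => absurd hx h'⟩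
  · exact ⟨1, fun h' => absurd h' hx, fun _ => rfl⟩

/-- the permutation of a label -/
noncomputable def pm (h : CSys n L M Rs) (x : ℕ) : Equiv.Perm h.X := (h.exists_perm x).choose

theorem pm_eq (h : CSys n L M Rs) {x : ℕ} (hx : x ≤ n) {c d : List ℕ} {hc : L c} {hd : L d}
    (hcd : M x c d) : h.pm x (h.cl c hc) = h.cl d hd :=
  (h.exists_perm x).choose_spec.1 hx c d hc hd hcd

/-- the (right) action -/
noncomputable def ψ (h : CSys n L M Rs) (x : ℕ) : (Equiv.Perm h.X)ᵐᵒᵖ := op (h.pm x)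

theorem act_chain (h : CSys n L M Rs) {ys : SW} (hys : ∀ y ∈ ys, y.2 ≤ n) {c c' : List ℕ}
    (hc : L c) (hc' : L c') (hcc : Chain L M ys c c') :
    (vsS h.ψ ys).unop (h.cl c hc) = h.cl c' hc' := by
  induction ys generalizing c with
  | nil => cases hcc; rfl
  | cons y ys ih =>
    obtain ⟨b, x⟩ := y
    have hx : x ≤ n := hys _ List.mem_cons_self
    have hys' : ∀ y ∈ ys, y.2 ≤ n := fun y hy => hys y (List.mem_cons_of_mem _ hy)
    cases hcc with
    | @cons _ _ _ _ c₁ _ h1 h2 h3 =>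
      rw [vsS_cons, unop_mul, Equiv.Perm.mul_apply, ← ih hys' h1 h3]
      congr 1
      cases b with
      | true =>
        simp only [if_true] at h2 ⊢
        exact h.pm_eq hx h2
      | false =>
        simp only [Bool.false_eq_true, if_false] at h2 ⊢
        rw [unop_inv, Equiv.Perm.inv_eq_iff_eq]
        exact (h.pm_eq hx h2).symm

theorem ψ_zero (h : CSys n L M Rs) : h.ψ 0 = 1 := by
  unfold ψ
  rw [← op_one]
  congr 1
  ext ξ
  obtain ⟨c, hc, rfl⟩ := h.exists_cl ξ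
  rw [h.pm_eq (Nat.zero_le _) (h.refl hc) (hd := hc)]
  rfl

theorem ψ_rel (h : CSys n L M Rs) (hlab : ∀ r ∈ Rs, r.2 ≤ n ∧ ∀ y ∈ r.1, y.2 ≤ n)
    {r : SW × ℕ} (hr : r ∈ Rs) : vsS h.ψ r.1 = h.ψ r.2 := by
  obtain ⟨h1, h2⟩ := hlab r hr
  apply unop_injective
  ext ξ
  obtain ⟨c, hc, rfl⟩ := h.exists_cl ξ
  obtain ⟨c', hc', hcc⟩ := h.chain_exists r.1 h2 hc
  rw [h.act_chain h2 hc hc' hcc]
  exact (h.pm_eq h1 (h.cyc r hr c c' hc hc' hcc)).symm

theorem action (h : CSys n L M Rs) (hl : ∀ c, L c → ∀ a ∈ c, a ≤ n)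
    (hlab : ∀ r ∈ Rs, r.2 ≤ n ∧ ∀ y ∈ r.1, y.2 ≤ n)
    (base : ∃ b, L b ∧ ∀ u, L u → ∃ c, L c ∧ Chain L M (u.map fun a => (true, a)) b c ∧ M 0 c u)
    {G : Type} [Group G] {val : ℕ → G} (h0 : val 0 = 1)
    (gen : Subgroup.closure {g | ∃ x ≤ n, g = val x} = ⊤)
    (univ : ∀ (H : Type) [Group H] (ψ : ℕ → H), ψ 0 = 1 → (∀ r ∈ Rs, vsS ψ r.1 = ψ r.2) →
      ∃ θ : G →* H, ∀ x ≤ n, θ (val x) = ψ x)
    (snd : ∀ x ≤ n, ∀ u v, L u → L v → M x u v → vs val u * val x = vs val v) :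
    (∀ g : G, ∃ u, L u ∧ vs val u = g) ∧
    (∀ x ≤ n, ∀ u v, L u → L v → vs val u * val x = vs val v → M x u v) := by
  obtain ⟨θ, hθ⟩ := univ _ h.ψ h.ψ_zero fun r hr => h.ψ_rel hlab hr
  obtain ⟨b, hb, hbase⟩ := base
  have labP : ∀ t : List ℕ, (∀ a ∈ t, a ≤ n) → ∀ y ∈ (t.map fun a => ((true, a) : Bool × ℕ)),
      y.2 ≤ n := by
    intro t ht y hy
    obtain ⟨a, ha, rfl⟩ := List.mem_map.1 hy
    exact ht a ha
  have hθs : ∀ t : List ℕ, (∀ a ∈ t, a ≤ n) → θ (vs val t) = vsS h.ψ (t.map fun a => (true, a)) := by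
    intro t ht
    rw [← vsS_pos, vsS_hom]
    exact vsS_congr fun y hy => hθ _ (labP t ht y hy)
  have hB : ∀ u (hu : L u), (θ (vs val u)).unop (h.cl b hb) = h.cl u hu := by
    intro u hu
    obtain ⟨c, hc, h1, h2⟩ := hbase u hu
    rw [hθs u (hl u hu), h.act_chain (labP u (hl u hu)) hb hc h1, h.cl_eq]
    exact h2
  -- values on classes
  have hν : ∃ ν : h.X → G, ∀ c (hc : L c), ν (h.cl c hc) = vs val c := by
    refine ⟨Quotient.lift (fun a : {c : List ℕ // L c} => vs val a.1) ?_, fun c hc => rfl⟩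
    intro a b hab
    have := snd 0 (Nat.zero_le _) a.1 b.1 a.2 b.2 hab
    rwa [h0, mul_one] at this
  obtain ⟨ν, hν⟩ := hν
  have hequiv : ∀ g : G, ∀ ξ : h.X, ν ((θ g).unop ξ) = ν ξ * g := by
    intro g
    have hg : g ∈ Subgroup.closure {g | ∃ x ≤ n, g = val x} := by rw [gen]; trivial
    induction hg using Subgroup.closure_induction with
    | mem g hg =>
      obtain ⟨x, hx, rfl⟩ := hg
      intro ξ
      obtain ⟨c, hc, rfl⟩ := h.exists_cl ξ
      obtain ⟨d, hd, hcd⟩ := h.totR x hx c hc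
      rw [hθ x hx]
      change ν (h.pm x (h.cl c hc)) = _
      rw [h.pm_eq hx hcd (hd := hd), hν, hν]
      exact (snd x hx c d hc hd hcd).symm
    | one => intro ξ; simp
    | mul g g' _ _ ih ih' =>
      intro ξ
      rw [map_mul, unop_mul, Equiv.Perm.mul_apply, ih', ih, mul_assoc]
    | inv g _ ih =>
      intro ξ
      have h1 := ih ((θ g⁻¹).unop ξ)
      have h2 : (θ g).unop ((θ g⁻¹).unop ξ) = ξ := by
        rw [map_inv, unop_inv]
        exact Equiv.apply_symm_apply _ _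
      rw [h2] at h1
      rw [h1, mul_assoc, mul_inv_cancel, mul_one]
  have hνb : ν (h.cl b hb) = 1 := by
    have h1 := hequiv (vs val b) (h.cl b hb)
    rw [hB b hb, hν] at h1
    rw [hν]
    exact mul_left_cancel (a := vs val b) (by rw [mul_one]; exact h1.symm)
  constructor
  · intro g
    obtain ⟨u, hu, h1⟩ := h.exists_cl ((θ g).unop (h.cl b hb))
    refine ⟨u, hu, ?_⟩
    have h2 := hequiv g (h.cl b hb)
    rw [h1, hν, hνb, one_mul] at h2
    exact h2
  · intro x hx u v hu hv huv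
    obtain ⟨u', hu', huu'⟩ := h.totR x hx u hu
    have h1 : h.cl v hv = h.cl u' hu' := by
      rw [← hB v hv, ← huv, map_mul, unop_mul, Equiv.Perm.mul_apply, hB u hu, hθ x hx]
      exact h.pm_eq hx huu'
    rw [h.cl_eq] at h1
    exact h.right hx hu hu' hv huu' (h.symm hv hu' h1)

end CSys

end Pool.Agent.H69.As
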