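import Pool.Agent.H69.As.Defs

set_option autoImplicit false

namespace Pool.Agent.H69.As

/-! ### Finite automata -/

theorem foldl_none (T : Tab) (t : List ℕ) :
    t.foldl (fun o a => o.bind fun q => look T q a) none = none := by
  induction t with
  | nil => rfl
  | cons a t ih => simpa using ih

@[simp] theorem run_nil (E : FSA) (q : ℕ) : run E q [] = some q := rfl

theorem run_cons (E : FSA) (q a : ℕ) (t : List ℕ) :
    run E q (a :: t) = (look E.2.2 q a).bind fun q' => run E q' t := by
  unfold run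
  rw [List.foldl_cons]
  simp only [Option.bind_some]
  cases h : look E.2.2 q a with
  | none => simpa using foldl_none _ t
  | some q' => rfl

theorem run_append (E : FSA) (q : ℕ) (s t : List ℕ) :
    run E q (s ++ t) = (run E q s).bind fun q' => run E q' t := by
  induction s generalizing q with
  | nil => simp
  | cons a s ih =>
    rw [List.cons_append, run_cons, run_cons]
    cases look E.2.2 q a with
    | none => simp
    | some q' => simp [ih]

theorem run_append_some {E : FSA} {q q' : ℕ} {s : List ℕ} (h : run E q s = some q')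
    (t : List ℕ) : run E q (s ++ t) = run E q' t := by
  rw [run_append, h]; rfl

theorem run_append_eq_some {E : FSA} {q q'' : ℕ} {s t : List ℕ} (h : run E q (s ++ t) = some q'') :
    ∃ q', run E q s = some q' ∧ run E q' t = some q'' := by
  rw [run_append] at h
  cases h' : run E q s with
  | none => simp [h'] at h
  | some q' => exact ⟨q', rfl, by simpa [h'] using h⟩

theorem look_mem {T : Tab} {q a s : ℕ} (h : look T q a = some s) : ((q, a), s) ∈ T := by
  rw [look_def] at h
  cases h' : T.find? (fun e => deqb e.1 (q, a)) with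
  | none => simp [h'] at h
  | some e =>
    have h1 := List.find?_some h'
    have h2 := List.mem_of_find?_eq_some h'
    simp only [h', Option.map_some, Option.some.injEq] at h
    simp only [deqb_iff] at h1
    obtain ⟨e1, e2⟩ := e
    simp only at h h1
    subst h h1
    exact h2

theorem look_of_mem {T : Tab} {q a s : ℕ} (h : ((q, a), s) ∈ T) : ∃ s', look T q a = some s' := by
  rw [look_def]
  cases h' : T.find? (fun e => deqb e.1 (q, a)) with
  | none =>
    have := List.find?_eq_none.1 h' _ h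
    simp at this
  | some e => exact ⟨e.2, by simp⟩

theorem look_mem_states {E : FSA} {q a s : ℕ} (h : look E.2.2 q a = some s) : s ∈ fstates E :=
  List.mem_cons_of_mem _ (List.mem_map.2 ⟨_, look_mem h, rfl⟩)

theorem start_mem_states (E : FSA) : E.1 ∈ fstates E := List.mem_cons_self

theorem run_mem_states {E : FSA} {q s : ℕ} {t : List ℕ} (hq : q ∈ fstates E)
    (h : run E q t = some s) : s ∈ fstates E := by
  induction t generalizing q with
  | nil => simp at h; exact h ▸ hq
  | cons a t ih =>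
    rw [run_cons] at h
    cases h' : look E.2.2 q a with
    | none => simp [h'] at h
    | some q' =>
      simp only [h', Option.bind_some] at h
      exact ih (look_mem_states h') h

/-! ### Deterministic two-tape automata -/

theorem Rd.trans {M : ASA} {s t u : ℕ} {l r l' r' : List ℕ} (h : Rd M s l r t)
    (h' : Rd M t l' r' u) : Rd M s (l ++ l') (r ++ r') u := by
  induction h with
  | nil s => exact h'
  | left h1 h2 _ ih => exact Rd.left h1 h2 (ih h')
  | right h1 h2 _ ih => exact Rd.right h1 h2 (ih h')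

theorem Rd.left_inv {M : ASA} {s s' t a : ℕ} {l r : List ℕ} (hs : s ∈ M.2.2.1)
    (hl : look M.2.2.2 s a = some s') (h : Rd M s (a :: l) r t) : Rd M s' l r t := by
  cases h with
  | left h3 h4 h5 =>
    rw [hl] at h4
    cases h4
    exact h5
  | right h3 h4 h5 => exact absurd hs h3

theorem Rd.right_inv {M : ASA} {s s' t a : ℕ} {l r : List ℕ} (hs : s ∉ M.2.2.1)
    (hl : look M.2.2.2 s a = some s') (h : Rd M s l (a :: r) t) : Rd M s' l r t := by
  cases h with
  | left h3 h4 h5 => exact absurd h3 hs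
  | right h3 h4 h5 =>
    rw [hl] at h4
    cases h4
    exact h5

/-- determinism -/
theorem Rd.append_inv {M : ASA} {s t u : ℕ} {l r l' r' : List ℕ} (h : Rd M s l r t)
    (h' : Rd M s (l ++ l') (r ++ r') u) : Rd M t l' r' u := by
  induction h with
  | nil s => exact h'
  | left h1 h2 _ ih => exact ih (Rd.left_inv h1 h2 h')
  | right h1 h2 _ ih => exact ih (Rd.right_inv h1 h2 h')

theorem Rd.split_left {M : ASA} {s t : ℕ} {l₁ l₂ r : List ℕ} (h : Rd M s (l₁ ++ l₂) r t) :
    ∃ r₁ r₂ s', r = r₁ ++ r₂ ∧ Rd M s l₁ r₁ s' ∧ Rd M s' l₂ r₂ t := by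
  generalize hl : l₁ ++ l₂ = l at h
  induction h generalizing l₁ with
  | nil s =>
    obtain ⟨rfl, rfl⟩ := List.append_eq_nil_iff.1 hl
    exact ⟨[], [], s, rfl, Rd.nil s, Rd.nil s⟩
  | @left s a s' t l r h1 h2 h3 ih =>
    cases l₁ with
    | nil =>
      simp only [List.nil_append] at hl
      subst hl
      exact ⟨[], r, s, rfl, Rd.nil s, Rd.left h1 h2 h3⟩
    | cons b l₁ =>
      simp only [List.cons_append, List.cons.injEq] at hl
      obtain ⟨rfl, hl⟩ := hl
      obtain ⟨r₁, r₂, s'', hr, h4, h5⟩ := ih hl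
      exact ⟨r₁, r₂, s'', hr, Rd.left h1 h2 h4, h5⟩
  | @right s a s' t l r h1 h2 h3 ih =>
    obtain ⟨r₁, r₂, s'', hr, h4, h5⟩ := ih hl
    exact ⟨a :: r₁, r₂, s'', by rw [hr]; rfl, Rd.right h1 h2 h4, h5⟩

/-! ### Paths -/

theorem Path.trans {R : List Tr} {s t w : ℕ} {u v u' v' : List ℕ} (h : Path R s u v t)
    (h' : Path R t u' v' w) : Path R s (u ++ u') (v ++ v') w := by
  induction h with
  | nil s => exact h'
  | cons h1 _ ih =>
    rw [List.append_assoc, List.append_assoc]
    exact Path.cons h1 (ih h')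

theorem Path.single {R : List Tr} {s s' : ℕ} {m : Option ℕ × Option ℕ} (h : (s, m, s') ∈ R) :
    Path R s m.1.toList m.2.toList s' := by
  have := Path.cons (R := R) (o := m.1) (p := m.2) h (Path.nil s')
  simpa using this

theorem Path.snoc {R : List Tr} {s t t' : ℕ} {u v : List ℕ} {m : Option ℕ × Option ℕ}
    (h : Path R s u v t) (h' : (t, m, t') ∈ R) :
    Path R s (u ++ m.1.toList) (v ++ m.2.toList) t' := h.trans (Path.single h')

theorem Path.mem_states {R : NA} {s t : ℕ} {u v : List ℕ} (h : Path R.2.2 s u v t)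
    (hs : s ∈ nstates R) : t ∈ nstates R := by
  induction h with
  | nil s => exact hs
  | cons h1 _ ih => exact ih (List.mem_cons_of_mem _ (List.mem_map.2 ⟨_, h1, rfl⟩))

theorem nstart_mem (R : NA) : R.1 ∈ nstates R := List.mem_cons_self

/-! ### Swap -/

theorem Path.swap {R : List Tr} {s t : ℕ} {u v : List ℕ} (h : Path R s u v t) :
    Path (R.map fun τ => (τ.1, (τ.2.1.2, τ.2.1.1), τ.2.2)) s v u t := by
  induction h with
  | nil s => exact Path.nil s
  | cons h1 _ ih =>
    refine Path.cons (List.mem_map.2 ⟨_, h1, rfl⟩) ih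

theorem swap_acc (R : NA) (u v : List ℕ) : NAcc (swap R) u v ↔ NAcc R v u := by
  constructor
  · rintro ⟨t, ht, h⟩
    refine ⟨t, ht, ?_⟩
    have := h.swap
    unfold As.swap at this
    simp only [List.map_map] at this
    have e : ((fun τ : Tr => (τ.1, (τ.2.1.2, τ.2.1.1), τ.2.2)) ∘
        fun τ : Tr => (τ.1, (τ.2.1.2, τ.2.1.1), τ.2.2)) = id := by
      funext τ; rfl
    rw [e, List.map_id] at this
    exact this
  · rintro ⟨t, ht, h⟩
    exact ⟨t, ht, h.swap⟩

/-! ### Restriction of a two-tape automaton -/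

theorem tri_inj {s e f s' e' f' : ℕ} : tri s e f = tri s' e' f' ↔ s = s' ∧ e = e' ∧ f = f' := by
  unfold tri
  rw [Nat.pair_eq_pair, Nat.pair_eq_pair]

theorem mem_prod {M : ASA} {E F : FSA} {x y : ℕ} {m : Option ℕ × Option ℕ} :
    (x, m, y) ∈ (prod M E F).2.2 ↔ ∃ s a s' e f, e ∈ fstates E ∧ f ∈ fstates F ∧
      look M.2.2.2 s a = some s' ∧ x = tri s e f ∧
      ((s ∈ M.2.2.1 ∧ m = (some a, none) ∧ ∃ e', look E.2.2 e a = some e' ∧ y = tri s' e' f) ∨
       (s ∉ M.2.2.1 ∧ m = (none, some a) ∧ ∃ f', look F.2.2 f a = some f' ∧ y = tri s' e f')) := by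
  unfold prod
  simp only [List.mem_flatMap]
  constructor
  · rintro ⟨⟨⟨s, a⟩, s₀⟩, hm, e, he, f, hf, h⟩
    simp only at h
    split_ifs at h with hs
    · rw [Option.mem_toList, Option.bind_eq_some_iff] at h
      obtain ⟨s', h1, h2⟩ := h
      rw [Option.map_eq_some_iff] at h2
      obtain ⟨e', h3, h4⟩ := h2
      cases h4
      exact ⟨s, a, s', e, f, he, hf, h1, rfl, Or.inl ⟨hs, rfl, e', h3, rfl⟩⟩
    · rw [Option.mem_toList, Option.bind_eq_some_iff] at h
      obtain ⟨s', h1, h2⟩ := h
      rw [Option.map_eq_some_iff] at h2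
      obtain ⟨f', h3, h4⟩ := h2
      cases h4
      exact ⟨s, a, s', e, f, he, hf, h1, rfl, Or.inr ⟨hs, rfl, f', h3, rfl⟩⟩
  · rintro ⟨s, a, s', e, f, he, hf, h1, rfl, h⟩
    refine ⟨((s, a), s'), look_mem h1, e, he, f, hf, ?_⟩
    rcases h with ⟨hs, rfl, e', h3, rfl⟩ | ⟨hs, rfl, f', h3, rfl⟩
    · simp [hs, h1, h3]
    · simp [hs, h1, h3]

theorem prod_path_of {M : ASA} {E F : FSA} {s t : ℕ} {u v : List ℕ} (h : Rd M s u v t) :
    ∀ {e f e' f' : ℕ}, e ∈ fstates E → f ∈ fstates F → run E e u = some e' → run F f v = some f' →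
      Path (prod M E F).2.2 (tri s e f) u v (tri t e' f') := by
  induction h with
  | nil s =>
    intro e f e' f' _ _ h1 h2
    simp only [run_nil, Option.some.injEq] at h1 h2
    subst h1 h2
    exact Path.nil _
  | @left s a s' t l r h1 h2 _ ih =>
    intro e f e' f' he hf h3 h4
    rw [run_cons] at h3
    obtain ⟨e₁, h5, h6⟩ := Option.bind_eq_some_iff.1 h3
    have := Path.cons (R := (prod M E F).2.2) (o := some a) (p := none)
      (mem_prod.2 ⟨s, a, s', e, f, he, hf, h2, rfl, Or.inl ⟨h1, rfl, e₁, h5, rfl⟩⟩)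
      (ih (look_mem_states h5) hf h6 h4)
    simpa using this
  | @right s a s' t l r h1 h2 _ ih =>
    intro e f e' f' he hf h3 h4
    rw [run_cons] at h4
    obtain ⟨e₁, h5, h6⟩ := Option.bind_eq_some_iff.1 h4
    have := Path.cons (R := (prod M E F).2.2) (o := none) (p := some a)
      (mem_prod.2 ⟨s, a, s', e, f, he, hf, h2, rfl, Or.inr ⟨h1, rfl, e₁, h5, rfl⟩⟩)
      (ih he (look_mem_states h5) h3 h6)
    simpa using this

theorem prod_path_to {M : ASA} {E F : FSA} {x y : ℕ} {u v : List ℕ}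
    (h : Path (prod M E F).2.2 x u v y) :
    ∀ {s e f : ℕ}, x = tri s e f → ∃ t e' f', y = tri t e' f' ∧ Rd M s u v t ∧
      run E e u = some e' ∧ run F f v = some f' := by
  induction h with
  | nil x =>
    intro s e f hx
    exact ⟨s, e, f, hx, Rd.nil s, rfl, rfl⟩
  | @cons x x' y o p u v h1 _ ih =>
    intro s e f hx
    obtain ⟨s₀, a, s', e₀, f₀, he, hf, h2, hx', h3⟩ := mem_prod.1 h1
    rw [hx, tri_inj] at hx'
    obtain ⟨rfl, rfl, rfl⟩ := hx'
    rcases h3 with ⟨hs, hm, e₁, h4, hy⟩ | ⟨hs, hm, f₁, h4, hy⟩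
    · simp only [Prod.mk.injEq] at hm
      obtain ⟨rfl, rfl⟩ := hm
      obtain ⟨t, e', f', h5, h6, h7, h8⟩ := ih hy
      refine ⟨t, e', f', h5, ?_, ?_, ?_⟩
      · simpa using Rd.left hs h2 h6
      · simp [run_cons, h4, h7]
      · simpa using h8
    · simp only [Prod.mk.injEq] at hm
      obtain ⟨rfl, rfl⟩ := hm
      obtain ⟨t, e', f', h5, h6, h7, h8⟩ := ih hy
      refine ⟨t, e', f', h5, ?_, ?_, ?_⟩
      · simpa using Rd.right hs h2 h6
      · simpa using h7
      · simp [run_cons, h4, h8]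

theorem prod_acc (M : ASA) (E F : FSA) (u v : List ℕ) :
    NAcc (prod M E F) u v ↔ AAcc M u v ∧ FAcc E u ∧ FAcc F v := by
  constructor
  · rintro ⟨y, hy, h⟩
    obtain ⟨t, e', f', h1, h2, h3, h4⟩ := prod_path_to h (s := M.1) (e := E.1) (f := F.1) rfl
    unfold prod at hy
    simp only [List.mem_flatMap, List.mem_map] at hy
    obtain ⟨e, he, f, hf, hh⟩ := hy
    rw [h1, tri_inj] at hh
    obtain ⟨rfl, rfl, rfl⟩ := hh
    exact ⟨h2, ⟨e, h3, he⟩, ⟨f, h4, hf⟩⟩
  · rintro ⟨h1, ⟨e, h2, he⟩, ⟨f, h3, hf⟩⟩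
    refine ⟨tri M.2.1 e f, ?_, ?_⟩
    · unfold prod
      simp only [List.mem_flatMap, List.mem_map]
      exact ⟨e, he, f, hf, rfl⟩
    · exact prod_path_of h1 (start_mem_states E) (start_mem_states F) h2 h3

/-! ### Composition -/

theorem mem_comp {R S : NA} {x y : ℕ} {m : Option ℕ × Option ℕ} :
    (x, m, y) ∈ (comp R S).2.2 ↔
      (∃ s o s' t, (s, (o, none), s') ∈ R.2.2 ∧ t ∈ nstates S ∧ x = Nat.pair s t ∧
        m = (o, none) ∧ y = Nat.pair s' t) ∨
      (∃ t p t' s, (t, (none, p), t') ∈ S.2.2 ∧ s ∈ nstates R ∧ x = Nat.pair s t ∧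
        m = (none, p) ∧ y = Nat.pair s t') ∨
      (∃ s o b s' t p t', (s, (o, some b), s') ∈ R.2.2 ∧ (t, (some b, p), t') ∈ S.2.2 ∧
        x = Nat.pair s t ∧ m = (o, p) ∧ y = Nat.pair s' t') := by
  unfold comp
  simp only [List.mem_append, List.mem_flatMap]
  constructor
  · rintro ((⟨⟨s, ⟨o, p⟩, s'⟩, hτ, h⟩ | ⟨⟨t, ⟨o, p⟩, t'⟩, hτ, h⟩) |
      ⟨⟨s, ⟨o, p⟩, s'⟩, hτ, ⟨t, ⟨o', p'⟩, t'⟩, hυ, h⟩)
    · simp only at h
      split_ifs at h with hp
      · subst hp
        obtain ⟨t, ht, h⟩ := List.mem_map.1 h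
        cases h
        exact Or.inl ⟨s, o, s', t, hτ, ht, rfl, rfl, rfl⟩
      · simp at h
    · simp only at h
      split_ifs at h with hp
      · subst hp
        obtain ⟨s, hs, h⟩ := List.mem_map.1 h
        cases h
        exact Or.inr (Or.inl ⟨t, p, t', s, hτ, hs, rfl, rfl, rfl⟩)
      · simp at h
    · simp only at h
      split_ifs at h with hp
      · obtain ⟨h1, h2⟩ := hp
        obtain ⟨b, rfl⟩ := Option.ne_none_iff_exists'.1 h1
        subst h2
        rw [List.mem_singleton] at h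
        cases h
        exact Or.inr (Or.inr ⟨s, o, b, s', t, p', t', hτ, hυ, rfl, rfl, rfl⟩)
      · simp at h
  · rintro (⟨s, o, s', t, hτ, ht, rfl, rfl, rfl⟩ | ⟨t, p, t', s, hτ, hs, rfl, rfl, rfl⟩ |
      ⟨s, o, b, s', t, p, t', hτ, hυ, rfl, rfl, rfl⟩)
    · refine Or.inl (Or.inl ⟨_, hτ, ?_⟩)
      simp only [if_true]
      exact List.mem_map.2 ⟨t, ht, rfl⟩
    · refine Or.inl (Or.inr ⟨_, hτ, ?_⟩)
      simp only [if_true]
      exact List.mem_map.2 ⟨s, hs, rfl⟩
    · refine Or.inr ⟨_, hτ, _, hυ, ?_⟩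
      simp

theorem comp_path_to {R S : NA} {x y : ℕ} {u w : List ℕ} (h : Path (comp R S).2.2 x u w y) :
    ∀ {s t : ℕ}, x = Nat.pair s t → ∃ s' t' v, y = Nat.pair s' t' ∧ Path R.2.2 s u v s' ∧
      Path S.2.2 t v w t' := by
  induction h with
  | nil x =>
    intro s t hx
    exact ⟨s, t, [], hx, Path.nil s, Path.nil t⟩
  | @cons x x' y o p u v h1 _ ih =>
    intro s t hx
    rcases mem_comp.1 h1 with ⟨s₀, o₀, s₁, t₀, hτ, _, hx', hm, hy⟩ |
      ⟨t₀, p₀, t₁, s₀, hτ, _, hx', hm, hy⟩ | ⟨s₀, o₀, b, s₁, t₀, p₀, t₁, hτ, hυ, hx', hm, hy⟩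
    · rw [hx, Nat.pair_eq_pair] at hx'
      obtain ⟨rfl, rfl⟩ := hx'
      simp only [Prod.mk.injEq] at hm
      obtain ⟨rfl, rfl⟩ := hm
      obtain ⟨s', t', w, h2, h3, h4⟩ := ih hy
      refine ⟨s', t', w, h2, ?_, ?_⟩
      · simpa using Path.cons hτ h3
      · simpa using h4
    · rw [hx, Nat.pair_eq_pair] at hx'
      obtain ⟨rfl, rfl⟩ := hx'
      simp only [Prod.mk.injEq] at hm
      obtain ⟨rfl, rfl⟩ := hm
      obtain ⟨s', t', w, h2, h3, h4⟩ := ih hy
      refine ⟨s', t', w, h2, ?_, ?_⟩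
      · simpa using h3
      · simpa using Path.cons hτ h4
    · rw [hx, Nat.pair_eq_pair] at hx'
      obtain ⟨rfl, rfl⟩ := hx'
      simp only [Prod.mk.injEq] at hm
      obtain ⟨rfl, rfl⟩ := hm
      obtain ⟨s', t', w, h2, h3, h4⟩ := ih hy
      refine ⟨s', t', b :: w, h2, ?_, ?_⟩
      · simpa using Path.cons hτ h3
      · simpa using Path.cons hυ h4

theorem comp_path_of {R S : NA} {s s' : ℕ} {u v : List ℕ} (h : Path R.2.2 s u v s')
    (hs : s ∈ nstates R) :
    ∀ {t t' : ℕ} {w : List ℕ}, t ∈ nstates S → Path S.2.2 t v w t' →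
      Path (comp R S).2.2 (Nat.pair s t) u w (Nat.pair s' t') := by
  induction h with
  | nil s =>
    intro t t' w ht h'
    generalize hv : ([] : List ℕ) = v at h'
    induction h' with
    | nil t => exact Path.nil _
    | @cons t₀ t₁ t₂ o p v' w' h1 _ ih =>
      obtain ⟨ho, hv'⟩ := List.append_eq_nil_iff.1 hv.symm
      have ho' : o = none := by
        cases o with
        | none => rfl
        | some b => simp at ho
      subst ho'
      have h2 : t₁ ∈ nstates S := List.mem_cons_of_mem _ (List.mem_map.2 ⟨_, h1, rfl⟩)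
      have := Path.cons (R := (comp R S).2.2) (o := none) (p := p)
        (mem_comp.2 (Or.inr (Or.inl ⟨t₀, p, t₁, s, h1, hs, rfl, rfl, rfl⟩))) (ih h2 hv'.symm)
      simpa using this
  | @cons s s₁ s' o p u v h1 _ ih =>
    intro t t' w ht h'
    have hs1 : s₁ ∈ nstates R := List.mem_cons_of_mem _ (List.mem_map.2 ⟨_, h1, rfl⟩)
    cases p with
    | none =>
      simp only [Option.toList_none, List.nil_append] at h'
      have := Path.cons (R := (comp R S).2.2) (o := o) (p := none)
        (mem_comp.2 (Or.inl ⟨s, o, s₁, t, h1, ht, rfl, rfl, rfl⟩)) (ih hs1 ht h')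
      simpa using this
    | some b =>
      simp only [Option.toList_some, List.cons_append, List.nil_append] at h'
      generalize hv : b :: v = v₀ at h'
      induction h' with
      | nil t => simp at hv
      | @cons t₀ t₁ t₂ o' p' v' w' h2 h3 ih' =>
        have ht1 : t₁ ∈ nstates S := List.mem_cons_of_mem _ (List.mem_map.2 ⟨_, h2, rfl⟩)
        cases o' with
        | none =>
          simp only [Option.toList_none, List.nil_append] at hv
          have := Path.cons (R := (comp R S).2.2) (o := none) (p := p')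
            (mem_comp.2 (Or.inr (Or.inl ⟨t₀, p', t₁, s, h2, hs, rfl, rfl, rfl⟩)))
            (ih' ht1 hv)
          simpa using this
        | some b' =>
          simp only [Option.toList_some, List.cons_append, List.nil_append,
            List.cons.injEq] at hv
          obtain ⟨rfl, rfl⟩ := hv
          exact Path.cons (R := (comp R S).2.2) (o := o) (p := p')
            (mem_comp.2 (Or.inr (Or.inr ⟨s, o, b, s₁, t₀, p', t₁, h1, h2, rfl, rfl, rfl⟩)))
            (ih hs1 ht1 h3)

theorem comp_acc (R S : NA) (u w : List ℕ) :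
    NAcc (comp R S) u w ↔ ∃ v, NAcc R u v ∧ NAcc S v w := by
  constructor
  · rintro ⟨y, hy, h⟩
    obtain ⟨s', t', v, h1, h2, h3⟩ := comp_path_to h (s := R.1) (t := S.1) rfl
    unfold comp at hy
    simp only [List.mem_flatMap, List.mem_map] at hy
    obtain ⟨s, hs, t, ht, hh⟩ := hy
    rw [h1, Nat.pair_eq_pair] at hh
    obtain ⟨rfl, rfl⟩ := hh
    exact ⟨v, ⟨s, hs, h2⟩, ⟨t, ht, h3⟩⟩
  · rintro ⟨v, ⟨s, hs, h2⟩, ⟨t, ht, h3⟩⟩
    refine ⟨Nat.pair s t, ?_, ?_⟩
    · unfold comp
      simp only [List.mem_flatMap, List.mem_map]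
      exact ⟨s, hs, t, ht, rfl⟩
    · exact comp_path_of h2 (nstart_mem R) (nstart_mem S) h3

/-! ### Identity -/

theorem mem_idNA {E : FSA} {x y : ℕ} {m : Option ℕ × Option ℕ} :
    (x, m, y) ∈ (idNA E).2.2 ↔ ∃ a, m = (some a, some a) ∧ look E.2.2 x a = some y := by
  unfold idNA
  simp only [List.mem_flatMap]
  constructor
  · rintro ⟨⟨⟨q, a⟩, q₀⟩, hm, h⟩
    rw [Option.mem_toList, Option.map_eq_some_iff] at h
    obtain ⟨q', h1, h2⟩ := h
    cases h2
    exact ⟨a, rfl, h1⟩
  · rintro ⟨a, rfl, h⟩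
    exact ⟨((x, a), y), look_mem h, by simp [h]⟩

theorem id_acc (E : FSA) (u v : List ℕ) : NAcc (idNA E) u v ↔ u = v ∧ FAcc E u := by
  constructor
  · rintro ⟨y, hy, h⟩
    have key : ∀ {x y : ℕ} {u v : List ℕ}, Path (idNA E).2.2 x u v y →
        u = v ∧ run E x u = some y := by
      intro x y u v h
      induction h with
      | nil x => exact ⟨rfl, rfl⟩
      | @cons x x' y o p u v h1 _ ih =>
        obtain ⟨a, hm, h2⟩ := mem_idNA.1 h1
        simp only [Prod.mk.injEq] at hm
        obtain ⟨rfl, rfl⟩ := hm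
        obtain ⟨rfl, h3⟩ := ih
        exact ⟨rfl, by simp [run_cons, h2, h3]⟩
    obtain ⟨h1, h2⟩ := key h
    exact ⟨h1, y, h2, hy⟩
  · rintro ⟨rfl, y, h, hy⟩
    have key : ∀ (u : List ℕ) (x : ℕ), run E x u = some y → Path (idNA E).2.2 x u u y := by
      intro u
      induction u with
      | nil => intro x h; simp at h; subst h; exact Path.nil _
      | cons a u ih =>
        intro x h
        rw [run_cons] at h
        obtain ⟨x', h1, h2⟩ := Option.bind_eq_some_iff.1 h
        have := Path.cons (R := (idNA E).2.2) (o := some a) (p := some a)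
          (mem_idNA.2 ⟨a, rfl, h1⟩) (ih x' h2)
        simpa using this
    exact ⟨y, hy, key u _ h⟩

/-! ### Tails -/

theorem mem_tailNA {E : FSA} {e : ℕ} {l r : List ℕ} {x y : ℕ} {m : Option ℕ × Option ℕ} :
    (x, m, y) ∈ (tailNA E e l r).2.2 ↔
      (x = 2 * e ∧ m = (none, none) ∧ y = 1) ∨
      (∃ q a q', look E.2.2 q a = some q' ∧ x = 2 * q ∧ m = (some a, some a) ∧ y = 2 * q') ∨
      (∃ i, i < max l.length r.length ∧ x = 2 * i + 1 ∧ m = (l[i]?, r[i]?) ∧ y = 2 * i + 3) := by
  unfold tailNA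
  simp only [List.cons_append, List.mem_cons, List.mem_append, List.mem_flatMap, List.mem_map,
    List.mem_range, Prod.mk.injEq]
  constructor
  · rintro (⟨rfl, rfl, rfl⟩ | ⟨⟨⟨q, a⟩, q₀⟩, hm, h⟩ | ⟨i, hi, rfl, rfl, rfl⟩)
    · exact Or.inl ⟨rfl, rfl, rfl⟩
    · rw [Option.mem_toList, Option.map_eq_some_iff] at h
      obtain ⟨q', h1, h2⟩ := h
      cases h2
      exact Or.inr (Or.inl ⟨q, a, q', h1, rfl, rfl, rfl⟩)
    · exact Or.inr (Or.inr ⟨i, hi, rfl, rfl, rfl⟩)
  · rintro (⟨rfl, rfl, rfl⟩ | ⟨q, a, q', h, rfl, rfl, rfl⟩ | ⟨i, hi, rfl, rfl, rfl⟩)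
    · exact Or.inl ⟨rfl, rfl, rfl⟩
    · exact Or.inr (Or.inl ⟨((q, a), q'), look_mem h, by simp [h]⟩)
    · exact Or.inr (Or.inr ⟨i, hi, rfl, rfl, rfl⟩)

theorem drop_eq_toList (l : List ℕ) (i : ℕ) : l.drop i = l[i]?.toList ++ l.drop (i + 1) := by
  by_cases h : i < l.length
  · rw [List.getElem?_eq_getElem h]
    simp only [Option.toList_some]
    exact List.drop_eq_getElem_cons h
  · have h1 : l.length ≤ i := not_lt.1 h
    rw [List.getElem?_eq_none h1, List.drop_eq_nil_of_le h1,
      List.drop_eq_nil_of_le (by omega : l.length ≤ i + 1)]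
    rfl

theorem tail_acc (E : FSA) (e : ℕ) (l r : List ℕ) (u v : List ℕ) :
    NAcc (tailNA E e l r) u v ↔ ∃ p, run E E.1 p = some e ∧ u = p ++ l ∧ v = p ++ r := by
  set m := max l.length r.length with hm
  constructor
  · rintro ⟨y, hy, h⟩
    have hy' : y = 2 * m + 1 := by simpa [tailNA] using hy
    have key : ∀ {x y : ℕ} {u v : List ℕ}, Path (tailNA E e l r).2.2 x u v y → y = 2 * m + 1 →
        (∀ i, x = 2 * i + 1 → u = l.drop i ∧ v = r.drop i) ∧
        (∀ q, x = 2 * q → ∃ p, run E q p = some e ∧ u = p ++ l ∧ v = p ++ r) := by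
      intro x y u v h
      induction h with
      | nil x =>
        rintro rfl
        constructor
        · intro i hi
          have : i = m := by omega
          subst this
          exact ⟨(List.drop_eq_nil_of_le (le_max_left _ _)).symm,
            (List.drop_eq_nil_of_le (le_max_right _ _)).symm⟩
        · intro q hq; omega
      | @cons x x' y o p u v h1 _ ih =>
        intro hy
        obtain ⟨ih1, ih2⟩ := ih hy
        rcases mem_tailNA.1 h1 with ⟨rfl, hm', rfl⟩ | ⟨q, a, q', h2, rfl, hm', rfl⟩ |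
          ⟨i, hi, rfl, hm', rfl⟩
        · simp only [Prod.mk.injEq] at hm'
          obtain ⟨rfl, rfl⟩ := hm'
          constructor
          · intro i hi; omega
          · intro q hq
            have : q = e := by omega
            subst this
            obtain ⟨h3, h4⟩ := ih1 0 rfl
            exact ⟨[], rfl, by simpa using h3, by simpa using h4⟩
        · simp only [Prod.mk.injEq] at hm'
          obtain ⟨rfl, rfl⟩ := hm'
          constructor
          · intro i hi; omega
          · intro q₁ hq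
            have : q₁ = q := by omega
            subst this
            obtain ⟨p, h3, h4, h5⟩ := ih2 q' rfl
            refine ⟨a :: p, ?_, ?_, ?_⟩
            · rw [run_cons, h2]; exact h3
            · rw [h4]; rfl
            · rw [h5]; rfl
        · simp only [Prod.mk.injEq] at hm'
          obtain ⟨rfl, rfl⟩ := hm'
          constructor
          · intro j hj
            have : j = i := by omega
            subst this
            obtain ⟨h3, h4⟩ := ih1 (j + 1) (by ring)
            rw [h3, h4]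
            exact ⟨(drop_eq_toList l j).symm, (drop_eq_toList r j).symm⟩
          · intro q hq; omega
    exact (key h hy').2 E.1 (by simp [tailNA])
  · rintro ⟨p, hp, rfl, rfl⟩
    refine ⟨2 * m + 1, by simp [tailNA, hm], ?_⟩
    have k1 : ∀ j i, i + j = m →
        Path (tailNA E e l r).2.2 (2 * i + 1) (l.drop i) (r.drop i) (2 * m + 1) := by
      intro j
      induction j with
      | zero =>
        intro i hi
        have : i = m := by omega
        subst this
        rw [List.drop_eq_nil_of_le (le_max_left _ _), List.drop_eq_nil_of_le (le_max_right _ _)]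
        exact Path.nil _
      | succ j ih =>
        intro i hi
        rw [drop_eq_toList l i, drop_eq_toList r i]
        refine Path.cons (mem_tailNA.2 (Or.inr (Or.inr ⟨i, by omega, rfl, rfl, rfl⟩))) ?_
        have := ih (i + 1) (by omega)
        rwa [show 2 * (i + 1) + 1 = 2 * i + 3 by ring] at this
    have k2 : ∀ (p : List ℕ) (q : ℕ), run E q p = some e →
        Path (tailNA E e l r).2.2 (2 * q) (p ++ l) (p ++ r) (2 * m + 1) := by
      intro p
      induction p with
      | nil =>
        intro q hq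
        simp only [run_nil, Option.some.injEq] at hq
        subst hq
        have := Path.cons (R := (tailNA E q l r).2.2) (o := none) (p := none)
          (mem_tailNA.2 (Or.inl ⟨rfl, rfl, rfl⟩)) (k1 m 0 (by omega))
        simpa using this
      | cons a p ih =>
        intro q hq
        rw [run_cons] at hq
        obtain ⟨q', h1, h2⟩ := Option.bind_eq_some_iff.1 hq
        have := Path.cons (R := (tailNA E e l r).2.2) (o := some a) (p := some a)
          (mem_tailNA.2 (Or.inr (Or.inl ⟨q, a, q', h1, rfl, rfl, rfl⟩))) (ih q' h2)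
        simpa using this
    have := k2 p E.1 hp
    simpa [tailNA] using this

/-! ### Chains -/

theorem link_acc (E : FSA) (D : ℕ → ASA) (y : Bool × ℕ) (c c' : List ℕ) :
    NAcc (link E D y) c c' ↔
      (if y.1 then AAcc (D y.2) c c' else AAcc (D y.2) c' c) ∧ FAcc E c ∧ FAcc E c' := by
  unfold link
  cases y.1 with
  | true => simpa using prod_acc _ _ _ _ _
  | false =>
    simp only [Bool.false_eq_true, if_false]
    rw [swap_acc, prod_acc]
    tauto

theorem chain_acc (E : FSA) (D : ℕ → ASA) (R : NA) (ys : SW)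
    (hR : ∀ u v, NAcc R u v → FAcc E v) (u w : List ℕ) :
    NAcc (chainNA E D R ys) u w ↔
      ∃ v, NAcc R u v ∧ Chain (FAcc E) (fun x => AAcc (D x)) ys v w := by
  induction ys generalizing R u with
  | nil =>
    unfold chainNA
    simp only [List.foldl_nil]
    constructor
    · intro h; exact ⟨w, h, Chain.nil w⟩
    · rintro ⟨v, h, hc⟩
      cases hc
      exact h
  | cons y ys ih =>
    have e : chainNA E D R (y :: ys) = chainNA E D (comp R (link E D y)) ys := rfl
    rw [e, ih]
    · constructor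
      · rintro ⟨v, h, hc⟩
        rw [comp_acc] at h
        obtain ⟨v', h1, h2⟩ := h
        rw [link_acc] at h2
        obtain ⟨h3, _, h4⟩ := h2
        refine ⟨v', h1, ?_⟩
        obtain ⟨b, x⟩ := y
        exact Chain.cons h4 h3 hc
      · rintro ⟨v, h, hc⟩
        obtain ⟨b, x⟩ := y
        cases hc with
        | @cons _ _ _ _ c' _ h1 h2 h3 =>
          refine ⟨c', ?_, h3⟩
          rw [comp_acc]
          exact ⟨v, h, (link_acc _ _ _ _ _).2 ⟨h2, hR _ _ h, h1⟩⟩
    · intro u v h
      rw [comp_acc] at h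
      obtain ⟨v', _, h2⟩ := h
      exact ((link_acc _ _ _ _ _).1 h2).2.2

end Pool.Agent.H69.As
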