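import Pool.Agent.H69.As.Rels

set_option autoImplicit false

namespace Pool.Agent.H69.As

/-- item of the completeness certificate: state, states of the tapes, read prefixes, completions -/
abbrev Item := ℕ × (ℕ × ℕ) × (List ℕ × List ℕ) × (List ℕ × List ℕ)

/-- the relation `M_ε ∘ M_x|L₁ ∘ M_ε⁻¹` -/
def tri3 (E E₁ : FSA) (D : ℕ → ASA) (x : ℕ) : NA :=
  comp (comp (prod (D 0) E E₁) (prod (D x) E₁ E₁)) (swap (prod (D 0) E E₁))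

def ItemOK (E : FSA) (M : ASA) (i : Item) : Prop :=
  Rd M M.1 i.2.2.1.1 i.2.2.1.2 i.1 ∧ run E E.1 i.2.2.1.1 = some i.2.1.1 ∧
  run E E.1 i.2.2.1.2 = some i.2.1.2 ∧ Rd M i.1 i.2.2.2.1 i.2.2.2.2 M.2.1 ∧
  FAcc E (i.2.2.1.1 ++ i.2.2.2.1) ∧ FAcc E (i.2.2.1.2 ++ i.2.2.2.2)

def StepOK (E E₁ : FSA) (D : ℕ → ASA) (x : ℕ) (A : List Item) (i : Item) (a : ℕ) : Prop :=
  (i.1 ∈ (D x).2.2.1 → ∀ q, look E.2.2 i.2.1.1 a = some q →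
    (∃ j ∈ A, look (D x).2.2.2 i.1 a = some j.1 ∧ j.2.1 = (q, i.2.1.2)) ∨
      EmptyP (tri3 E E₁ D x) (i.2.2.1.1 ++ [a]) i.2.2.1.2) ∧
  (i.1 ∉ (D x).2.2.1 → ∀ q, look E.2.2 i.2.1.2 a = some q →
    (∃ j ∈ A, look (D x).2.2.2 i.1 a = some j.1 ∧ j.2.1 = (i.2.1.1, q)) ∨
      EmptyP (tri3 E E₁ D x) i.2.2.1.1 (i.2.2.1.2 ++ [a]))

/-- completeness certificate for the automaton with label `x` -/
def StC (n : ℕ) (E E₁ : FSA) (D : ℕ → ASA) (x : ℕ) : Prop :=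
  ∃ A : List Item, (∃ i ∈ A, i.1 = (D x).1 ∧ i.2.1 = (E.1, E.1)) ∧
    (∀ i ∈ A, ItemOK E (D x) i) ∧
    (∀ i ∈ A, ∀ a ∈ List.range (n + 1), StepOK E E₁ D x A i a)

def BaseOK (E₁ : FSA) (D : ℕ → ASA) (C : List (ℕ × List ℕ)) : Prop :=
  (∃ c ∈ C, c.1 = E₁.1) ∧ (∀ c ∈ C, c.1 ∈ E₁.2.1 → c.2 = []) ∧
  (∀ c ∈ C, ∃ q ∈ E₁.2.1, run E₁ c.1 c.2 = some q) ∧
  (∀ c ∈ C, ∀ m ∈ E₁.2.2, m.1.1 = c.1 → ∃ c' ∈ C, look E₁.2.2 m.1.1 m.1.2 = some c'.1 ∧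
    IncC (chainNA E₁ D (tailNA E₁ c.1 (m.1.2 :: c'.2) c.2) (baseLab m.1.2 c.2 c'.2)) (D 0))

/-- the certificate -/
def CertOK (n : ℕ) (E : FSA) (D : ℕ → ASA) : Prop :=
  ∃ (E₁ : FSA) (C : List (ℕ × List ℕ)) (t₀ : List ℕ),
    FAcc E₁ t₀ ∧ DomC E₁ (prod (D 0) E E₁) ∧ DomC E (prod (D 0) E E₁) ∧
    (∀ x ∈ List.range (n + 1), DomC E₁ (prod (D x) E₁ E₁)) ∧
    (∀ x ∈ List.range (n + 1), DomC E₁ (swap (prod (D x) E₁ E₁))) ∧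
    (∀ r ∈ Rels n D, IncC (chainNA E₁ D (idNA E₁) r.1) (D r.2)) ∧
    BaseOK E₁ D C ∧
    (∀ x ∈ List.range (n + 1), IncF (prod (D x) (PT n) (PT n)) E) ∧
    (∀ x ∈ List.range (n + 1), IncF (swap (prod (D x) (PT n) (PT n))) E) ∧
    (∀ x ∈ List.range (n + 1), StC n E E₁ D x)

end Pool.Agent.H69.As
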