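import Pool.Agent.H69.As.Basic

set_option autoImplicit false

namespace Pool.Agent.H69.As

theorem cert_sound {φ : Type} {st : φ → Option ℕ × Option ℕ → Option φ} {fin : φ → Prop} {φ0 : φ}
    {R : NA} {Z : List ℕ} {I : List (ℕ × φ)} {Inv : φ → List ℕ → List ℕ → Prop}
    (h0 : Inv φ0 [] [])
    (hs : ∀ c m c' u v, Inv c u v → st c m = some c' → Inv c' (u ++ m.1.toList) (v ++ m.2.toList))
    (hc : Cert st fin φ0 R Z I) {u v : List ℕ} (h : NAcc R u v) : ∃ c, Inv c u v ∧ fin c := by
  obtain ⟨c1, c2, c3, c4, c5⟩ := hc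
  obtain ⟨t, ht, h⟩ := h
  have kZ : ∀ {s t : ℕ} {u v : List ℕ}, Path R.2.2 s u v t → s ∈ Z → t ∈ Z := by
    intro s t u v h
    induction h with
    | nil s => exact id
    | cons h1 _ ih => exact fun hz => ih (c3 _ h1 hz)
  have key : ∀ {s t : ℕ} {u v : List ℕ}, Path R.2.2 s u v t → t ∈ R.2.1 →
      ∀ (c : φ) (u₀ v₀ : List ℕ), (s, c) ∈ I → Inv c u₀ v₀ →
        ∃ c, Inv c (u₀ ++ u) (v₀ ++ v) ∧ fin c := by
    intro s t u v h
    induction h with
    | nil s =>
      intro ht c u₀ v₀ hI hInv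
      exact ⟨c, by simpa using hInv, c5 _ hI ht⟩
    | @cons s s' t o p u v h1 h2 ih =>
      intro ht c u₀ v₀ hI hInv
      rcases c4 _ hI _ h1 rfl with hz | ⟨c', h3, h4⟩
      · exact absurd (kZ h2 hz) (c2 _ ht)
      · obtain ⟨c'', h5, h6⟩ := ih ht c' _ _ h4 (hs _ _ _ _ _ hInv h3)
        refine ⟨c'', ?_, h6⟩
        simpa [List.append_assoc] using h5
  rcases c1 with hz | hI
  · exact absurd (kZ h hz) (c2 _ ht)
  · simpa using key h ht φ0 [] [] hI h0

theorem cert_complete {φ : Type} {st : φ → Option ℕ × Option ℕ → Option φ} {fin : φ → Prop}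
    {φ0 : φ} {R : NA} {Inv : φ → List ℕ → List ℕ → Prop} (h0 : Inv φ0 [] [])
    (hs : ∀ c u v s m s', Inv c u v → Path R.2.2 R.1 u v s → (s, m, s') ∈ R.2.2 → Live R s' →
      ∃ c', st c m = some c' ∧ Inv c' (u ++ m.1.toList) (v ++ m.2.toList))
    (hf : ∀ c u v s, Inv c u v → Path R.2.2 R.1 u v s → s ∈ R.2.1 → fin c)
    (hfin : {c | ∃ u v s, Path R.2.2 R.1 u v s ∧ Live R s ∧ Inv c u v}.Finite) :
    ∃ Z I, Cert st fin φ0 R Z I := by
  classical
  set Y : Set (ℕ × φ) := {x | ∃ u v, Path R.2.2 R.1 u v x.1 ∧ Live R x.1 ∧ Inv x.2 u v} with hY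
  have hYf : Y.Finite := by
    refine Set.Finite.subset ((List.finite_toSet (nstates R)).prod hfin) ?_
    rintro ⟨s, c⟩ ⟨u, v, h1, h2, h3⟩
    exact ⟨h1.mem_states (nstart_mem R), u, v, s, h1, h2, h3⟩
  refine ⟨(nstates R).filter fun s => ¬ Live R s, hYf.toFinset.toList, ?_, ?_, ?_, ?_, ?_⟩
  · by_cases h : Live R R.1
    · right
      rw [Finset.mem_toList, Set.Finite.mem_toFinset]
      exact ⟨[], [], Path.nil _, h, h0⟩
    · left
      rw [List.mem_filter]
      exact ⟨nstart_mem R, by simpa using h⟩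
  · intro z hz h
    rw [List.mem_filter] at h
    have h2 : ¬ Live R z := by simpa using h.2
    exact h2 ⟨z, hz, [], [], Path.nil z⟩
  · intro τ hτ h
    rw [List.mem_filter] at h ⊢
    have h2 : ¬ Live R τ.1 := by simpa using h.2
    refine ⟨List.mem_cons_of_mem _ (List.mem_map.2 ⟨_, hτ, rfl⟩), ?_⟩
    have h3 : ¬ Live R τ.2.2 := by
      rintro ⟨t, ht, u, v, hp⟩
      exact h2 ⟨t, ht, _, _, Path.cons (o := τ.2.1.1) (p := τ.2.1.2) hτ hp⟩
    simpa using h3
  · intro i hi τ hτ hτi
    rw [Finset.mem_toList, Set.Finite.mem_toFinset] at hi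
    obtain ⟨u, v, h1, h2, h3⟩ := hi
    by_cases h : Live R τ.2.2
    · right
      obtain ⟨s, m, s'⟩ := τ
      simp only at hτi h ⊢
      subst hτi
      obtain ⟨c', h4, h5⟩ := hs i.2 u v i.1 m s' h3 h1 hτ h
      refine ⟨c', h4, ?_⟩
      rw [Finset.mem_toList, Set.Finite.mem_toFinset]
      exact ⟨_, _, h1.snoc hτ, h, h5⟩
    · left
      rw [List.mem_filter]
      exact ⟨List.mem_cons_of_mem _ (List.mem_map.2 ⟨_, hτ, rfl⟩), by simpa using h⟩
  · intro i hi hacc
    rw [Finset.mem_toList, Set.Finite.mem_toFinset] at hi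
    obtain ⟨u, v, h1, _, h3⟩ := hi
    exact hf _ _ _ _ h3 h1 hacc

/-! ### The greedy follower -/

/-- stuck configurations -/
def Stuck (M : ASA) (c : ℕ × List ℕ × List ℕ) : Prop :=
  (c.1 ∈ M.2.2.1 ∧ c.2.1 = []) ∨ (c.1 ∉ M.2.2.1 ∧ c.2.2 = [])

theorem micro_stuck {M : ASA} {c : ℕ × List ℕ × List ℕ} (h : Stuck M c) : micro M c = some c := by
  obtain ⟨s, l, r⟩ := c
  unfold micro
  rcases h with ⟨h1, h2⟩ | ⟨h1, h2⟩
  · simp only at h1 h2
    subst h2
    simp [h1]
  · simp only at h1 h2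
    subst h2
    simp [h1]

theorem micro_left {M : ASA} {s a : ℕ} {l r : List ℕ} (h : s ∈ M.2.2.1) :
    micro M (s, a :: l, r) = (look M.2.2.2 s a).map fun s' => (s', l, r) := by
  simp [micro, h]

theorem micro_right {M : ASA} {s a : ℕ} {l r : List ℕ} (h : s ∉ M.2.2.1) :
    micro M (s, l, a :: r) = (look M.2.2.2 s a).map fun s' => (s', l, r) := by
  simp [micro, h]

/-- iterated micro steps -/
def iter (M : ASA) (k : ℕ) (c : ℕ × List ℕ × List ℕ) : Option (ℕ × List ℕ × List ℕ) :=
  (List.range k).foldl (fun o _ => o.bind (micro M)) (some c)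

theorem foldl_const_range {β : Type} (g : β → β) (k : ℕ) (b : β) :
    (List.range k).foldl (fun o _ => g o) b = g^[k] b := by
  induction k with
  | zero => rfl
  | succ k ih => rw [List.range_succ, List.foldl_append, ih, Function.iterate_succ_apply']; rfl

theorem iter_eq (M : ASA) (k : ℕ) (c : ℕ × List ℕ × List ℕ) :
    iter M k c = (fun o => Option.bind o (micro M))^[k] (some c) := foldl_const_range _ _ _

theorem iter_none (M : ASA) (k : ℕ) : (fun o => Option.bind o (micro M))^[k] none = none := by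
  induction k with
  | zero => rfl
  | succ k ih => rw [Function.iterate_succ_apply', ih]; rfl

theorem iter_stuck {M : ASA} {c : ℕ × List ℕ × List ℕ} (h : Stuck M c) (k : ℕ) :
    iter M k c = some c := by
  rw [iter_eq]
  induction k with
  | zero => rfl
  | succ k ih => rw [Function.iterate_succ_apply', ih]; exact micro_stuck h

theorem iter_succ (M : ASA) (k : ℕ) (c : ℕ × List ℕ × List ℕ) :
    iter M (k + 1) c = (micro M c).bind (iter M k) := by
  rw [iter_eq, Function.iterate_succ_apply]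
  change (fun o => Option.bind o (micro M))^[k] (micro M c) = _
  cases h : micro M c with
  | none => exact iter_none M k
  | some c' => exact (iter_eq M k c').symm

theorem follow_eq (M : ASA) (s : ℕ) (l r : List ℕ) :
    follow M s l r = iter M (l.length + r.length) (s, l, r) := rfl

theorem follow_stuck {M : ASA} {s : ℕ} {l r : List ℕ} (h : Stuck M (s, l, r)) :
    follow M s l r = some (s, l, r) := by
  rw [follow_eq, iter_stuck h]

theorem follow_left {M : ASA} {s a : ℕ} {l r : List ℕ} (h : s ∈ M.2.2.1) :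
    follow M s (a :: l) r = (look M.2.2.2 s a).bind fun s' => follow M s' l r := by
  rw [follow_eq]
  have e : (a :: l).length + r.length = (l.length + r.length) + 1 := by
    simp only [List.length_cons]; omega
  rw [e, iter_succ, micro_left h]
  cases look M.2.2.2 s a with
  | none => rfl
  | some s' => rfl

theorem follow_right {M : ASA} {s a : ℕ} {l r : List ℕ} (h : s ∉ M.2.2.1) :
    follow M s l (a :: r) = (look M.2.2.2 s a).bind fun s' => follow M s' l r := by
  rw [follow_eq]
  have e : l.length + (a :: r).length = (l.length + r.length) + 1 := by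
    simp only [List.length_cons]; omega
  rw [e, iter_succ, micro_right h]
  cases look M.2.2.2 s a with
  | none => rfl
  | some s' => rfl

theorem Rd.left_inv' {M : ASA} {s t a : ℕ} {l r : List ℕ} (hs : s ∈ M.2.2.1)
    (h : Rd M s (a :: l) r t) : ∃ s', look M.2.2.2 s a = some s' ∧ Rd M s' l r t := by
  cases h with
  | left h3 h4 h5 => exact ⟨_, h4, h5⟩
  | right h3 h4 h5 => exact absurd hs h3

theorem Rd.right_inv' {M : ASA} {s t a : ℕ} {l r : List ℕ} (hs : s ∉ M.2.2.1)
    (h : Rd M s l (a :: r) t) : ∃ s', look M.2.2.2 s a = some s' ∧ Rd M s' l r t := by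
  cases h with
  | left h3 h4 h5 => exact absurd h3 hs
  | right h3 h4 h5 => exact ⟨_, h4, h5⟩

/-- induction principle for `follow` -/
theorem follow_induct {M : ASA} {P : ℕ → List ℕ → List ℕ → Prop}
    (hst : ∀ s l r, Stuck M (s, l, r) → P s l r)
    (hl : ∀ s a l r, s ∈ M.2.2.1 → (∀ s', look M.2.2.2 s a = some s' → P s' l r) →
      P s (a :: l) r)
    (hr : ∀ s a l r, s ∉ M.2.2.1 → (∀ s', look M.2.2.2 s a = some s' → P s' l r) →
      P s l (a :: r)) : ∀ s l r, P s l r := by
  have key : ∀ k s l r, l.length + r.length = k → P s l r := by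
    intro k
    induction k with
    | zero =>
      intro s l r h
      have h1 : l = [] := List.length_eq_zero_iff.1 (by omega)
      have h2 : r = [] := List.length_eq_zero_iff.1 (by omega)
      subst h1 h2
      apply hst
      by_cases hs : s ∈ M.2.2.1
      · exact Or.inl ⟨hs, rfl⟩
      · exact Or.inr ⟨hs, rfl⟩
    | succ k ih =>
      intro s l r h
      by_cases hs : s ∈ M.2.2.1
      · cases l with
        | nil => exact hst _ _ _ (Or.inl ⟨hs, rfl⟩)
        | cons a l =>
          refine hl s a l r hs fun s' _ => ih s' l r ?_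
          simp only [List.length_cons] at h
          omega
      · cases r with
        | nil => exact hst _ _ _ (Or.inr ⟨hs, rfl⟩)
        | cons a r =>
          refine hr s a l r hs fun s' _ => ih s' l r ?_
          simp only [List.length_cons] at h
          omega
  exact fun s l r => key _ s l r rfl

theorem follow_append {M : ASA} {s : ℕ} {l r l' r' : List ℕ} {c : ℕ × List ℕ × List ℕ}
    (h : follow M s l r = some c) :
    follow M s (l ++ l') (r ++ r') = follow M c.1 (c.2.1 ++ l') (c.2.2 ++ r') := by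
  revert h
  refine follow_induct (M := M) (P := fun s l r => follow M s l r = some c →
    follow M s (l ++ l') (r ++ r') = follow M c.1 (c.2.1 ++ l') (c.2.2 ++ r')) ?_ ?_ ?_ s l r
  · intro s l r hst h
    rw [follow_stuck hst] at h
    cases h
    rfl
  · intro s a l r hs ih h
    rw [follow_left hs] at h
    rw [List.cons_append, follow_left hs]
    obtain ⟨s', h1, h2⟩ := Option.bind_eq_some_iff.1 h
    rw [h1]
    exact ih s' h1 h2
  · intro s a l r hs ih h
    rw [follow_right hs] at h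
    rw [List.cons_append, follow_right hs]
    obtain ⟨s', h1, h2⟩ := Option.bind_eq_some_iff.1 h
    rw [h1]
    exact ih s' h1 h2

/-- what `follow` returns: it is stuck, and it has read the missing prefixes -/
theorem follow_spec {M : ASA} {s : ℕ} {l r : List ℕ} {c : ℕ × List ℕ × List ℕ}
    (h : follow M s l r = some c) :
    (∃ l₁ r₁, l = l₁ ++ c.2.1 ∧ r = r₁ ++ c.2.2 ∧ Rd M s l₁ r₁ c.1) ∧
    ((c.1 ∈ M.2.2.1 ∧ c.2.1 = []) ∨ (c.1 ∉ M.2.2.1 ∧ c.2.2 = [])) := by
  revert h
  refine follow_induct (M := M) (P := fun s l r => follow M s l r = some c →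
    (∃ l₁ r₁, l = l₁ ++ c.2.1 ∧ r = r₁ ++ c.2.2 ∧ Rd M s l₁ r₁ c.1) ∧
    ((c.1 ∈ M.2.2.1 ∧ c.2.1 = []) ∨ (c.1 ∉ M.2.2.1 ∧ c.2.2 = []))) ?_ ?_ ?_ s l r
  · intro s l r hst h
    rw [follow_stuck hst] at h
    cases h
    exact ⟨⟨[], [], rfl, rfl, Rd.nil s⟩, hst⟩
  · intro s a l r hs ih h
    rw [follow_left hs] at h
    obtain ⟨s', h1, h2⟩ := Option.bind_eq_some_iff.1 h
    obtain ⟨⟨l₁, r₁, h3, h4, h5⟩, h6⟩ := ih s' h1 h2
    exact ⟨⟨a :: l₁, r₁, by rw [h3]; rfl, h4, Rd.left hs h1 h5⟩, h6⟩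
  · intro s a l r hs ih h
    rw [follow_right hs] at h
    obtain ⟨s', h1, h2⟩ := Option.bind_eq_some_iff.1 h
    obtain ⟨⟨l₁, r₁, h3, h4, h5⟩, h6⟩ := ih s' h1 h2
    exact ⟨⟨l₁, a :: r₁, h3, by rw [h4]; rfl, Rd.right hs h1 h5⟩, h6⟩

theorem follow_of_rd {M : ASA} {s t : ℕ} {l r l' r' : List ℕ}
    (h : Rd M s (l ++ l') (r ++ r') t) :
    ∃ c, follow M s l r = some c ∧ Rd M c.1 (c.2.1 ++ l') (c.2.2 ++ r') t := by
  revert h
  refine follow_induct (M := M) (P := fun s l r => Rd M s (l ++ l') (r ++ r') t →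
    ∃ c, follow M s l r = some c ∧ Rd M c.1 (c.2.1 ++ l') (c.2.2 ++ r') t) ?_ ?_ ?_ s l r
  · intro s l r hst h
    exact ⟨_, follow_stuck hst, h⟩
  · intro s a l r hs ih h
    obtain ⟨s', h4, h5⟩ := Rd.left_inv' hs h
    obtain ⟨c, h6, h7⟩ := ih s' h4 h5
    exact ⟨c, by rw [follow_left hs, h4]; exact h6, h7⟩
  · intro s a l r hs ih h
    obtain ⟨s', h4, h5⟩ := Rd.right_inv' hs h
    obtain ⟨c, h6, h7⟩ := ih s' h4 h5
    exact ⟨c, by rw [follow_right hs, h4]; exact h6, h7⟩

theorem follow_eq_iff {M : ASA} {s t : ℕ} {l r : List ℕ} :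
    follow M s l r = some (t, [], []) ↔ Rd M s l r t := by
  constructor
  · intro h
    obtain ⟨⟨l₁, r₁, h3, h4, h5⟩, _⟩ := follow_spec h
    simp only [List.append_nil] at h3 h4
    rw [h3, h4]
    exact h5
  · intro h
    obtain ⟨c, h1, h2⟩ := follow_of_rd (M := M) (s := s) (t := t) (l := l) (r := r) (l' := [])
      (r' := []) (by simpa using h)
    obtain ⟨_, h3⟩ := follow_spec h1
    simp only [List.append_nil] at h2
    obtain ⟨s', l', r'⟩ := c
    simp only at h2 h3
    rw [h1]
    rcases h3 with ⟨h3, rfl⟩ | ⟨h3, rfl⟩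
    · cases h2 with
      | nil s => rfl
      | right h4 _ _ => exact absurd h3 h4
    · cases h2 with
      | nil s => rfl
      | left h4 _ _ => exact absurd h4 h3

theorem IncC.sound {R : NA} {M : ASA} (h : IncC R M) {u v : List ℕ} (hu : NAcc R u v) :
    AAcc M u v := by
  obtain ⟨Z, I, hc⟩ := h
  have key : ∀ (c : ℕ × List ℕ × List ℕ) m (c' : ℕ × List ℕ × List ℕ) (u v : List ℕ),
      (∃ u₁ v₁, u = u₁ ++ c.2.1 ∧ v = v₁ ++ c.2.2 ∧ Rd M M.1 u₁ v₁ c.1) →
      incSt M c m = some c' →
      ∃ u₁ v₁, u ++ m.1.toList = u₁ ++ c'.2.1 ∧ v ++ m.2.toList = v₁ ++ c'.2.2 ∧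
        Rd M M.1 u₁ v₁ c'.1 := by
    rintro c m c' u v ⟨u₁, v₁, rfl, rfl, h3⟩ h4
    obtain ⟨⟨l₁, r₁, h5, h6, h7⟩, _⟩ := follow_spec h4
    refine ⟨u₁ ++ l₁, v₁ ++ r₁, ?_, ?_, h3.trans h7⟩
    · rw [List.append_assoc, h5, ← List.append_assoc]
    · rw [List.append_assoc, h6, ← List.append_assoc]
  obtain ⟨c, h1, h2⟩ := cert_sound (Inv := fun c u v => ∃ u₁ v₁, u = u₁ ++ c.2.1 ∧
    v = v₁ ++ c.2.2 ∧ Rd M M.1 u₁ v₁ c.1) ⟨[], [], rfl, rfl, Rd.nil _⟩ key hc hu
  subst h2
  obtain ⟨u₁, v₁, rfl, rfl, h3⟩ := h1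
  unfold AAcc
  simpa using h3

theorem IncC.complete {R : NA} {M : ASA} (h : ∀ u v, NAcc R u v → AAcc M u v)
    (hfin : {c | ∃ u v s, Path R.2.2 R.1 u v s ∧ Live R s ∧ follow M M.1 u v = some c}.Finite) :
    IncC R M := by
  refine cert_complete (Inv := fun c u v => follow M M.1 u v = some c) ?_ ?_ ?_ hfin
  · exact follow_eq_iff.2 (Rd.nil _)
  · rintro c u v s m s' hI hp hm ⟨t, ht, α, β, hq⟩
    have h1 : NAcc R (u ++ m.1.toList ++ α) (v ++ m.2.toList ++ β) := ⟨t, ht, (hp.snoc hm).trans hq⟩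
    obtain ⟨c', h2, _⟩ := follow_of_rd (h _ _ h1)
    refine ⟨c', ?_, h2⟩
    unfold incSt
    rw [← follow_append hI]
    exact h2
  · intro c u v s hI hp hs
    have h1 := follow_eq_iff.2 (h u v ⟨s, hs, hp⟩)
    rw [hI] at h1
    exact Option.some.inj h1

theorem IncF.sound {R : NA} {E : FSA} (h : IncF R E) {u v : List ℕ} (hu : NAcc R u v) :
    FAcc E u := by
  obtain ⟨Z, I, hc⟩ := h
  have key : ∀ (c : ℕ) m (c' : ℕ) (u v : List ℕ), run E E.1 u = some c →
      domSt E c m = some c' → run E E.1 (u ++ m.1.toList) = some c' := by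
    intro c m c' u v h3 h4
    rw [run_append_some h3]
    exact h4
  obtain ⟨c, h1, h2⟩ := cert_sound (Inv := fun c u _ => run E E.1 u = some c) rfl key hc hu
  exact ⟨c, h1, h2⟩

theorem IncF.complete {R : NA} {E : FSA} (h : ∀ u v, NAcc R u v → FAcc E u) : IncF R E := by
  refine cert_complete (Inv := fun c u _ => run E E.1 u = some c) rfl ?_ ?_ ?_
  · rintro c u v s m s' hI hp hm ⟨t, ht, α, β, hq⟩
    obtain ⟨q, h1, _⟩ := h _ _ ⟨t, ht, (hp.snoc hm).trans hq⟩
    obtain ⟨c', h2, _⟩ := run_append_eq_some h1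
    exact ⟨c', by rw [run_append_some hI] at h2; exact h2, h2⟩
  · intro c u v s hI hp hs
    obtain ⟨q, h1, h2⟩ := h _ _ ⟨s, hs, hp⟩
    rw [hI] at h1
    cases h1
    exact h2
  · refine Set.Finite.subset (List.finite_toSet (fstates E)) ?_
    rintro c ⟨u, v, s, _, _, hI⟩
    exact run_mem_states (start_mem_states E) hI

/-! ### Prefix emptiness -/

/-- the state of the follower `preSt` after reading `u` -/
def eatS (x : Option (List ℕ)) (u : List ℕ) : Option (List ℕ) :=
  u.foldl (fun x a => x.bind fun x => eat x (some a)) x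

theorem eatS_append (x : Option (List ℕ)) (u v : List ℕ) :
    eatS x (u ++ v) = eatS (eatS x u) v := by simp [eatS, List.foldl_append]

theorem eatS_toList (x : Option (List ℕ)) (o : Option ℕ) :
    eatS x o.toList = x.bind fun x => eat x o := by
  cases o with
  | none =>
    cases x with
    | none => rfl
    | some x => cases x <;> rfl
  | some a => rfl

theorem eatS_none (u : List ℕ) : eatS none u = none := by
  induction u with
  | nil => rfl
  | cons a u ih => simpa [eatS] using ih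

theorem eatS_nil (u : List ℕ) : eatS (some []) u = some [] := by
  induction u with
  | nil => rfl
  | cons a u ih => simpa [eatS, eat] using ih

theorem eatS_iff {x u : List ℕ} : eatS (some x) u = some [] ↔ x <+: u := by
  induction u generalizing x with
  | nil => simp [eatS]
  | cons a u ih =>
    cases x with
    | nil => simp [eatS_nil]
    | cons c x =>
      have e : eatS (some (c :: x)) (a :: u) = eatS (if c = a then some x else none) u := by
        simp [eatS, eat]
      rw [e]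
      split_ifs with h
      · subst h
        rw [ih, List.cons_prefix_cons]
        simp
      · rw [eatS_none, List.cons_prefix_cons]
        simp [h]

theorem eatS_suffix {x u y : List ℕ} (h : eatS (some x) u = some y) : y <:+ x := by
  induction u generalizing x with
  | nil => simp [eatS] at h; rw [h]
  | cons a u ih =>
    cases x with
    | nil => rw [eatS_nil] at h; simp at h; rw [h]
    | cons c x =>
      have e : eatS (some (c :: x)) (a :: u) = eatS (if c = a then some x else none) u := by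
        simp [eatS, eat]
      rw [e] at h
      split_ifs at h with hc
      · exact (ih h).trans (List.suffix_cons c x)
      · rw [eatS_none] at h; simp at h

/-- combined state -/
def eat2 (x y u v : List ℕ) : Option (List ℕ × List ℕ) :=
  (eatS (some x) u).bind fun a => (eatS (some y) v).map fun b => (a, b)

theorem eat2_iff {x y u v : List ℕ} : eat2 x y u v = some ([], []) ↔ x <+: u ∧ y <+: v := by
  unfold eat2
  rw [← eatS_iff, ← eatS_iff, Option.bind_eq_some_iff]
  constructor
  · rintro ⟨a, h1, h2⟩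
    obtain ⟨b, h3, h4⟩ := Option.map_eq_some_iff.1 h2
    cases h4
    exact ⟨h1, h3⟩
  · rintro ⟨h1, h2⟩
    exact ⟨[], h1, by rw [h2]; rfl⟩

theorem eat2_step {x y u v : List ℕ} {m : Option ℕ × Option ℕ} :
    preSt (eat2 x y u v) m = some (eat2 x y (u ++ m.1.toList) (v ++ m.2.toList)) := by
  unfold preSt eat2
  rw [eatS_append, eatS_append, eatS_toList, eatS_toList]
  congr 1
  cases eatS (some x) u with
  | none => rfl
  | some a =>
    cases eatS (some y) v with
    | none =>
      simp only [Option.bind_some, Option.map_none, Option.bind_none]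
      cases eat a m.1 <;> rfl
    | some b =>
      simp only [Option.bind_some, Option.map_some]

theorem EmptyP.sound {R : NA} {x y : List ℕ} (h : EmptyP R x y) (u v : List ℕ) :
    ¬ NAcc R (x ++ u) (y ++ v) := by
  intro hu
  obtain ⟨Z, I, hc⟩ := h
  have key : ∀ (c : Option (List ℕ × List ℕ)) m (c' : Option (List ℕ × List ℕ)) (u v : List ℕ),
      c = eat2 x y u v → preSt c m = some c' → c' = eat2 x y (u ++ m.1.toList) (v ++ m.2.toList) := by
    rintro c m c' u v rfl h4
    rw [eat2_step] at h4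
    exact (Option.some.inj h4).symm
  obtain ⟨c, h1, h2⟩ := cert_sound (Inv := fun c u v => c = eat2 x y u v) (by rfl) key hc hu
  apply h2
  rw [h1]
  exact eat2_iff.2 ⟨List.prefix_append _ _, List.prefix_append _ _⟩

theorem EmptyP.complete {R : NA} {x y : List ℕ} (h : ∀ u v, ¬ NAcc R (x ++ u) (y ++ v)) :
    EmptyP R x y := by
  refine cert_complete (Inv := fun c u v => c = eat2 x y u v) (by rfl) ?_ ?_ ?_
  · rintro c u v s m s' rfl hp hm _
    exact ⟨_, eat2_step, rfl⟩
  · rintro c u v s rfl hp hs hh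
    obtain ⟨⟨u', rfl⟩, ⟨v', rfl⟩⟩ := eat2_iff.1 hh
    exact h u' v' ⟨s, hs, hp⟩
  · have hf : ∀ x : List ℕ, {y : List ℕ | y <:+ x}.Finite := by
      intro x
      refine Set.Finite.subset (List.finite_toSet x.tails) ?_
      intro y hy
      exact (List.mem_tails y x).2 hy
    refine Set.Finite.subset
      (Set.Finite.insert none (((hf x).prod (hf y)).image some)) ?_
    rintro c ⟨u, v, s, _, _, rfl⟩
    cases hc : eat2 x y u v with
    | none => exact Set.mem_insert _ _
    | some c =>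
      refine Set.mem_insert_of_mem _ ⟨c, ?_, rfl⟩
      unfold eat2 at hc
      obtain ⟨a, h1, h2⟩ := Option.bind_eq_some_iff.1 hc
      obtain ⟨b, h3, h4⟩ := Option.map_eq_some_iff.1 h2
      subst h4
      exact ⟨eatS_suffix h1, eatS_suffix h3⟩

end Pool.Agent.H69.As
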