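import Pool.Agent.H69.As.Rels

set_option autoImplicit false

namespace Pool.Agent.H69.As

/-- A set of tapes with relations satisfying the cycle conditions. -/
structure CSys (n : ℕ) (L : List ℕ → Prop) (M : ℕ → List ℕ → List ℕ → Prop)
    (Rs : Set (SW × ℕ)) : Prop where
  totR : ∀ x ≤ n, ∀ c, L c → ∃ c', L c' ∧ M x c c'
  totL : ∀ x ≤ n, ∀ c', L c' → ∃ c, L c ∧ M x c c'
  r1 : (([(true, 0), (false, 0)], 0) : SW × ℕ) ∈ Rs
  r2 : ∀ x ≤ n, (([(true, x), (true, 0)], x) : SW × ℕ) ∈ Rs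
  r3 : ∀ x ≤ n, (([(false, x), (true, 0), (true, x)], 0) : SW × ℕ) ∈ Rs
  r4 : ∀ x ≤ n, (([(true, x), (true, 0), (false, x)], 0) : SW × ℕ) ∈ Rs
  cyc : ∀ r ∈ Rs, ∀ c c', L c → L c' → Chain L M r.1 c c' → M r.2 c c'

/-- inverse of a signed string -/
def invS (ys : SW) : SW := ys.reverse.map fun y => (!y.1, y.2)

@[simp] theorem invS_nil : invS [] = [] := rfl

theorem invS_cons (y : Bool × ℕ) (ys : SW) : invS (y :: ys) = invS ys ++ [(!y.1, y.2)] := by
  simp [invS]

theorem invS_pos (t : List ℕ) :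
    invS (t.map fun a => (true, a)) = t.reverse.map fun a => (false, a) := by
  simp [invS, List.map_reverse]

section
variable {L : List ℕ → Prop} {M : ℕ → List ℕ → List ℕ → Prop}

theorem Chain.mem {ys : SW} {c c' : List ℕ} (h : Chain L M ys c c') (hc : L c) : L c' := by
  induction h with
  | nil c => exact hc
  | cons h1 _ _ ih => exact ih h1

theorem Chain.append {ys zs : SW} {c c' c'' : List ℕ} (h : Chain L M ys c c')
    (h' : Chain L M zs c' c'') : Chain L M (ys ++ zs) c c'' := by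
  induction h with
  | nil c => exact h'
  | cons h1 h2 _ ih => exact Chain.cons h1 h2 (ih h')

theorem Chain.split {ys zs : SW} {c c'' : List ℕ} (h : Chain L M (ys ++ zs) c c'') :
    ∃ c', Chain L M ys c c' ∧ Chain L M zs c' c'' := by
  induction ys generalizing c with
  | nil => exact ⟨c, Chain.nil c, h⟩
  | cons y ys ih =>
    rw [List.cons_append] at h
    obtain ⟨b, x⟩ := y
    cases h with
    | @cons _ _ _ _ c₁ _ h1 h2 h3 =>
      obtain ⟨c', h4, h5⟩ := ih h3
      exact ⟨c', Chain.cons h1 h2 h4, h5⟩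

theorem Chain.one {b : Bool} {x : ℕ} {c c' : List ℕ} (h1 : L c')
    (h2 : if b then M x c c' else M x c' c) : Chain L M [(b, x)] c c' :=
  Chain.cons h1 h2 (Chain.nil c')

theorem Chain.one_inv {b : Bool} {x : ℕ} {c c' : List ℕ} (h : Chain L M [(b, x)] c c') :
    L c' ∧ if b then M x c c' else M x c' c := by
  cases h with
  | cons h1 h2 h3 =>
    cases h3
    exact ⟨h1, h2⟩

theorem Chain.inv {ys : SW} {c c' : List ℕ} (h : Chain L M ys c c') (hc : L c) :
    Chain L M (invS ys) c' c := by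
  induction h with
  | nil c => exact Chain.nil c
  | @cons b x ys c c' c'' h1 h2 _ ih =>
    rw [invS_cons]
    refine (ih h1).append (Chain.one hc ?_)
    cases b <;> simpa using h2
end

namespace CSys
variable {n : ℕ} {L : List ℕ → Prop} {M : ℕ → List ℕ → List ℕ → Prop} {Rs : Set (SW × ℕ)}

theorem refl (h : CSys n L M Rs) {c : List ℕ} (hc : L c) : M 0 c c := by
  obtain ⟨c', h1, h2⟩ := h.totR 0 (Nat.zero_le _) c hc
  exact h.cyc _ h.r1 c c hc hc (Chain.cons h1 (by simpa using h2) (Chain.one hc (by simpa using h2)))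

theorem symm (h : CSys n L M Rs) {c d : List ℕ} (hc : L c) (hd : L d) (hcd : M 0 c d) :
    M 0 d c :=
  h.cyc _ h.r1 d c hd hc (Chain.cons hd (by simpa using h.refl hd) (Chain.one hc (by simpa using hcd)))

theorem trans (h : CSys n L M Rs) {c d e : List ℕ} (hc : L c) (hd : L d) (he : L e)
    (hcd : M 0 c d) (hde : M 0 d e) : M 0 c e :=
  h.cyc _ h.r1 c e hc he (Chain.cons hd (by simpa using hcd)
    (Chain.one he (by simpa using h.symm hd he hde)))

theorem right (h : CSys n L M Rs) {x : ℕ} (hx : x ≤ n) {c d e : List ℕ} (hc : L c) (hd : L d)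
    (he : L e) (hcd : M x c d) (hde : M 0 d e) : M x c e :=
  h.cyc _ (h.r2 x hx) c e hc he (Chain.cons hd (by simpa using hcd)
    (Chain.one he (by simpa using hde)))

theorem fwd (h : CSys n L M Rs) {x : ℕ} (hx : x ≤ n) {c c' d d' : List ℕ} (hc : L c) (hc' : L c')
    (hd : L d) (hd' : L d') (h1 : M x c d) (h2 : M x c' d') (h3 : M 0 c c') : M 0 d d' :=
  h.cyc _ (h.r3 x hx) d d' hd hd' (Chain.cons hc (by simpa using h1)
    (Chain.cons hc' (by simpa using h3) (Chain.one hd' (by simpa using h2))))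

theorem bwd (h : CSys n L M Rs) {x : ℕ} (hx : x ≤ n) {c c' d d' : List ℕ} (hc : L c) (hc' : L c')
    (hd : L d) (hd' : L d') (h1 : M x c d) (h2 : M x c' d') (h3 : M 0 d d') : M 0 c c' :=
  h.cyc _ (h.r4 x hx) c c' hc hc' (Chain.cons hd (by simpa using h1)
    (Chain.cons hd' (by simpa using h3) (Chain.one hc' (by simpa using h2))))

theorem chain_exists (h : CSys n L M Rs) (ys : SW) (hys : ∀ y ∈ ys, y.2 ≤ n) {c : List ℕ}
    (hc : L c) : ∃ c', L c' ∧ Chain L M ys c c' := by
  induction ys generalizing c with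
  | nil => exact ⟨c, hc, Chain.nil c⟩
  | cons y ys ih =>
    obtain ⟨b, x⟩ := y
    have hx : x ≤ n := hys _ List.mem_cons_self
    have hys' : ∀ y ∈ ys, y.2 ≤ n := fun y hy => hys y (List.mem_cons_of_mem _ hy)
    cases b with
    | true =>
      obtain ⟨c₁, h1, h2⟩ := h.totR x hx c hc
      obtain ⟨c', h3, h4⟩ := ih hys' h1
      exact ⟨c', h3, Chain.cons h1 (by simpa using h2) h4⟩
    | false =>
      obtain ⟨c₁, h1, h2⟩ := h.totL x hx c hc
      obtain ⟨c', h3, h4⟩ := ih hys' h1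
      exact ⟨c', h3, Chain.cons h1 (by simpa using h2) h4⟩

theorem chain_congr (h : CSys n L M Rs) {ys : SW} (hys : ∀ y ∈ ys, y.2 ≤ n)
    {c c' d d' : List ℕ} (hc : L c) (hd : L d) (h1 : Chain L M ys c c') (h2 : Chain L M ys d d')
    (h3 : M 0 c d) : M 0 c' d' := by
  induction ys generalizing c d with
  | nil => cases h1; cases h2; exact h3
  | cons y ys ih =>
    obtain ⟨b, x⟩ := y
    have hx : x ≤ n := hys _ List.mem_cons_self
    have hys' : ∀ y ∈ ys, y.2 ≤ n := fun y hy => hys y (List.mem_cons_of_mem _ hy)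
    cases h1 with
    | @cons _ _ _ _ c₁ _ h4 h5 h6 =>
      cases h2 with
      | @cons _ _ _ _ d₁ _ h7 h8 h9 =>
        refine ih hys' h4 h7 h6 h9 ?_
        cases b with
        | true =>
          exact h.fwd hx hc hd h4 h7 (by simpa using h5) (by simpa using h8) h3
        | false =>
          exact h.bwd hx h4 h7 hc hd (by simpa using h5) (by simpa using h8) h3

/-- the base condition from completions of the states of a trim automaton -/
theorem base (h : CSys n L M Rs) {E₁ : FSA} (hE : ∀ t, L t ↔ FAcc E₁ t)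
    (hl : ∀ c, L c → ∀ a ∈ c, a ≤ n) {C : List (ℕ × List ℕ)} (h1 : ∃ c ∈ C, c.1 = E₁.1)
    (h2 : ∀ c ∈ C, c.1 ∈ E₁.2.1 → c.2 = []) (h3 : ∀ c ∈ C, ∃ q ∈ E₁.2.1, run E₁ c.1 c.2 = some q)
    (h4 : ∀ c ∈ C, ∀ m ∈ E₁.2.2, m.1.1 = c.1 → ∃ c' ∈ C, look E₁.2.2 m.1.1 m.1.2 = some c'.1 ∧
      ∀ p w, run E₁ E₁.1 p = some c.1 → L w →
        Chain L M (baseLab m.1.2 c.2 c'.2) (p ++ c.2) w → M 0 (p ++ m.1.2 :: c'.2) w) :
    ∃ b, L b ∧ ∀ u, L u → ∃ c, L c ∧ Chain L M (u.map fun a => (true, a)) b c ∧ M 0 c u := by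
  have memL : ∀ c ∈ C, ∀ p, run E₁ E₁.1 p = some c.1 → L (p ++ c.2) := by
    intro c hc p hp
    obtain ⟨q, hq, hr⟩ := h3 c hc
    exact (hE _).2 ⟨q, by rw [run_append_some hp]; exact hr, hq⟩
  have labP : ∀ t : List ℕ, (∀ a ∈ t, a ≤ n) → ∀ y ∈ (t.map fun a => ((true, a) : Bool × ℕ)),
      y.2 ≤ n := by
    intro t ht y hy
    obtain ⟨a, ha, rfl⟩ := List.mem_map.1 hy
    exact ht a ha
  have labN : ∀ t : List ℕ, (∀ a ∈ t, a ≤ n) →
      ∀ y ∈ (t.reverse.map fun a => ((false, a) : Bool × ℕ)), y.2 ≤ n := by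
    intro t ht y hy
    obtain ⟨a, ha, rfl⟩ := List.mem_map.1 hy
    exact ht a (List.mem_reverse.1 ha)
  obtain ⟨c₀, hc₀, hc₀s⟩ := h1
  have hL₀ : L ([] ++ c₀.2) := memL c₀ hc₀ [] (by rw [hc₀s]; rfl)
  rw [List.nil_append] at hL₀
  obtain ⟨b, hb, hcb⟩ := h.chain_exists _ (labN c₀.2 (hl _ hL₀)) hL₀
  have hbc : Chain L M (c₀.2.map fun a => (true, a)) b c₀.2 := by
    have := hcb.inv hL₀
    rw [← invS_pos] at this
    have e : invS (invS (c₀.2.map fun a => (true, a))) = c₀.2.map fun a => (true, a) := by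
      simp [invS, List.map_reverse]
    rwa [e] at this
  have key : ∀ (p : List ℕ) (e : ℕ), run E₁ E₁.1 p = some e → ∃ c ∈ C, c.1 = e ∧
      ∀ b' w, Chain L M (p.map fun a => (true, a)) b b' → Chain L M (c.2.map fun a => (true, a)) b' w →
        M 0 w (p ++ c.2) := by
    intro p
    induction p using List.reverseRecOn with
    | nil =>
      intro e he
      simp only [run_nil, Option.some.injEq] at he
      refine ⟨c₀, hc₀, by rw [hc₀s, he], ?_⟩
      intro b' w hb' hw
      rw [List.map_nil] at hb'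
      cases hb'
      rw [List.nil_append]
      exact h.chain_congr (labP _ (hl _ hL₀)) hb hb hw hbc (h.refl hb)
    | append_singleton p a ih =>
      intro e he
      obtain ⟨q, hq, hla⟩ := run_snoc.1 he
      obtain ⟨c, hc, hcq, hIH⟩ := ih q hq
      subst hcq
      obtain ⟨c', hc', hlc', hbase⟩ := h4 c hc _ (look_mem hla) rfl
      simp only at hlc' hbase
      rw [hla] at hlc'
      have hce : c'.1 = e := (Option.some.inj hlc').symm
      refine ⟨c', hc', hce, ?_⟩
      intro b'' w hb'' hw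
      rw [List.map_append] at hb''
      obtain ⟨b', hb', hb1⟩ := hb''.split
      have hLb' : L b' := hb'.mem hb
      have hLb'' : L b'' := hb1.mem hLb'
      have hLw : L w := hw.mem hLb''
      have hLp : L (p ++ c.2) := memL c hc p hq
      have hLp' : L (p ++ [a] ++ c'.2) := memL c' hc' (p ++ [a]) (by rw [he, hce])
      have hlab : ∀ x ∈ p ++ [a] ++ c'.2, x ≤ n := hl _ hLp'
      have hlab2 : ∀ x ∈ p ++ c.2, x ≤ n := hl _ hLp
      have l1 : ∀ x ∈ c.2, x ≤ n := fun x hx => hlab2 x (by simp [hx])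
      have l2 : ∀ x ∈ c'.2, x ≤ n := fun x hx => hlab x (by simp [hx])
      have l3 : a ≤ n := hlab a (by simp)
      obtain ⟨w₁, hLw₁, hw₁⟩ := h.chain_exists _ (labP c.2 l1) hLb'
      have h5 := hIH b' w₁ hb' hw₁
      have h6 : Chain L M (baseLab a c.2 c'.2) w₁ w := by
        unfold baseLab
        have h7 := hw₁.inv hLb'
        rw [invS_pos] at h7
        refine h7.append ?_
        have : ((true, a) : Bool × ℕ) :: (c'.2.map fun a => (true, a)) =
          [(true, a)] ++ c'.2.map fun a => (true, a) := rfl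
        rw [this]
        exact (by simpa using hb1 : Chain L M [(true, a)] b' b'').append hw
      have lb : ∀ y ∈ baseLab a c.2 c'.2, y.2 ≤ n := by
        intro y hy
        unfold baseLab at hy
        rcases List.mem_append.1 hy with hy | hy
        · exact labN _ l1 y hy
        · rcases List.mem_cons.1 hy with rfl | hy
          · exact l3
          · exact labP _ l2 y hy
      obtain ⟨w₂, hLw₂, hw₂⟩ := h.chain_exists _ lb hLp
      have h8 : M 0 w₂ w := h.chain_congr lb hLp hLw₁ hw₂ h6 (h.symm hLw₁ hLp h5)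
      have h9 := hbase p w₂ hq hLw₂ hw₂
      have hLp'' : L (p ++ a :: c'.2) := by simpa using hLp'
      have h10 := h.trans hLp'' hLw₂ hLw h9 h8
      have h11 := h.symm hLp'' hLw h10
      simpa using h11
  refine ⟨b, hb, fun u hu => ?_⟩
  obtain ⟨e, he, hacc⟩ := (hE u).1 hu
  obtain ⟨c, hc, hce, hk⟩ := key u e he
  obtain ⟨d, hd, hud⟩ := h.chain_exists _ (labP u (hl u hu)) hb
  refine ⟨d, hd, hud, ?_⟩
  have h5 := h2 c hc (hce ▸ hacc)
  have h6 := hk d d hud (by rw [h5]; exact Chain.nil d)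
  rw [h5, List.append_nil] at h6
  exact h6

end CSys

end Pool.Agent.H69.As
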