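import Pool.Agent.H69.As.Basic

/-! # A trim automaton from finitely many nonempty left quotients (module V3) -/

set_option autoImplicit false

namespace Pool.Agent.H69.As

/-- a trim automaton from finitely many nonempty left quotients -/
theorem exists_fsa (n : ℕ) (L : Set (List ℕ)) (hne : L.Nonempty) (hn : ∀ t ∈ L, ∀ a ∈ t, a ≤ n)
    (hfin : {Q : Set (List ℕ) | Q.Nonempty ∧ ∃ p, Q = {r | p ++ r ∈ L}}.Finite) :
    ∃ (E₁ : FSA) (C : List (ℕ × List ℕ)), (∀ t, FAcc E₁ t ↔ t ∈ L) ∧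
      (∃ c ∈ C, c.1 = E₁.1) ∧
      (∀ c ∈ C, ∃ q ∈ E₁.2.1, run E₁ c.1 c.2 = some q) ∧
      (∀ c ∈ C, c.1 ∈ E₁.2.1 → c.2 = []) ∧
      (∀ c ∈ C, ∀ a e', look E₁.2.2 c.1 a = some e' → ∃ c' ∈ C, c'.1 = e') := by
  classical
  set S : Set (Set (List ℕ)) := {Q : Set (List ℕ) | Q.Nonempty ∧ ∃ p, Q = {r | p ++ r ∈ L}} with hS
  obtain ⟨l, hml⟩ : ∃ l : List (Set (List ℕ)), ∀ Q, Q ∈ l ↔ Q ∈ S :=
    ⟨hfin.toFinset.toList, fun Q => by simp⟩
  obtain ⟨code, hcode⟩ : ∃ code : Set (List ℕ) → ℕ, Set.InjOn code S :=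
    Set.countable_iff_exists_injOn.1 hfin.countable
  -- quotients
  have hquot : ∀ Q ∈ S, ∀ t : List ℕ, {r | t ++ r ∈ Q}.Nonempty → {r | t ++ r ∈ Q} ∈ S := by
    rintro Q ⟨-, p, rfl⟩ t ht
    refine ⟨ht, p ++ t, ?_⟩
    ext r
    simp
  have hle : ∀ Q ∈ S, ∀ t ∈ Q, ∀ a ∈ t, a ≤ n := by
    rintro Q ⟨-, p, rfl⟩ t ht a ha
    exact hn _ ht a (List.mem_append_right _ ha)
  have hLS : L ∈ S := ⟨hne, [], by simp⟩
  let D : ℕ → Set (List ℕ) → Set (List ℕ) := fun a Q => {r | a :: r ∈ Q}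
  have hDS : ∀ Q ∈ S, ∀ a : ℕ, (D a Q).Nonempty → D a Q ∈ S := fun Q hQ a h => hquot Q hQ [a] h
  let T : Tab := l.flatMap fun Q => (List.range (n + 1)).flatMap fun a =>
     if (D a Q).Nonempty then [((code Q, a), code (D a Q))] else []
  have hT : ∀ q a e, ((q, a), e) ∈ T ↔
      ∃ Q ∈ S, a ≤ n ∧ (D a Q).Nonempty ∧ q = code Q ∧ e = code (D a Q) := by
    intro q a e
    simp only [T, List.mem_flatMap, List.mem_range, hml]
    constructor
    · rintro ⟨Q, hQ, b, hb, h⟩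
      split_ifs at h with h1
      · simp only [List.mem_singleton, Prod.mk.injEq] at h
        obtain ⟨⟨h2, h3⟩, h4⟩ := h
        subst h3
        exact ⟨Q, hQ, by omega, h1, h2, h4⟩
      · simp at h
    · rintro ⟨Q, hQ, ha, h1, h2, h3⟩
      refine ⟨Q, hQ, a, by omega, ?_⟩
      rw [if_pos h1, h2, h3]
      exact List.mem_singleton_self _
  have hlook : ∀ Q ∈ S, ∀ a e, look T (code Q) a = some e ↔
      (D a Q).Nonempty ∧ e = code (D a Q) := by
    intro Q hQ a e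
    constructor
    · intro h
      obtain ⟨Q', hQ', -, h1, h2, h3⟩ := (hT _ _ _).1 (look_mem h)
      rw [hcode hQ hQ' h2]
      exact ⟨h1, h3⟩
    · rintro ⟨h1, rfl⟩
      have ha : a ≤ n := by
        obtain ⟨r, hr⟩ := h1
        exact hle Q hQ (a :: r) hr a List.mem_cons_self
      obtain ⟨e', he'⟩ := look_of_mem ((hT (code Q) a (code (D a Q))).2 ⟨Q, hQ, ha, h1, rfl, rfl⟩)
      obtain ⟨Q', hQ', -, h1', h2', h3'⟩ := (hT _ _ _).1 (look_mem he')
      rw [he', h3', hcode hQ hQ' h2']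
  let acc : List ℕ := (l.filter fun Q => decide ([] ∈ Q)).map code
  have hacc : ∀ Q ∈ S, code Q ∈ acc ↔ [] ∈ Q := by
    intro Q hQ
    simp only [acc, List.mem_map, List.mem_filter, decide_eq_true_eq, hml]
    constructor
    · rintro ⟨Q', ⟨hQ', h1⟩, h2⟩
      rwa [← hcode hQ' hQ h2]
    · intro h
      exact ⟨Q, ⟨hQ, h⟩, rfl⟩
  let E₁ : FSA := (code L, acc, T)
  have hrun : ∀ t : List ℕ, ∀ Q ∈ S, ∀ q, run E₁ (code Q) t = some q ↔
      {r | t ++ r ∈ Q}.Nonempty ∧ q = code {r | t ++ r ∈ Q} := by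
    intro t
    induction t with
    | nil =>
      intro Q hQ q
      have h0 : {r | [] ++ r ∈ Q} = Q := by ext r; simp
      rw [h0, run_nil]
      constructor
      · intro h
        exact ⟨hQ.1, (Option.some.inj h).symm⟩
      · rintro ⟨-, rfl⟩
        rfl
    | cons a t ih =>
      intro Q hQ q
      rw [run_cons]
      constructor
      · intro h
        obtain ⟨e, he, h'⟩ := Option.bind_eq_some_iff.1 h
        obtain ⟨h1, rfl⟩ := (hlook Q hQ a e).1 he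
        exact (ih (D a Q) (hDS Q hQ a h1) q).1 h'
      · rintro ⟨h1, rfl⟩
        have h2 : (D a Q).Nonempty := by
          obtain ⟨r, hr⟩ := h1
          exact ⟨t ++ r, hr⟩
        refine Option.bind_eq_some_iff.2 ⟨code (D a Q), (hlook Q hQ a _).2 ⟨h2, rfl⟩, ?_⟩
        exact (ih (D a Q) (hDS Q hQ a h2) _).2 ⟨h1, rfl⟩
  let w : Set (List ℕ) → List ℕ := fun Q =>
    if [] ∈ Q then [] else if h : Q.Nonempty then h.some else []
  have hw : ∀ Q ∈ S, w Q ∈ Q := by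
    intro Q hQ
    simp only [w]
    split_ifs with h1 h2
    · exact h1
    · exact h2.some_mem
    · exact absurd hQ.1 h2
  refine ⟨E₁, l.map fun Q => (code Q, w Q), ?_, ?_, ?_, ?_, ?_⟩
  · intro t
    constructor
    · rintro ⟨q, hq, hq'⟩
      obtain ⟨h1, rfl⟩ := (hrun t L hLS q).1 hq
      have := (hacc _ (hquot L hLS t h1)).1 hq'
      simpa using this
    · intro ht
      have h1 : {r | t ++ r ∈ L}.Nonempty := ⟨[], by simpa using ht⟩
      refine ⟨code {r | t ++ r ∈ L}, (hrun t L hLS _).2 ⟨h1, rfl⟩, ?_⟩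
      exact (hacc _ (hquot L hLS t h1)).2 (by simpa using ht)
  · exact ⟨(code L, w L), List.mem_map.2 ⟨L, (hml L).2 hLS, rfl⟩, rfl⟩
  · intro c hc
    obtain ⟨Q, hQ, rfl⟩ := List.mem_map.1 hc
    rw [hml] at hQ
    have h1 : {r | w Q ++ r ∈ Q}.Nonempty := ⟨[], by simpa using hw Q hQ⟩
    refine ⟨code {r | w Q ++ r ∈ Q}, ?_, (hrun (w Q) Q hQ _).2 ⟨h1, rfl⟩⟩
    exact (hacc _ (hquot Q hQ (w Q) h1)).2 (by simpa using hw Q hQ)
  · intro c hc h
    obtain ⟨Q, hQ, rfl⟩ := List.mem_map.1 hc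
    rw [hml] at hQ
    have h1 := (hacc Q hQ).1 h
    simp only [w]
    rw [if_pos h1]
  · intro c hc a e' h
    obtain ⟨Q, hQ, rfl⟩ := List.mem_map.1 hc
    rw [hml] at hQ
    obtain ⟨h1, rfl⟩ := (hlook Q hQ a e').1 h
    exact ⟨(code (D a Q), w (D a Q)), List.mem_map.2 ⟨D a Q, (hml _).2 (hDS Q hQ a h1), rfl⟩, rfl⟩

end Pool.Agent.H69.As
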