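import Pool.Agent.H69.As.Basic

set_option autoImplicit false

namespace Pool.Agent.H69.As

theorem pt_look {n q a q' : ℕ} : look (PT n).2.2 q a = some q' ↔
    q = 1 ∧ ((a = 0 ∧ q' = 0) ∨ (1 ≤ a ∧ a ≤ n ∧ q' = 1)) := by
  constructor
  · intro h
    have h1 := look_mem h
    unfold PT at h1
    rcases List.mem_cons.1 h1 with h1 | h1
    · simp only [Prod.mk.injEq] at h1
      obtain ⟨⟨rfl, rfl⟩, rfl⟩ := h1
      exact ⟨rfl, Or.inl ⟨rfl, rfl⟩⟩
    · obtain ⟨i, hi, h1⟩ := List.mem_map.1 h1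
      rw [List.mem_range] at hi
      simp only [Prod.mk.injEq] at h1
      obtain ⟨⟨rfl, rfl⟩, rfl⟩ := h1
      exact ⟨rfl, Or.inr ⟨by omega, by omega, rfl⟩⟩
  · rintro ⟨rfl, h⟩
    have key : ∀ b, (((1, a), b) : (ℕ × ℕ) × ℕ) ∈ (PT n).2.2 →
        ∃ b', look (PT n).2.2 1 a = some b' ∧ (((1, a), b') : (ℕ × ℕ) × ℕ) ∈ (PT n).2.2 := by
      intro b hb
      obtain ⟨b', hb'⟩ := look_of_mem hb
      exact ⟨b', hb', look_mem hb'⟩
    rcases h with ⟨rfl, rfl⟩ | ⟨h1, h2, rfl⟩
    · obtain ⟨b', h1, h2⟩ := key 0 (by simp [PT])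
      have : b' = 0 := by
        simp only [PT, List.mem_cons, List.mem_map, List.mem_range, Prod.mk.injEq] at h2
        rcases h2 with ⟨_, h2⟩ | ⟨i, _, ⟨_, h3⟩, _⟩
        · exact h2
        · omega
      rw [this] at h1
      exact h1
    · obtain ⟨b', h3, h4⟩ := key 1 (by
        simp only [PT, List.mem_cons, List.mem_map, List.mem_range, Prod.mk.injEq]
        exact Or.inr ⟨a - 1, by omega, ⟨trivial, by omega⟩, trivial⟩)
      have : b' = 1 := by
        simp only [PT, List.mem_cons, List.mem_map, List.mem_range, Prod.mk.injEq] at h4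
        rcases h4 with ⟨⟨_, h4⟩, _⟩ | ⟨i, _, ⟨_, _⟩, h5⟩
        · omega
        · exact h5.symm
      rw [this] at h3
      exact h3

theorem pt_run_zero {n : ℕ} {t : List ℕ} {q : ℕ} (h : run (PT n) 0 t = some q) : t = [] := by
  cases t with
  | nil => rfl
  | cons a t =>
    rw [run_cons] at h
    obtain ⟨q', h1, _⟩ := Option.bind_eq_some_iff.1 h
    have := (pt_look.1 h1).1
    omega

theorem pt_run {n : ℕ} {t : List ℕ} : run (PT n) 1 t = some 0 ↔ Prp n t := by
  constructor
  · intro h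
    induction t with
    | nil => simp at h
    | cons a t ih =>
      rw [run_cons] at h
      obtain ⟨q', h1, h2⟩ := Option.bind_eq_some_iff.1 h
      rcases (pt_look.1 h1).2 with ⟨rfl, rfl⟩ | ⟨h3, h4, rfl⟩
      · have := pt_run_zero h2
        subst this
        exact ⟨[], by simp, rfl⟩
      · obtain ⟨w, hw, rfl⟩ := ih h2
        refine ⟨a :: w, ?_, rfl⟩
        intro b hb
        rcases List.mem_cons.1 hb with rfl | hb
        · exact ⟨h3, h4⟩
        · exact hw b hb
  · rintro ⟨w, hw, rfl⟩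
    induction w with
    | nil =>
      rw [List.nil_append, run_cons, pt_look.2 ⟨rfl, Or.inl ⟨rfl, rfl⟩⟩]
      rfl
    | cons a w ih =>
      rw [List.cons_append, run_cons,
        pt_look.2 ⟨rfl, Or.inr ⟨(hw a List.mem_cons_self).1, (hw a List.mem_cons_self).2, rfl⟩⟩]
      exact ih fun b hb => hw b (List.mem_cons_of_mem _ hb)

theorem pt_acc {n : ℕ} {t : List ℕ} : FAcc (PT n) t ↔ Prp n t := by
  rw [← pt_run]
  unfold FAcc
  constructor
  · rintro ⟨q, h1, h2⟩
    have : q = 0 := by simpa [PT] using h2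
    rw [this] at h1
    exact h1
  · intro h
    exact ⟨0, h, by simp [PT]⟩

/-- no continuation after the end-of-string symbol -/
theorem prp_ext {n : ℕ} {t s : List ℕ} (h : Prp n t) (h' : Prp n (t ++ s)) : s = [] := by
  rw [← pt_run] at h h'
  rw [run_append_some h] at h'
  exact pt_run_zero h'

end Pool.Agent.H69.As
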