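import Pool.Agent.H69.As.Basic

set_option autoImplicit false

namespace Pool.Agent.H69.As

section V
variable {n : ℕ} {E : FSA} {D : ℕ → ASA} {G : Type} [Group G] {val : ℕ → G}

/-- the states of a two-tape automaton -/
def asts (M : ASA) : List ℕ := M.1 :: M.2.2.2.map fun e => e.2

theorem Rd.mem_asts {M : ASA} {s t : ℕ} {l r : List ℕ} (h : Rd M s l r t) (hs : s ∈ asts M) :
    t ∈ asts M := by
  induction h with
  | nil s => exact hs
  | left h1 h2 _ ih =>
    exact ih (List.mem_cons_of_mem _ (List.mem_map.2 ⟨_, look_mem h2, rfl⟩))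
  | right h1 h2 _ ih =>
    exact ih (List.mem_cons_of_mem _ (List.mem_map.2 ⟨_, look_mem h2, rfl⟩))

theorem vs_append0 (s t : List ℕ) : vs val (s ++ t) = vs val s * vs val t := by
  simp [vs]

/-- departure lemma -/
theorem departure (hv : Valid n E D val) (F : Set G) (hF : F.Finite) :
    ∃ N : ℕ, ∀ p y r : List ℕ, FAcc E (p ++ y ++ r) → vs val y ∈ F → N ≤ y.length →
      ∃ y₁ y₂ y₃, y = y₁ ++ y₂ ++ y₃ ∧ y₂ ≠ [] ∧
        run E E.1 (p ++ y₁) = run E E.1 (p ++ y₁ ++ y₂) ∧ vs val y₂ = 1 := by
  classical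
  -- fixed access and exit strings
  have hP : ∀ q : ℕ, ∃ p : List ℕ, (∃ p', run E E.1 p' = some q) → run E E.1 p = some q := by
    intro q
    by_cases h : ∃ p', run E E.1 p' = some q
    · obtain ⟨p, hp⟩ := h; exact ⟨p, fun _ => hp⟩
    · exact ⟨[], fun h' => absurd h' h⟩
  choose P hP using hP
  have hQ : ∀ q : ℕ, ∃ r : List ℕ, (∃ r', ∃ a ∈ E.2.1, run E q r' = some a) →
      ∃ a ∈ E.2.1, run E q r = some a := by
    intro q
    by_cases h : ∃ r', ∃ a ∈ E.2.1, run E q r' = some a
    · obtain ⟨r, hr⟩ := h; exact ⟨r, fun _ => hr⟩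
    · exact ⟨[], fun h' => absurd h' h⟩
  choose Q hQ using hQ
  choose w hwE hwv using hv.onto
  -- the finite set of values
  set S : Set ℕ := {q | q ∈ fstates E} with hS
  have hSfin : S.Finite := (fstates E).finite_toSet
  set H : Set G := (fun x : ℕ × G × ℕ => vs val (P x.1) * x.2.1 * vs val (Q x.2.2)) ''
    (S ×ˢ F ×ˢ S) with hH
  have hHfin : H.Finite := (hSfin.prod (hF.prod hSfin)).image _
  obtain ⟨B, hB⟩ : ∃ B : ℕ, ∀ g ∈ H, (w g).length ≤ B := by
    obtain ⟨B, hB⟩ := (hHfin.image (fun g => (w g).length)).bddAbove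
    exact ⟨B, fun g hg => hB ⟨g, hg, rfl⟩⟩
  refine ⟨(asts (D 0)).toFinset.card * ((B + 1) * (fstates E).toFinset.card), ?_⟩
  intro p y r hacc hy hlen
  -- states
  obtain ⟨qa, hqa, hqaA⟩ := hacc
  rw [List.append_assoc] at hqa
  obtain ⟨q, hq, hq1⟩ := run_append_eq_some hqa
  obtain ⟨q', hq', hq2⟩ := run_append_eq_some hq1
  have hqS : q ∈ S := run_mem_states (start_mem_states E) hq
  have hq'S : q' ∈ S := run_mem_states hqS hq'
  have hPq := hP q ⟨p, hq⟩
  obtain ⟨a', ha', hQq⟩ := hQ q' ⟨r, qa, hqaA, hq2⟩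
  -- the comparison word
  set g : G := vs val (P q) * vs val y * vs val (Q q') with hg
  have hgH : g ∈ H := ⟨(q, vs val y, q'), ⟨hqS, hy, hq'S⟩, rfl⟩
  have hval : vs val (P q ++ (y ++ Q q')) = g := by
    rw [vs_append0, vs_append0, hg, mul_assoc]
  have hfac : FAcc E (P q ++ (y ++ Q q')) := by
    refine ⟨a', ?_, ha'⟩
    rw [run_append_some hPq, run_append_some hq', hQq]
  have hacc0 : AAcc (D 0) (P q ++ (y ++ Q q')) (w g) := by
    rw [hv.mul 0 (Nat.zero_le n) _ _ (hv.prp _ hfac) (hv.prp _ (hwE g))]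
    refine ⟨hfac, hwE g, ?_⟩
    rw [hv.zero, mul_one, hval, hwv]
  -- splitting data for every prefix of `y`
  have hsplit : ∀ i : ℕ, ∃ (s' : ℕ) (r₁ r₂ : List ℕ) (e : ℕ), w g = r₁ ++ r₂ ∧
      Rd (D 0) (D 0).1 (P q ++ y.take i) r₁ s' ∧
      Rd (D 0) s' (y.drop i ++ Q q') r₂ (D 0).2.1 ∧ run E q (y.take i) = some e := by
    intro i
    have h1 : P q ++ (y ++ Q q') = (P q ++ y.take i) ++ (y.drop i ++ Q q') := by
      rw [List.append_assoc, ← List.append_assoc (y.take i), List.take_append_drop]
    have h2 := hacc0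
    unfold AAcc at h2
    rw [h1] at h2
    obtain ⟨r₁, r₂, s', h3, h4, h5⟩ := h2.split_left
    have h6 : run E q (y.take i ++ y.drop i) = some q' := by rw [List.take_append_drop]; exact hq'
    obtain ⟨e, h7, -⟩ := run_append_eq_some h6
    exact ⟨s', r₁, r₂, e, h3, h4, h5, h7⟩
  choose s' r₁ r₂ e h3 h4 h5 h6 using hsplit
  -- pigeonhole
  obtain ⟨i, hi, j, hj, hij, heq⟩ :=
    Finset.exists_ne_map_eq_of_card_lt_of_maps_to
      (s := Finset.range (y.length + 1))
      (t := (asts (D 0)).toFinset ×ˢ (Finset.range (B + 1) ×ˢ (fstates E).toFinset))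
      (f := fun i => (s' i, ((r₁ i).length, e i)))
      (by
        rw [Finset.card_product, Finset.card_product, Finset.card_range, Finset.card_range]
        omega)
      (by
        intro i _
        simp only [Finset.coe_product, Set.mem_prod, Finset.mem_coe, List.mem_toFinset,
          Finset.mem_range]
        refine ⟨(h4 i).mem_asts (List.mem_cons_self), ?_, run_mem_states hqS (h6 i)⟩
        have h7 := hB g hgH
        have h8 := congrArg List.length (h3 i)
        rw [List.length_append] at h8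
        omega)
  simp only [Prod.mk.injEq] at heq
  -- reduce to `i < j`
  have key : ∀ i j : ℕ, i < j → j ≤ y.length → s' i = s' j → (r₁ i).length = (r₁ j).length →
      e i = e j → ∃ y₁ y₂ y₃, y = y₁ ++ y₂ ++ y₃ ∧ y₂ ≠ [] ∧
        run E E.1 (p ++ y₁) = run E E.1 (p ++ y₁ ++ y₂) ∧ vs val y₂ = 1 := by
    intro i j hlt hjl hs hr he
    have hr1 : r₁ i = r₁ j := by
      have h7 := h3 i
      rw [h3 j] at h7
      exact (List.append_inj_left h7 hr.symm).symm
    have hyj : y.take j = y.take i ++ (y.take j).drop i := by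
      conv_lhs => rw [← List.take_append_drop i (y.take j)]
      rw [List.take_take, min_eq_left hlt.le]
    refine ⟨y.take i, (y.take j).drop i, y.drop j, ?_, ?_, ?_, ?_⟩
    · rw [← hyj, List.take_append_drop]
    · intro h
      have h7 := congrArg List.length h
      rw [List.length_drop, List.length_take, min_eq_left hjl, List.length_nil] at h7
      omega
    · rw [List.append_assoc, ← hyj, run_append_some hq, run_append_some hq, h6 i, h6 j, he]
    · -- value
      have h7 : Rd (D 0) (D 0).1 ((P q ++ y.take i) ++ (y.drop j ++ Q q')) (r₁ i ++ r₂ j)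
          (D 0).2.1 := (h4 i).trans (hs ▸ h5 j)
      have h8 : r₁ i ++ r₂ j = w g := by rw [hr1]; exact (h3 j).symm
      rw [h8] at h7
      have h9 : FAcc E ((P q ++ y.take i) ++ (y.drop j ++ Q q')) := by
        refine ⟨a', ?_, ha'⟩
        have h10 : run E E.1 (P q ++ y.take i) = some (e i) := by
          rw [run_append_some hPq]; exact h6 i
        have h11 : run E (e j) (y.drop j) = some q' := by
          have h12 : run E q (y.take j ++ y.drop j) = some q' := by
            rw [List.take_append_drop]; exact hq'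
          rwa [run_append_some (h6 j)] at h12
        rw [run_append_some h10, he, run_append_some h11, hQq]
      have h13 := (hv.mul 0 (Nat.zero_le n) _ _ (hv.prp _ h9) (hv.prp _ (hwE g))).1 h7
      have h14 := h13.2.2
      rw [hv.zero, mul_one, hwv, ← hval] at h14
      have h15 : P q ++ (y ++ Q q') = P q ++ (y.take i ++ ((y.take j).drop i ++ (y.drop j ++ Q q')))
          := by
        conv_lhs => rw [← List.take_append_drop j y, hyj]
        simp only [List.append_assoc]
      rw [h15] at h14
      simp only [vs_append0, mul_assoc] at h14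
      have h16 := mul_left_cancel (mul_left_cancel h14)
      have h17 : (1 : G) * (vs val (y.drop j) * vs val (Q q')) =
          vs val ((y.take j).drop i) * (vs val (y.drop j) * vs val (Q q')) := by
        rw [one_mul]; exact h16
      exact (mul_right_cancel h17).symm
  rw [Finset.mem_range] at hi hj
  rcases lt_or_gt_of_ne hij with hlt | hlt
  · exact key i j hlt (by omega) heq.1 heq.2.1 heq.2.2
  · exact key j i hlt (by omega) heq.1.symm heq.2.1.symm heq.2.2.symm

end V

end Pool.Agent.H69.As
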