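import Pool.Agent.H69.As.Basic

set_option autoImplicit false

namespace Pool.Agent.H69.As

variable {n : ℕ} {E : FSA} {D : ℕ → ASA} {G : Type} [Group G] {val : ℕ → G}

/-- strings without null loops -/
def Red (E : FSA) (val : ℕ → G) (t : List ℕ) : Prop :=
  ∀ p y r, t = p ++ y ++ r → y ≠ [] → run E E.1 p = run E E.1 (p ++ y) → vs val y ≠ 1

theorem vs_append' (val : ℕ → G) (s t : List ℕ) : vs val (s ++ t) = vs val s * vs val t := by
  simp [vs]

theorem vs_singleton (val : ℕ → G) (a : ℕ) : vs val [a] = val a := by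
  simp [vs]

/-- cutting out a loop -/
theorem facc_cut {p y r : List ℕ} (h : FAcc E (p ++ y ++ r))
    (hl : run E E.1 p = run E E.1 (p ++ y)) : FAcc E (p ++ r) := by
  obtain ⟨q, h1, h2⟩ := h
  refine ⟨q, ?_, h2⟩
  rw [run_append, hl, ← run_append]
  exact h1

theorem exists_red {t : List ℕ} (ht : FAcc E t) :
    ∃ t₁, FAcc E t₁ ∧ Red E val t₁ ∧ vs val t₁ = vs val t := by
  have key : ∀ (k : ℕ) (t : List ℕ), t.length = k → FAcc E t →
      ∃ t₁, FAcc E t₁ ∧ Red E val t₁ ∧ vs val t₁ = vs val t := by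
    intro k
    induction k using Nat.strong_induction_on with
    | _ k ih =>
      intro t hk ht
      by_cases hr : Red E val t
      · exact ⟨t, ht, hr, rfl⟩
      · unfold Red at hr
        push Not at hr
        obtain ⟨p, y, r, rfl, hy, hl, hv⟩ := hr
        have hlen : (p ++ r).length < k := by
          have : 0 < y.length := List.length_pos_iff.mpr hy
          rw [← hk]
          simp only [List.length_append]
          omega
        obtain ⟨t₁, h1, h2, h3⟩ := ih _ hlen (p ++ r) rfl (facc_cut ht hl)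
        refine ⟨t₁, h1, h2, ?_⟩
        rw [h3, vs_append', vs_append', vs_append', hv, mul_one]
  exact key _ t rfl ht

/-- the conclusion of the departure lemma -/
def Departs (E : FSA) (val : ℕ → G) : Prop :=
  ∀ F : Set G, F.Finite → ∃ N : ℕ, ∀ p y r : List ℕ, FAcc E (p ++ y ++ r) → vs val y ∈ F →
    N ≤ y.length → ∃ y₁ y₂ y₃, y = y₁ ++ y₂ ++ y₃ ∧ y₂ ≠ [] ∧
      run E E.1 (p ++ y₁) = run E E.1 (p ++ y₁ ++ y₂) ∧ vs val y₂ = 1

/-- null loops of bounded length suffice -/
theorem exists_short_loop (hd : Departs E val) (hprp : ∀ t, FAcc E t → ∀ a ∈ t, a ≤ n) :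
    ∃ N : ℕ, ∀ p y r : List ℕ, FAcc E (p ++ y ++ r) → y ≠ [] →
      run E E.1 p = run E E.1 (p ++ y) → vs val y = 1 →
      ∃ p' y' r', p ++ y ++ r = p' ++ y' ++ r' ∧ y' ≠ [] ∧
        run E E.1 p' = run E E.1 (p' ++ y') ∧ vs val y' = 1 ∧ y'.length ≤ N := by
  have hF : ((fun a : ℕ => (val a)⁻¹) '' {a | a ≤ n}).Finite :=
    Set.Finite.image _ (Set.finite_Iic n)
  obtain ⟨N, hN⟩ := hd _ hF
  refine ⟨N, ?_⟩
  have key : ∀ (k : ℕ) (p y r : List ℕ), y.length = k → FAcc E (p ++ y ++ r) → y ≠ [] →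
      run E E.1 p = run E E.1 (p ++ y) → vs val y = 1 →
      ∃ p' y' r', p ++ y ++ r = p' ++ y' ++ r' ∧ y' ≠ [] ∧
        run E E.1 p' = run E E.1 (p' ++ y') ∧ vs val y' = 1 ∧ y'.length ≤ N := by
    intro k
    induction k using Nat.strong_induction_on with
    | _ k ih =>
      intro p y r hk ht hy hl hv
      by_cases hyN : y.length ≤ N
      · exact ⟨p, y, r, rfl, hy, hl, hv, hyN⟩
      · obtain ⟨y', a, rfl⟩ : ∃ y' a, y = y' ++ [a] :=
          ⟨y.dropLast, y.getLast hy, (List.dropLast_append_getLast hy).symm⟩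
        have hlen : (y' ++ [a]).length = y'.length + 1 := by simp
        have ha : a ≤ n := hprp _ ht a (by simp)
        have hv' : vs val y' = (val a)⁻¹ := by
          rw [vs_append', vs_singleton] at hv
          exact eq_inv_of_mul_eq_one_left hv
        have e : p ++ (y' ++ [a]) ++ r = p ++ y' ++ ([a] ++ r) := by simp
        obtain ⟨y₁, y₂, y₃, h1, h2, h3, h4⟩ := hN p y' ([a] ++ r) (by rw [← e]; exact ht)
          ⟨a, ha, hv'.symm⟩ (by omega)
        have e2 : p ++ (y' ++ [a]) ++ r = (p ++ y₁) ++ y₂ ++ (y₃ ++ [a] ++ r) := by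
          rw [h1]; simp
        have hlt : y₂.length < k := by
          have h5 : y'.length = y₁.length + (y₂.length + y₃.length) := by
            rw [h1]; simp
          omega
        obtain ⟨p', z, r', h6, h7, h8, h9, h10⟩ := ih _ hlt (p ++ y₁) y₂ (y₃ ++ [a] ++ r) rfl
          (by rw [← e2]; exact ht) h2 h3 h4
        exact ⟨p', z, r', by rw [e2, h6], h7, h8, h9, h10⟩
  intro p y r ht hy hl hv
  exact key _ p y r rfl ht hy hl hv

theorem finite_lists (n N : ℕ) : {w : List ℕ | w.length ≤ N ∧ ∀ a ∈ w, a ≤ n}.Finite := by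
  refine Set.Finite.subset ((List.finite_length_le (Fin (n + 1)) N).image
    (fun l => l.map Fin.val)) ?_
  rintro w ⟨h1, h2⟩
  refine ⟨w.pmap (fun a ha => (⟨a, ha⟩ : Fin (n + 1)))
    (fun a ha => Nat.lt_succ_of_le (h2 a ha)), ?_, ?_⟩
  · simpa using h1
  · simp [List.map_pmap]

theorem finite_quotients_of (hd : Departs E val) (hprp : ∀ t, FAcc E t → ∀ a ∈ t, a ≤ n) :
    {Q : Set (List ℕ) | Q.Nonempty ∧
      ∃ p, Q = {r | FAcc E (p ++ r) ∧ Red E val (p ++ r)}}.Finite := by
  obtain ⟨N, hN⟩ := exists_short_loop hd hprp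
  set Φ : ℕ × List ℕ → Set (List ℕ) := fun c =>
    {r | (∃ q, run E c.1 (c.2 ++ r) = some q ∧ q ∈ E.2.1) ∧
      ∀ p' y r', c.2 ++ r = p' ++ y ++ r' → y ≠ [] → y.length ≤ N →
        run E c.1 p' = run E c.1 (p' ++ y) → vs val y ≠ 1} with hΦ
  refine Set.Finite.subset (((List.finite_toSet (fstates E)).prod (finite_lists n N)).image Φ) ?_
  rintro Q ⟨⟨r₀, hr₀⟩, p, rfl⟩
  obtain ⟨hacc₀, hred₀⟩ := hr₀
  -- split `p`
  obtain ⟨p₀, w, hp, hw, hor⟩ : ∃ p₀ w, p = p₀ ++ w ∧ w.length ≤ N ∧ (p₀ = [] ∨ w.length = N) := by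
    by_cases h : p.length ≤ N
    · exact ⟨[], p, rfl, h, Or.inl rfl⟩
    · refine ⟨p.take (p.length - N), p.drop (p.length - N), (List.take_append_drop _ _).symm,
        ?_, Or.inr ?_⟩ <;> simp <;> omega
  obtain ⟨qf, hqf, hqf'⟩ := hacc₀
  obtain ⟨q₀, hq₀, _⟩ : ∃ q₀, run E E.1 p₀ = some q₀ ∧ run E q₀ (w ++ r₀) = some qf := by
    apply run_append_eq_some
    rw [← List.append_assoc, ← hp]
    exact hqf
  refine ⟨(q₀, w), ⟨?_, hw, ?_⟩, ?_⟩
  · exact run_mem_states (start_mem_states E) hq₀
  · intro a ha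
    exact hprp _ ⟨qf, hqf, hqf'⟩ a (by rw [hp]; simp [ha])
  · symm
    ext r
    simp only [hΦ, Set.mem_ofPred_eq]
    have hrun : ∀ s, run E E.1 (p₀ ++ s) = run E q₀ s := fun s => run_append_some hq₀ s
    have e1 : p ++ r = p₀ ++ (w ++ r) := by rw [hp, List.append_assoc]
    constructor
    · rintro ⟨h1, h2⟩
      refine ⟨?_, ?_⟩
      · obtain ⟨q, h3, h4⟩ := h1
        exact ⟨q, by rw [← hrun, ← e1]; exact h3, h4⟩
      · intro p' y r' he hy _ hl
        refine h2 (p₀ ++ p') y r' ?_ hy ?_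
        · rw [e1, he]; simp
        · rw [hrun, List.append_assoc, hrun]
          exact hl
    · rintro ⟨h1, h2⟩
      have hfacc : FAcc E (p ++ r) := by
        obtain ⟨q, h3, h4⟩ := h1
        exact ⟨q, by rw [e1, hrun]; exact h3, h4⟩
      refine ⟨hfacc, ?_⟩
      intro pa y ra he hy hl hv
      have hfacc' := hfacc
      rw [he] at hfacc'
      obtain ⟨p', y', r', h5, h6, h7, h8, h9⟩ := hN _ _ _ hfacc' hy hl hv
      rw [← he] at h5
      by_cases hlen : p₀.length ≤ p'.length
      · -- the loop starts behind `p₀`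
        have hpre : p₀ <+: p' := by
          apply List.prefix_of_prefix_length_le (l₃ := p ++ r) ?_ ?_ hlen
          · rw [e1]; exact List.prefix_append _ _
          · rw [h5, List.append_assoc]; exact List.prefix_append _ _
        obtain ⟨p'', rfl⟩ := hpre
        refine h2 p'' y' r' ?_ h6 h9 ?_ h8
        · rw [e1] at h5
          have : p₀ ++ (w ++ r) = p₀ ++ (p'' ++ y' ++ r') := by rw [h5]; simp
          exact List.append_cancel_left this
        · rw [← hrun, ← hrun, ← List.append_assoc]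
          exact h7
      · -- the loop is inside `p`
        push Not at hlen
        have hwN : w.length = N := by
          rcases hor with h | h
          · rw [h] at hlen; simp at hlen
          · exact h
        have hin : (p' ++ y') <+: p := by
          apply List.prefix_of_prefix_length_le (l₃ := p ++ r) ?_ ?_ ?_
          · rw [h5]; exact List.prefix_append _ _
          · exact List.prefix_append _ _
          · rw [hp]
            simp only [List.length_append]
            omega
        obtain ⟨s, hs⟩ := hin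
        exact hred₀ p' y' (s ++ r₀) (by rw [← hs]; simp) h6 h7 h8

/-- version with the departure lemma as a hypothesis: use `hd := departure hv` -/
theorem finite_quotients' (hv : Valid n E D val) (hd : Departs E val) :
    {Q : Set (List ℕ) | Q.Nonempty ∧
      ∃ p, Q = {r | FAcc E (p ++ r) ∧ Red E val (p ++ r)}}.Finite := by
  refine finite_quotients_of (n := n) hd fun t ht a ha => ?_
  obtain ⟨w, hw, rfl⟩ := hv.prp t ht
  rcases List.mem_append.1 ha with h | h
  · exact (hw a h).2
  · rw [List.mem_singleton.1 h]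
    exact Nat.zero_le n

end Pool.Agent.H69.As
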