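import Pool.Agent.H69.As.Certs
import Pool.Agent.H69.As.Quot
import Pool.Agent.H69.As.Dep

set_option autoImplicit false

namespace Pool.Agent.H69.As

section V
variable {n : ℕ} {E : FSA} {D : ℕ → ASA} {G : Type} [Group G] {val : ℕ → G}

/-- admissible continuations of a tape prefix: `a = true` says that the tape is complete -/
def okL (n : ℕ) (a : Bool) (A : List ℕ) : Prop := if a then A = [] else Prp n A

theorem exists_flag {l t : List ℕ} (h : Prp n (l ++ t)) :
    ∃ a : Bool, okL n a t ∧ ∀ A, okL n a A → Prp n (l ++ A) := by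
  by_cases ht : t = []
  · subst ht
    refine ⟨true, rfl, ?_⟩
    intro A hA
    have hA' : A = [] := hA
    rw [hA']; exact h
  · obtain ⟨w, hw, he⟩ := h
    have h1 : t = t.dropLast ++ [t.getLast ht] := (List.dropLast_append_getLast ht).symm
    rw [h1, ← List.append_assoc] at he
    have h2 := List.append_inj' he rfl
    have h3 : ∀ a ∈ l, 1 ≤ a ∧ a ≤ n := fun a ha => hw a (by
      rw [← h2.1]; exact List.mem_append_left _ ha)
    have h4 : ∀ a ∈ t.dropLast, 1 ≤ a ∧ a ≤ n := fun a ha => hw a (by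
      rw [← h2.1]; exact List.mem_append_right _ ha)
    refine ⟨false, ⟨t.dropLast, h4, ?_⟩, ?_⟩
    · rw [← h2.2]; exact h1
    · rintro A ⟨w', hw', rfl⟩
      refine ⟨l ++ w', ?_, by rw [List.append_assoc]⟩
      intro a ha
      rcases List.mem_append.1 ha with h | h
      · exact h3 a h
      · exact hw' a h

theorem Prp.le {t : List ℕ} (h : Prp n t) : ∀ a ∈ t, a ≤ n := by
  obtain ⟨w, hw, rfl⟩ := h
  intro a ha
  rcases List.mem_append.1 ha with h | h
  · exact (hw a h).2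
  · simp at h; omega

theorem finite_lists_le (n N : ℕ) : {t : List ℕ | (∀ a ∈ t, a ≤ n) ∧ t.length ≤ N}.Finite := by
  have h := (List.finite_length_le (Fin (n + 1)) N).image (List.map Fin.val)
  refine h.subset ?_
  rintro t ⟨h1, h2⟩
  refine ⟨t.pmap (fun a ha => (⟨a, ha⟩ : Fin (n + 1))) (fun a ha => Nat.lt_succ_of_le (h1 a ha)),
    ?_, ?_⟩
  · simpa using h2
  · rw [List.map_pmap]
    simp

theorem window (hv : Valid n E D val) {E₁ : FSA}
    (hE₁ : ∀ t, FAcc E₁ t → FAcc E t ∧ Red E val t) {R : NA} {z : ℕ} (hz : z ≤ n)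
    (hR : ∀ u v, NAcc R u v → FAcc E₁ u ∧ FAcc E₁ v ∧ vs val u * val z = vs val v) :
    IncC R (D z) := by
  classical
  have hacc : ∀ u v, NAcc R u v → AAcc (D z) u v := by
    intro u v h
    obtain ⟨h1, h2, h3⟩ := hR u v h
    have h1' := (hE₁ _ h1).1
    have h2' := (hE₁ _ h2).1
    exact (hv.mul z hz _ _ (hv.prp _ h1') (hv.prp _ h2')).2 ⟨h1', h2', h3⟩
  refine IncC.complete hacc ?_
  -- fixed completions of the states of `R`
  have hU : ∀ s : ℕ, ∃ x : List ℕ × List ℕ, Live R s → ∃ t ∈ R.2.1, Path R.2.2 s x.1 x.2 t := by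
    intro s
    by_cases h : Live R s
    · obtain ⟨t, ht, u, v, hp⟩ := h
      exact ⟨(u, v), fun _ => ⟨t, ht, hp⟩⟩
    · exact ⟨([], []), fun h' => absurd h' h⟩
  choose U hU using hU
  -- fixed completions of the states of `D z`
  have hC : ∀ k : ℕ × Bool × Bool, ∃ x : List ℕ × List ℕ,
      (∃ A B, Rd (D z) k.1 A B (D z).2.1 ∧ okL n k.2.1 A ∧ okL n k.2.2 B) →
        Rd (D z) k.1 x.1 x.2 (D z).2.1 ∧ okL n k.2.1 x.1 ∧ okL n k.2.2 x.2 := by
    intro k
    by_cases h : ∃ A B, Rd (D z) k.1 A B (D z).2.1 ∧ okL n k.2.1 A ∧ okL n k.2.2 B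
    · obtain ⟨A, B, h⟩ := h
      exact ⟨(A, B), fun _ => h⟩
    · exact ⟨([], []), fun h' => absurd h' h⟩
  choose C hC using hC
  -- finite sets of values
  set F1 : Set G := (fun s : ℕ => vs val (U s).2 * (val z)⁻¹ * (vs val (U s).1)⁻¹) ''
    {s | s ∈ nstates R} with hF1
  have hF1f : F1.Finite := ((nstates R).finite_toSet).image _
  set F2 : Set G := (fun k : ℕ × Bool × Bool => vs val (C k).2 * (val z)⁻¹ * (vs val (C k).1)⁻¹) ''
    ({s | s ∈ asts (D z)} ×ˢ (Set.univ : Set (Bool × Bool))) with hF2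
  have hF2f : F2.Finite := (((asts (D z)).finite_toSet).prod Set.finite_univ).image _
  set F : Set G := (fun x : G × G => x.2 * x.1⁻¹) '' (F1 ×ˢ F2) ∪
    (fun x : G × G => x.2⁻¹ * x.1) '' (F1 ×ˢ F2) with hF
  have hFf : F.Finite := ((hF1f.prod hF2f).image _).union ((hF1f.prod hF2f).image _)
  obtain ⟨N, hN⟩ := departure hv F hFf
  -- a long factor with value in `F` contradicts reducedness
  have hlong : ∀ p y r : List ℕ, FAcc E₁ (p ++ y ++ r) → vs val y ∈ F → y.length ≤ N := by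
    intro p y r h1 h2
    by_contra hlen
    obtain ⟨h3, h4⟩ := hE₁ _ h1
    obtain ⟨y₁, y₂, y₃, rfl, h5, h6, h7⟩ := hN p y r h3 h2 (by omega)
    refine h4 (p ++ y₁) y₂ (y₃ ++ r) ?_ h5 h6 h7
    simp only [List.append_assoc]
  refine ((((asts (D z)).finite_toSet).prod
    ((finite_lists_le n N).prod (finite_lists_le n N)))).subset ?_
  rintro ⟨s', l', r'⟩ ⟨u, v, s, hp, hlive, hfol⟩
  obtain ⟨⟨l₁, r₁, rfl, rfl, hrd⟩, hst⟩ := follow_spec hfol
  simp only at hrd hst hp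
  obtain ⟨t, ht, hq⟩ := hU s hlive
  have hsR : s ∈ nstates R := hp.mem_states (nstart_mem R)
  have hs' : s' ∈ asts (D z) := hrd.mem_asts List.mem_cons_self
  have hN1 : NAcc R ((l₁ ++ l') ++ (U s).1) ((r₁ ++ r') ++ (U s).2) := ⟨t, ht, hp.trans hq⟩
  obtain ⟨e1, e2, e3⟩ := hR _ _ hN1
  have hA1 := hacc _ _ hN1
  have hp1 := hv.prp _ (hE₁ _ e1).1
  have hp2 := hv.prp _ (hE₁ _ e2).1
  rw [List.append_assoc] at hA1 hp1 hp2
  unfold AAcc at hA1
  rw [List.append_assoc] at hA1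
  have hrd2 := hrd.append_inv hA1
  obtain ⟨a, ha, ha'⟩ := exists_flag hp1
  obtain ⟨b, hb, hb'⟩ := exists_flag hp2
  obtain ⟨hc1, hc2, hc3⟩ := hC (s', a, b) ⟨_, _, hrd2, ha, hb⟩
  -- values
  have hg1 : (vs val (r₁ ++ r'))⁻¹ * vs val (l₁ ++ l') ∈ F1 := by
    refine ⟨s, hsR, ?_⟩
    simp only
    rw [vs_append' val (l₁ ++ l'), vs_append' val (r₁ ++ r')] at e3
    have h1 : vs val (U s).2 = (vs val (r₁ ++ r'))⁻¹ * (vs val (l₁ ++ l') * vs val (U s).1 *
        val z) := by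
      rw [e3, inv_mul_cancel_left]
    rw [h1]
    simp only [mul_assoc, mul_inv_cancel, mul_one, inv_mul_cancel_left, mul_inv_cancel_left]
  have hg2 : (vs val r₁)⁻¹ * vs val l₁ ∈ F2 := by
    refine ⟨(s', a, b), ⟨hs', Set.mem_univ _⟩, ?_⟩
    simp only
    have h0 : AAcc (D z) (l₁ ++ (C (s', a, b)).1) (r₁ ++ (C (s', a, b)).2) := hrd.trans hc1
    have h1 := ((hv.mul z hz _ _ (ha' _ hc2) (hb' _ hc3)).1 h0).2.2
    rw [vs_append', vs_append'] at h1
    have h2 : vs val (C (s', a, b)).2 = (vs val r₁)⁻¹ * (vs val l₁ * vs val (C (s', a, b)).1 *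
        val z) := by
      rw [h1, inv_mul_cancel_left]
    rw [h2]
    simp only [mul_assoc, mul_inv_cancel, mul_one, inv_mul_cancel_left, mul_inv_cancel_left]
  have hle1 : ∀ a ∈ l', a ≤ n := fun a ha =>
    Prp.le hp1 a (List.mem_append_right _ (List.mem_append_left _ ha))
  have hle2 : ∀ a ∈ r', a ≤ n := fun a ha =>
    Prp.le hp2 a (List.mem_append_right _ (List.mem_append_left _ ha))
  refine ⟨hs', ⟨hle1, ?_⟩, ⟨hle2, ?_⟩⟩
  · rcases hst with ⟨-, h⟩ | ⟨-, h⟩
    · rw [h]; simp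
    · subst h
      refine hlong l₁ l' (U s).1 e1 (Or.inr ⟨(_, _), ⟨hg1, hg2⟩, ?_⟩)
      simp only [List.append_nil, vs_append']
      group
  · rcases hst with ⟨-, h⟩ | ⟨-, h⟩
    · subst h
      refine hlong r₁ r' (U s).2 e2 (Or.inl ⟨(_, _), ⟨hg1, hg2⟩, ?_⟩)
      simp only [List.append_nil, vs_append']
      group
    · rw [h]; simp

end V

end Pool.Agent.H69.As
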