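import Pool.Agent.H69.As.CertOK
import Pool.Agent.H69.As.Pt
import Pool.Agent.H69.As.Chains
import Pool.Agent.H69.As.Window
import Pool.Agent.H69.As.Fsa

set_option autoImplicit false

namespace Pool.Agent.H69.As

theorem vsS_relr' {G : Type} [Group G] {val : ℕ → G} (x : ℕ) (u v : List ℕ) :
    vsS val (relr x u v) = vs val u * val x * (vs val v)⁻¹ := by
  unfold relr
  rw [vsS_append, vsS_pos, vsS_cons, vsS_neg]
  simp [mul_assoc]

section
variable {n : ℕ} {E : FSA} {D : ℕ → ASA} {G : Type} [Group G] {val : ℕ → G}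

/-- the relators hold in a valid structure -/
theorem Valid.rels (hv : Valid n E D val) {r : SW × ℕ} (hr : r ∈ Rels n D) :
    vsS val r.1 = val r.2 := by
  unfold Rels at hr
  rcases List.mem_append.1 hr with h | h
  · unfold basicRels at h
    rcases List.mem_cons.1 h with rfl | h
    · simp [vsS_cons, hv.zero]
    · obtain ⟨x, hx, h⟩ := List.mem_flatMap.1 h
      simp only [List.mem_cons, List.not_mem_nil, or_false] at h
      rcases h with rfl | rfl | rfl <;> simp [vsS_cons, hv.zero]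
  · obtain ⟨x, hx, u, v, hu, hv', hacc, rfl⟩ := mem_sndRels.1 h
    rw [vsS_relr', hv.zero, mul_inv_eq_one]
    exact ((hv.mul x hx _ _ (prp_of_words hu) (prp_of_words hv')).1 hacc).2.2

/-- value along a chain -/
theorem Valid.chain (hv : Valid n E D val) {L : List ℕ → Prop} (hL : ∀ t, L t → FAcc E t) {ys : SW}
    (hys : ∀ y ∈ ys, y.2 ≤ n) {c c' : List ℕ} (hc : L c)
    (h : Chain L (fun x => AAcc (D x)) ys c c') : vs val c * vsS val ys = vs val c' := by
  induction h with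
  | nil c => simp
  | @cons b x ys c c' c'' h1 h2 _ ih =>
    have hx : x ≤ n := hys _ List.mem_cons_self
    have ih' := ih (fun y hy => hys y (List.mem_cons_of_mem _ hy)) h1
    have pc := hv.prp c (hL c hc)
    have pc' := hv.prp c' (hL c' h1)
    rw [vsS_cons, ← ih', ← mul_assoc]
    congr 1
    cases b with
    | true =>
      simp only [if_true] at h2 ⊢
      exact ((hv.mul x hx c c' pc pc').1 h2).2.2
    | false =>
      simp only [Bool.false_eq_true, if_false] at h2 ⊢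
      rw [mul_inv_eq_iff_eq_mul]
      exact (((hv.mul x hx c' c pc' pc).1 h2).2.2).symm

theorem Valid.stC (hv : Valid n E D val) {E₁ : FSA}
    (hE₁ : ∀ t, FAcc E₁ t → FAcc E t ∧ Red E val t) {x : ℕ} (hx : x ≤ n) :
    StC n E E₁ D x := by
  classical
  set M := D x with hM
  set P : ℕ × (ℕ × ℕ) → Prop := fun k => ∃ w : (List ℕ × List ℕ) × (List ℕ × List ℕ),
    ItemOK E M (k.1, k.2, w) with hP
  have hch : ∀ k : ℕ × (ℕ × ℕ), ∃ w : (List ℕ × List ℕ) × (List ℕ × List ℕ),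
      P k → ItemOK E M (k.1, k.2, w) := by
    intro k
    by_cases h : P k
    · obtain ⟨w, hw⟩ := h
      exact ⟨w, fun _ => hw⟩
    · exact ⟨(([], []), ([], [])), fun h1 => absurd h1 h⟩
  choose f hf using hch
  set K : List (ℕ × (ℕ × ℕ)) := (asts M) ×ˢ ((fstates E) ×ˢ (fstates E)) with hK
  set A : List Item := (K.filter fun k => P k).map fun k => (k.1, k.2, f k) with hA
  have memA : ∀ k, P k → ∃ j ∈ A, j.1 = k.1 ∧ j.2.1 = k.2 := by
    intro k hk
    refine ⟨(k.1, k.2, f k), ?_, rfl, rfl⟩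
    rw [hA, List.mem_map]
    refine ⟨k, ?_, rfl⟩
    rw [List.mem_filter]
    refine ⟨?_, by simpa using hk⟩
    obtain ⟨w, h1, h2, h3, _⟩ := hk
    obtain ⟨s, q, q'⟩ := k
    rw [hK]
    simp only [List.mem_product]
    exact ⟨h1.mem_asts List.mem_cons_self, run_mem_states (start_mem_states E) h2,
      run_mem_states (start_mem_states E) h3⟩
  have okA : ∀ i ∈ A, ItemOK E M i := by
    intro i hi
    rw [hA, List.mem_map] at hi
    obtain ⟨k, hk, rfl⟩ := hi
    rw [List.mem_filter] at hk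
    exact hf k (by simpa using hk.2)
  have htri : ∀ u v, NAcc (tri3 E E₁ D x) u v → FAcc E u ∧ FAcc E v ∧ AAcc (D x) u v := by
    intro u v h
    unfold tri3 at h
    rw [comp_acc] at h
    obtain ⟨w', h1, h2⟩ := h
    rw [comp_acc] at h1
    obtain ⟨w, h3, h4⟩ := h1
    rw [swap_acc] at h2
    obtain ⟨a1, a2, a3⟩ := (prod_acc _ _ _ _ _).1 h3
    obtain ⟨b1, b2, b3⟩ := (prod_acc _ _ _ _ _).1 h4
    obtain ⟨c1, c2, c3⟩ := (prod_acc _ _ _ _ _).1 h2
    have pu := hv.prp _ a2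
    have pv := hv.prp _ c2
    have pw := hv.prp _ (hE₁ _ a3).1
    have pw' := hv.prp _ (hE₁ _ b3).1
    have e1 := ((hv.mul 0 (Nat.zero_le _) _ _ pu pw).1 a1).2.2
    have e2 := ((hv.mul x hx _ _ pw pw').1 b1).2.2
    have e3 := ((hv.mul 0 (Nat.zero_le _) _ _ pv pw').1 c1).2.2
    rw [hv.zero, mul_one] at e1 e3
    refine ⟨a2, c2, (hv.mul x hx _ _ pu pv).2 ⟨a2, c2, ?_⟩⟩
    rw [e1, e2, e3]
  refine ⟨A, ?_, okA, ?_⟩
  · -- the start item
    obtain ⟨t, ht, _⟩ := hv.onto 1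
    obtain ⟨t', ht', hval⟩ := hv.onto (vs val t * val x)
    have hacc := (hv.mul x hx _ _ (hv.prp t ht) (hv.prp t' ht')).2 ⟨ht, ht', hval.symm⟩
    obtain ⟨j, hj, h1, h2⟩ := memA (M.1, (E.1, E.1)) ⟨(([], []), (t, t')), Rd.nil _, rfl, rfl,
      hacc, ht, ht'⟩
    exact ⟨j, hj, h1, h2⟩
  · intro i hi a ha
    obtain ⟨i1, i2, i3, i4, i5, i6⟩ := okA i hi
    constructor
    · intro hs q hq
      by_cases h : ∃ s', look M.2.2.2 i.1 a = some s' ∧ P (s', (q, i.2.1.2))
      · left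
        obtain ⟨s', h1, h2⟩ := h
        obtain ⟨j, hj, h3, h4⟩ := memA _ h2
        exact ⟨j, hj, by rw [h3]; exact h1, h4⟩
      · right
        refine EmptyP.complete ?_
        intro u v huv
        obtain ⟨f1, f2, f3⟩ := htri _ _ huv
        have f3' : Rd M M.1 (i.2.2.1.1 ++ (a :: u)) (i.2.2.1.2 ++ v) M.2.1 := by
          simpa [AAcc] using f3
        obtain ⟨s', h4, h5⟩ := Rd.left_inv' hs (i1.append_inv f3')
        apply h
        refine ⟨s', h4, ⟨((i.2.2.1.1 ++ [a], i.2.2.1.2), (u, v)), ?_, ?_, i3, h5, f1, f2⟩⟩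
        · have := i1.trans (Rd.left hs h4 (Rd.nil s'))
          simpa using this
        · exact run_snoc.2 ⟨_, i2, hq⟩
    · intro hs q hq
      by_cases h : ∃ s', look M.2.2.2 i.1 a = some s' ∧ P (s', (i.2.1.1, q))
      · left
        obtain ⟨s', h1, h2⟩ := h
        obtain ⟨j, hj, h3, h4⟩ := memA _ h2
        exact ⟨j, hj, by rw [h3]; exact h1, h4⟩
      · right
        refine EmptyP.complete ?_
        intro u v huv
        obtain ⟨f1, f2, f3⟩ := htri _ _ huv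
        have f3' : Rd M M.1 (i.2.2.1.1 ++ u) (i.2.2.1.2 ++ (a :: v)) M.2.1 := by
          simpa [AAcc] using f3
        obtain ⟨s', h4, h5⟩ := Rd.right_inv' hs (i1.append_inv f3')
        apply h
        refine ⟨s', h4, ⟨((i.2.2.1.1, i.2.2.1.2 ++ [a]), (u, v)), ?_, i2, ?_, h5, f1, f2⟩⟩
        · have := i1.trans (Rd.right hs h4 (Rd.nil s'))
          simpa using this
        · exact run_snoc.2 ⟨_, i3, hq⟩

theorem Valid.certOK (hv : Valid n E D val) : CertOK n E D := by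
  have hle : ∀ t, FAcc E t → ∀ a ∈ t, a ≤ n := fun t ht => prp_le (hv.prp t ht)
  have hex : ∀ g : G, ∃ t, FAcc E t ∧ Red E val t ∧ vs val t = g := by
    intro g
    obtain ⟨t, ht, hg⟩ := hv.onto g
    obtain ⟨t₁, h1, h2, h3⟩ := exists_red (val := val) ht
    exact ⟨t₁, h1, h2, by rw [h3, hg]⟩
  obtain ⟨t₀, ht₀, ht₀r, _⟩ := hex 1
  obtain ⟨E₁, C, e1, c1, c3, c2, c4⟩ := exists_fsa n {t | FAcc E t ∧ Red E val t}
    ⟨t₀, ht₀, ht₀r⟩ (fun t ht => hle t ht.1) (finite_quotients' hv (departure hv))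
  have hE₁ : ∀ t, FAcc E₁ t → FAcc E t ∧ Red E val t := fun t ht => (e1 t).1 ht
  have hexE : ∀ g : G, ∃ t, FAcc E₁ t ∧ vs val t = g := by
    intro g
    obtain ⟨t, h1, h2, h3⟩ := hex g
    exact ⟨t, (e1 t).2 ⟨h1, h2⟩, h3⟩
  have prpE : ∀ t, FAcc E₁ t → Prp n t := fun t ht => hv.prp t (hE₁ t ht).1
  have hmul : ∀ x ≤ n, ∀ t t', FAcc E t → FAcc E t' → vs val t * val x = vs val t' →
      AAcc (D x) t t' := fun x hx t t' ht ht' h =>
    (hv.mul x hx t t' (hv.prp t ht) (hv.prp t' ht')).2 ⟨ht, ht', h⟩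
  refine ⟨E₁, C, t₀, (e1 t₀).2 ⟨ht₀, ht₀r⟩, ?_, ?_, ?_, ?_, ?_, ?_, ?_, ?_, ?_⟩
  · refine DomC.complete fun t ht => ⟨t, (prod_acc _ _ _ _ _).2 ⟨?_, (hE₁ t ht).1, ht⟩⟩
    exact hmul 0 (Nat.zero_le _) t t (hE₁ t ht).1 (hE₁ t ht).1 (by rw [hv.zero, mul_one])
  · refine DomC.complete fun t ht => ?_
    obtain ⟨t', h1, h2⟩ := hexE (vs val t)
    exact ⟨t', (prod_acc _ _ _ _ _).2 ⟨hmul 0 (Nat.zero_le _) t t' ht (hE₁ t' h1).1
      (by rw [hv.zero, mul_one, h2]), ht, h1⟩⟩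
  · intro x hx
    rw [List.mem_range] at hx
    refine DomC.complete fun t ht => ?_
    obtain ⟨t', h1, h2⟩ := hexE (vs val t * val x)
    exact ⟨t', (prod_acc _ _ _ _ _).2 ⟨hmul x (by omega) t t' (hE₁ t ht).1 (hE₁ t' h1).1
      h2.symm, ht, h1⟩⟩
  · intro x hx
    rw [List.mem_range] at hx
    refine DomC.complete fun t ht => ?_
    obtain ⟨t', h1, h2⟩ := hexE (vs val t * (val x)⁻¹)
    refine ⟨t', (swap_acc _ _ _).2 ((prod_acc _ _ _ _ _).2
      ⟨hmul x (by omega) t' t (hE₁ t' h1).1 (hE₁ t ht).1 ?_, h1, ht⟩)⟩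
    rw [h2, inv_mul_cancel_right]
  · intro r hr
    obtain ⟨hl2, hl1⟩ := Rels_labels hr
    refine window hv hE₁ hl2 ?_
    intro u w h
    rw [chain_acc] at h
    · obtain ⟨v, h1, h2⟩ := h
      obtain ⟨rfl, h3⟩ := (id_acc _ _ _).1 h1
      refine ⟨h3, h2.mem h3, ?_⟩
      rw [← hv.rels hr]
      exact hv.chain (fun t ht => (hE₁ t ht).1) hl1 h3 h2
    · intro u v huv
      obtain ⟨rfl, h1⟩ := (id_acc _ _ _).1 huv
      exact h1
  · refine ⟨c1, c2, c3, ?_⟩
    intro c hc m hm hmc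
    obtain ⟨e', he'⟩ := look_of_mem (show ((m.1.1, m.1.2), m.2) ∈ E₁.2.2 from hm)
    obtain ⟨c', hc', hce⟩ := c4 c hc m.1.2 e' (by rw [← hmc]; exact he')
    refine ⟨c', hc', by rw [hce]; exact he', ?_⟩
    refine window hv hE₁ (Nat.zero_le _) ?_
    intro u w h
    rw [chain_acc] at h
    · obtain ⟨v, h1, h2⟩ := h
      obtain ⟨p, hp, rfl, rfl⟩ := (tail_acc _ _ _ _ _ _).1 h1
      obtain ⟨q, hq, hr⟩ := c3 c hc
      obtain ⟨q', hq', hr'⟩ := c3 c' hc'
      have m1 : FAcc E₁ (p ++ c.2) := ⟨q, by rw [run_append_some hp]; exact hr, hq⟩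
      have m2 : FAcc E₁ (p ++ m.1.2 :: c'.2) := by
        refine ⟨q', ?_, hq'⟩
        rw [run_append_some hp, run_cons, ← hmc, he']
        simp only [Option.bind_some]
        rw [← hce]
        exact hr'
      have l1 := hle _ (hE₁ _ m1).1
      have l2 := hle _ (hE₁ _ m2).1
      have lb : ∀ y ∈ baseLab m.1.2 c.2 c'.2, y.2 ≤ n := by
        intro y hy
        unfold baseLab at hy
        rcases List.mem_append.1 hy with hy | hy
        · obtain ⟨a, ha, rfl⟩ := List.mem_map.1 hy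
          exact l1 a (List.mem_append_right _ (List.mem_reverse.1 ha))
        · rcases List.mem_cons.1 hy with rfl | hy
          · exact l2 _ (by simp)
          · obtain ⟨a, ha, rfl⟩ := List.mem_map.1 hy
            exact l2 a (by simp [ha])
      refine ⟨m2, h2.mem m1, ?_⟩
      rw [← hv.chain (fun t ht => (hE₁ t ht).1) lb m1 h2, hv.zero, mul_one]
      unfold baseLab
      rw [vsS_append, vsS_neg, vsS_cons, vsS_pos]
      simp [mul_assoc]
    · intro u v huv
      obtain ⟨p, hp, _, rfl⟩ := (tail_acc _ _ _ _ _ _).1 huv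
      obtain ⟨q, hq, hr⟩ := c3 c hc
      exact ⟨q, by rw [run_append_some hp]; exact hr, hq⟩
  · intro x hx
    rw [List.mem_range] at hx
    refine IncF.complete fun u v h => ?_
    obtain ⟨h1, h2, h3⟩ := (prod_acc _ _ _ _ _).1 h
    exact ((hv.mul x (by omega) u v (pt_acc.1 h2) (pt_acc.1 h3)).1 h1).1
  · intro x hx
    rw [List.mem_range] at hx
    refine IncF.complete fun u v h => ?_
    rw [swap_acc] at h
    obtain ⟨h1, h2, h3⟩ := (prod_acc _ _ _ _ _).1 h
    exact ((hv.mul x (by omega) v u (pt_acc.1 h2) (pt_acc.1 h3)).1 h1).2.1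
  · intro x hx
    rw [List.mem_range] at hx
    exact hv.stC hE₁ (by omega)

end

end Pool.Agent.H69.As
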