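import Pool.Agent.H69.As.SgC

/-!
# Validity is decidable
-/

set_option autoImplicit false

namespace Pool.Agent.H69.As

section
variable {O : Set (ℕ →. ℕ)}
variable {α β γ δ σ : Type}
variable [Primcodable α] [Primcodable β] [Primcodable γ] [Primcodable δ] [Primcodable σ]

theorem sg_CertOK {n : α → ℕ} {E : α → FSA} {Ms : α → List ASA} (hn : RC ∅ n) (hE : RC ∅ E)
    (hM : RC ∅ Ms) : Sg fun a => CertOK (n a) (E a) (mc (Ms a)) := by
  unfold CertOK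
  refine Sg.ex ?_
  refine Sg.ex (β := List (ℕ × List ℕ)) (p := fun (q : α × FSA) C => ∃ t₀ : List ℕ,
    FAcc q.2 t₀ ∧ DomC q.2 (prod (mc (Ms q.1) 0) (E q.1) q.2) ∧
    DomC (E q.1) (prod (mc (Ms q.1) 0) (E q.1) q.2) ∧
    (∀ x ∈ List.range (n q.1 + 1), DomC q.2 (prod (mc (Ms q.1) x) q.2 q.2)) ∧
    (∀ x ∈ List.range (n q.1 + 1), DomC q.2 (swap (prod (mc (Ms q.1) x) q.2 q.2))) ∧
    (∀ r ∈ Rels (n q.1) (mc (Ms q.1)), IncC (chainNA q.2 (mc (Ms q.1)) (idNA q.2) r.1)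
      (mc (Ms q.1) r.2)) ∧
    BaseOK q.2 (mc (Ms q.1)) C ∧
    (∀ x ∈ List.range (n q.1 + 1), IncF (prod (mc (Ms q.1) x) (PT (n q.1)) (PT (n q.1))) (E q.1)) ∧
    (∀ x ∈ List.range (n q.1 + 1),
      IncF (swap (prod (mc (Ms q.1) x) (PT (n q.1)) (PT (n q.1)))) (E q.1)) ∧
    (∀ x ∈ List.range (n q.1 + 1), StC (n q.1) (E q.1) q.2 (mc (Ms q.1)) x)) ?_
  refine Sg.ex (β := List ℕ) (p := fun (q : (α × FSA) × List (ℕ × List ℕ)) t₀ =>
    FAcc q.1.2 t₀ ∧ DomC q.1.2 (prod (mc (Ms q.1.1) 0) (E q.1.1) q.1.2) ∧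
    DomC (E q.1.1) (prod (mc (Ms q.1.1) 0) (E q.1.1) q.1.2) ∧
    (∀ x ∈ List.range (n q.1.1 + 1), DomC q.1.2 (prod (mc (Ms q.1.1) x) q.1.2 q.1.2)) ∧
    (∀ x ∈ List.range (n q.1.1 + 1), DomC q.1.2 (swap (prod (mc (Ms q.1.1) x) q.1.2 q.1.2))) ∧
    (∀ r ∈ Rels (n q.1.1) (mc (Ms q.1.1)), IncC (chainNA q.1.2 (mc (Ms q.1.1)) (idNA q.1.2) r.1)
      (mc (Ms q.1.1) r.2)) ∧
    BaseOK q.1.2 (mc (Ms q.1.1)) q.2 ∧
    (∀ x ∈ List.range (n q.1.1 + 1),
      IncF (prod (mc (Ms q.1.1) x) (PT (n q.1.1)) (PT (n q.1.1))) (E q.1.1)) ∧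
    (∀ x ∈ List.range (n q.1.1 + 1),
      IncF (swap (prod (mc (Ms q.1.1) x) (PT (n q.1.1)) (PT (n q.1.1)))) (E q.1.1)) ∧
    (∀ x ∈ List.range (n q.1.1 + 1), StC (n q.1.1) (E q.1.1) q.1.2 (mc (Ms q.1.1)) x)) ?_
  refine Sg.and ?_ <| Sg.and ?_ <| Sg.and ?_ <| Sg.and ?_ <| Sg.and ?_ <| Sg.and ?_ <|
    Sg.and ?_ <| Sg.and ?_ <| Sg.and ?_ ?_
  · exact Sg.of_bool (c := fun q : ((α × FSA) × List (ℕ × List ℕ)) × List ℕ =>
      faccb q.1.1.2 q.2) (by fun_prop) fun q => faccb_iff.symm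
  · exact sg_DomC (by fun_prop) (by fun_prop)
  · exact sg_DomC (by fun_prop) (by fun_prop)
  · refine Sg.ball (by fun_prop) ?_
    exact sg_DomC (by fun_prop) (by fun_prop)
  · refine Sg.ball (by fun_prop) ?_
    exact sg_DomC (by fun_prop) (by fun_prop)
  · refine Sg.ball (f := fun q : ((α × FSA) × List (ℕ × List ℕ)) × List ℕ =>
      RelsM (n q.1.1.1) (Ms q.1.1.1)) (p := fun q r => IncC (chainNA q.1.1.2 (mc (Ms q.1.1.1))
        (idNA q.1.1.2) r.1) (mc (Ms q.1.1.1) r.2)) (by fun_prop) ?_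
    exact sg_IncC (R := fun q : (((α × FSA) × List (ℕ × List ℕ)) × List ℕ) × (SW × ℕ) =>
      chNA q.1.1.1.2 (Ms q.1.1.1.1) (idNA q.1.1.1.2) q.2.1) (by fun_prop) (by fun_prop)
  · exact sg_BaseOK (E₁ := fun q : ((α × FSA) × List (ℕ × List ℕ)) × List ℕ => q.1.1.2)
      (Ms := fun q => Ms q.1.1.1) (C := fun q => q.1.2) (by fun_prop) (by fun_prop) (by fun_prop)
  · refine Sg.ball (by fun_prop) ?_
    exact sg_IncF (by fun_prop) (by fun_prop)
  · refine Sg.ball (by fun_prop) ?_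
    exact sg_IncF (by fun_prop) (by fun_prop)
  · refine Sg.ball (by fun_prop) ?_
    exact sg_StC (n := fun q : (((α × FSA) × List (ℕ × List ℕ)) × List ℕ) × ℕ => n q.1.1.1.1)
      (E := fun q => E q.1.1.1.1) (E₁ := fun q => q.1.1.1.2) (Ms := fun q => Ms q.1.1.1.1)
      (x := fun q => q.2) (by fun_prop) (by fun_prop) (by fun_prop) (by fun_prop) (by fun_prop)

theorem sg_Chain {E : α → FSA} {Ms : α → List ASA} {ys : α → SW} {c c' : α → List ℕ}
    (hE : RC ∅ E) (hM : RC ∅ Ms) (hy : RC ∅ ys) (hc : RC ∅ c) (hc' : RC ∅ c') :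
    Sg fun a => Chain (FAcc (E a)) (Ach (mc (Ms a))) (ys a) (c a) (c' a) := by
  refine Sg.ex_bool (β := List ((Bool × ℕ) × List ℕ))
    (c := fun a w => deqb (w.map Prod.fst) (ys a) && deqb (chb (E a) (Ms a) (c a) w) (some (c' a)))
    (by fun_prop) fun a => ?_
  rw [chain_iff]
  simp

theorem not_facc {E : FSA} {t : List ℕ} : ¬ FAcc E t ↔ (!faccb E t) = true := by
  rw [← faccb_iff]
  simp

theorem not_aacc {M : ASA} {t t' : List ℕ} : ¬ AAcc M t t' ↔ (!accb M t t') = true := by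
  rw [← accb_iff]
  simp

theorem sg_Viol {n : α → ℕ} {E : α → FSA} {Ms : α → List ASA} (hn : RC ∅ n) (hE : RC ∅ E)
    (hM : RC ∅ Ms) : Sg fun a => Viol (n a) (E a) (mc (Ms a)) := by
  unfold Viol
  refine Sg.or ?_ <| Sg.or ?_ <| Sg.or ?_ <| Sg.or ?_ ?_
  · exact sg_EmptyP (x := fun _ => []) (y := fun _ => []) (by fun_prop) (by fun_prop)
      (by fun_prop)
  · refine Sg.bex (by fun_prop) ?_
    refine (Sg.ex (β := List ℕ × List ℕ) (p := fun (q : α × ℕ) t => Prp (n q.1) t.1 ∧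
      Prp (n q.1) t.2 ∧ AAcc (mc (Ms q.1) q.2) t.1 t.2 ∧
        (¬ FAcc (E q.1) t.1 ∨ ¬ FAcc (E q.1) t.2)) ?_).of_iff ?_
    · refine Sg.of_bool (c := fun q : (α × ℕ) × (List ℕ × List ℕ) =>
        faccb (PT (n q.1.1)) q.2.1 && (faccb (PT (n q.1.1)) q.2.2 &&
          (accb (mc (Ms q.1.1) q.1.2) q.2.1 q.2.2 &&
            ((!faccb (E q.1.1) q.2.1) || (!faccb (E q.1.1) q.2.2))))) (by fun_prop) fun q => ?_
      rw [Bool.and_eq_true, Bool.and_eq_true, Bool.and_eq_true, Bool.or_eq_true, faccb_iff,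
        faccb_iff, accb_iff, ← not_facc, ← not_facc, pt_acc, pt_acc]
    · intro q
      simp only [Prod.exists]
  · refine Sg.bex (by fun_prop) ?_
    refine Sg.ex (β := List ℕ) (p := fun (q : α × ℕ) t => FAcc (E q.1) t ∧
      (EmptyP (prod (mc (Ms q.1) q.2) (E q.1) (E q.1)) t [] ∨
        EmptyP (swap (prod (mc (Ms q.1) q.2) (E q.1) (E q.1))) t [])) ?_
    refine Sg.and ?_ (Sg.or ?_ ?_)
    · exact Sg.of_bool (c := fun q : (α × ℕ) × List ℕ => faccb (E q.1.1) q.2) (by fun_prop)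
        fun q => faccb_iff.symm
    · exact sg_EmptyP (y := fun _ => []) (by fun_prop) (by fun_prop) (by fun_prop)
    · exact sg_EmptyP (y := fun _ => []) (by fun_prop) (by fun_prop) (by fun_prop)
  · refine Sg.bex (f := fun a => RelsM (n a) (Ms a)) (p := fun a r => ∃ c c', FAcc (E a) c ∧
      Chain (FAcc (E a)) (Ach (mc (Ms a))) r.1 c c' ∧ ¬ AAcc (mc (Ms a) r.2) c c')
      (by fun_prop) ?_
    refine (Sg.ex (β := List ℕ × List ℕ) (p := fun (q : α × (SW × ℕ)) t => FAcc (E q.1) t.1 ∧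
      Chain (FAcc (E q.1)) (Ach (mc (Ms q.1))) q.2.1 t.1 t.2 ∧
        ¬ AAcc (mc (Ms q.1) q.2.2) t.1 t.2) ?_).of_iff ?_
    · refine Sg.and ?_ (Sg.and ?_ ?_)
      · exact Sg.of_bool (c := fun q : (α × (SW × ℕ)) × (List ℕ × List ℕ) =>
          faccb (E q.1.1) q.2.1) (by fun_prop) fun q => faccb_iff.symm
      · exact sg_Chain (E := fun q : (α × (SW × ℕ)) × (List ℕ × List ℕ) => E q.1.1)
          (Ms := fun q => Ms q.1.1) (ys := fun q => q.1.2.1) (c := fun q => q.2.1)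
          (c' := fun q => q.2.2) (by fun_prop) (by fun_prop) (by fun_prop) (by fun_prop)
          (by fun_prop)
      · exact Sg.of_bool (c := fun q : (α × (SW × ℕ)) × (List ℕ × List ℕ) =>
          !accb (mc (Ms q.1.1) q.1.2.2) q.2.1 q.2.2) (by fun_prop) fun q => not_aacc
    · intro q
      simp only [Prod.exists]
  · refine (Sg.ex (β := (List ℕ × List ℕ) × List ℕ × List ℕ × List ℕ) (p := fun (a : α) t =>
      FAcc (E a) t.1.1 ∧ FAcc (E a) t.2.1 ∧ FAcc (E a) t.2.2.2 ∧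
      Chain (FAcc (E a)) (Ach (mc (Ms a))) (pos t.2.1) t.1.1 t.1.2 ∧
      AAcc (mc (Ms a) 0) t.1.2 t.2.1 ∧
      Chain (FAcc (E a)) (Ach (mc (Ms a))) (pos t.2.2.2) t.1.1 t.2.2.1 ∧
      ¬ AAcc (mc (Ms a) 0) t.2.2.1 t.2.2.2) ?_).of_iff ?_
    · refine Sg.and ?_ <| Sg.and ?_ <| Sg.and ?_ <| Sg.and ?_ <| Sg.and ?_ <| Sg.and ?_ ?_
      · exact Sg.of_bool (c := fun q : α × ((List ℕ × List ℕ) × List ℕ × List ℕ × List ℕ) =>
          faccb (E q.1) q.2.1.1) (by fun_prop) fun q => faccb_iff.symm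
      · exact Sg.of_bool (c := fun q : α × ((List ℕ × List ℕ) × List ℕ × List ℕ × List ℕ) =>
          faccb (E q.1) q.2.2.1) (by fun_prop) fun q => faccb_iff.symm
      · exact Sg.of_bool (c := fun q : α × ((List ℕ × List ℕ) × List ℕ × List ℕ × List ℕ) =>
          faccb (E q.1) q.2.2.2.2) (by fun_prop) fun q => faccb_iff.symm
      · exact sg_Chain (E := fun q : α × ((List ℕ × List ℕ) × List ℕ × List ℕ × List ℕ) => E q.1)
          (Ms := fun q => Ms q.1) (ys := fun q => pos q.2.2.1) (c := fun q => q.2.1.1)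
          (c' := fun q => q.2.1.2) (by fun_prop) (by fun_prop) (by fun_prop) (by fun_prop)
          (by fun_prop)
      · exact Sg.of_bool (c := fun q : α × ((List ℕ × List ℕ) × List ℕ × List ℕ × List ℕ) =>
          accb (mc (Ms q.1) 0) q.2.1.2 q.2.2.1) (by fun_prop) fun q => accb_iff.symm
      · exact sg_Chain (E := fun q : α × ((List ℕ × List ℕ) × List ℕ × List ℕ × List ℕ) => E q.1)
          (Ms := fun q => Ms q.1) (ys := fun q => pos q.2.2.2.2) (c := fun q => q.2.1.1)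
          (c' := fun q => q.2.2.2.1) (by fun_prop) (by fun_prop) (by fun_prop) (by fun_prop)
          (by fun_prop)
      · exact Sg.of_bool (c := fun q : α × ((List ℕ × List ℕ) × List ℕ × List ℕ × List ℕ) =>
          !accb (mc (Ms q.1) 0) q.2.2.2.1 q.2.2.2.2) (by fun_prop) fun q => not_aacc
    · intro q
      simp only [Prod.exists]

end

end Pool.Agent.H69.As
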