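import Pool.Agent.H69.As.Model
import Pool.Agent.H69.Auto

/-!
# Asynchronous automatic structures: auxiliary definitions
-/

set_option autoImplicit false

namespace Pool.Agent.H69.As

/-- the table with Boolean equality -/
theorem look_def (T : Tab) (q a : ℕ) :
    look T q a = (T.find? fun e => deqb e.1 (q, a)).map Prod.snd := rfl

/-! ### Internal form -/

/-- all proper tapes `w$` over the letters `1..n` -/
def PT (n : ℕ) : FSA := (1, [0], ((1, 0), 0) :: (List.range n).map fun i => ((1, i + 1), 1))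

/-- proper tape -/
def Prp (n : ℕ) (t : List ℕ) : Prop := ∃ w : List ℕ, (∀ a ∈ w, 1 ≤ a ∧ a ≤ n) ∧ t = w ++ [0]

/-- the automaton accepting the tapes `w$`, `w` accepted by `W` -/
def tapeFSA (n : ℕ) (W : FSA) : FSA :=
  (W.1 + 1, [0],
    ((W.2.2.filter fun e => leb 1 e.1.2 && leb e.1.2 n).map
      fun e => ((e.1.1 + 1, e.1.2), e.2 + 1)) ++ W.2.1.map fun q => ((q + 1, 0), 0))

/-- value of a string -/
def vs {G : Type} [Group G] (val : ℕ → G) (t : List ℕ) : G := (t.map val).prod

/-- Internal validity: `E` accepts tapes, `D x` for `x ≤ n` are the multiplier automata. -/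
structure Valid (n : ℕ) (E : FSA) (D : ℕ → ASA) {G : Type} [Group G] (val : ℕ → G) : Prop where
  zero : val 0 = 1
  prp : ∀ t, FAcc E t → Prp n t
  onto : ∀ g : G, ∃ t, FAcc E t ∧ vs val t = g
  mul : ∀ x ≤ n, ∀ t t', Prp n t → Prp n t' →
    (AAcc (D x) t t' ↔ FAcc E t ∧ FAcc E t' ∧ vs val t * val x = vs val t')

/-! ### Nondeterministic two-tape automata (with optional letters on both tapes) -/

/-- source, (optional left letter, optional right letter), target -/
abbrev Tr := ℕ × (Option ℕ × Option ℕ) × ℕ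

/-- start, accept states, transitions -/
abbrev NA := ℕ × List ℕ × List Tr

inductive Path (R : List Tr) : ℕ → List ℕ → List ℕ → ℕ → Prop
  | nil (s : ℕ) : Path R s [] [] s
  | cons {s s' t : ℕ} {o p : Option ℕ} {u v : List ℕ} : (s, (o, p), s') ∈ R →
      Path R s' u v t → Path R s (o.toList ++ u) (p.toList ++ v) t

def NAcc (R : NA) (u v : List ℕ) : Prop := ∃ t ∈ R.2.1, Path R.2.2 R.1 u v t

/-- `s` is co-accessible -/
def Live (R : NA) (s : ℕ) : Prop := ∃ t ∈ R.2.1, ∃ u v, Path R.2.2 s u v t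

def nstates (R : NA) : List ℕ := R.1 :: R.2.2.map fun τ => τ.2.2

def fstates (E : FSA) : List ℕ := E.1 :: E.2.2.map fun e => e.2

/-- swap the tapes -/
def swap (R : NA) : NA := (R.1, R.2.1, R.2.2.map fun τ => (τ.1, (τ.2.1.2, τ.2.1.1), τ.2.2))

/-- composition of relations -/
def comp (R S : NA) : NA :=
  (Nat.pair R.1 S.1,
   R.2.1.flatMap (fun s => S.2.1.map fun t => Nat.pair s t),
   (R.2.2.flatMap fun τ => if τ.2.1.2 = none then
      (nstates S).map (fun t => (Nat.pair τ.1 t, (τ.2.1.1, none), Nat.pair τ.2.2 t)) else []) ++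
   (S.2.2.flatMap fun υ => if υ.2.1.1 = none then
      (nstates R).map (fun s => (Nat.pair s υ.1, (none, υ.2.1.2), Nat.pair s υ.2.2)) else []) ++
   (R.2.2.flatMap fun τ => S.2.2.flatMap fun υ =>
      if τ.2.1.2 ≠ none ∧ τ.2.1.2 = υ.2.1.1 then
        [(Nat.pair τ.1 υ.1, (τ.2.1.1, υ.2.1.2), Nat.pair τ.2.2 υ.2.2)] else []))

/-- code of a triple of states -/
def tri (s e f : ℕ) : ℕ := Nat.pair s (Nat.pair e f)

/-- the automaton `M` with the left tape restricted to `E`, the right tape to `F` -/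
def prod (M : ASA) (E F : FSA) : NA :=
  (tri M.1 E.1 F.1,
   E.2.1.flatMap (fun e => F.2.1.map fun f => tri M.2.1 e f),
   M.2.2.2.flatMap fun m => (fstates E).flatMap fun e => (fstates F).flatMap fun f =>
     if m.1.1 ∈ M.2.2.1 then
       (((look M.2.2.2 m.1.1 m.1.2).bind fun s' => (look E.2.2 e m.1.2).map fun e' =>
         (tri m.1.1 e f, ((some m.1.2 : Option ℕ), (none : Option ℕ)), tri s' e' f))).toList
     else
       (((look M.2.2.2 m.1.1 m.1.2).bind fun s' => (look F.2.2 f m.1.2).map fun f' =>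
         (tri m.1.1 e f, ((none : Option ℕ), (some m.1.2 : Option ℕ)), tri s' e f'))).toList)

/-- the identity relation on the language of `E` -/
def idNA (E : FSA) : NA :=
  (E.1, E.2.1, E.2.2.flatMap fun e => ((look E.2.2 e.1.1 e.1.2).map fun q =>
    (e.1.1, ((some e.1.2 : Option ℕ), (some e.1.2 : Option ℕ)), q)).toList)

/-- all pairs `(p ++ l, p ++ r)` where `E` goes from its start state to `e` while reading `p` -/
def tailNA (E : FSA) (e : ℕ) (l r : List ℕ) : NA :=
  (2 * E.1, [2 * max l.length r.length + 1],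
    (2 * e, ((none : Option ℕ), (none : Option ℕ)), 1) ::
    (E.2.2.flatMap fun τ => ((look E.2.2 τ.1.1 τ.1.2).map fun q =>
      (2 * τ.1.1, ((some τ.1.2 : Option ℕ), (some τ.1.2 : Option ℕ)), 2 * q)).toList) ++
    (List.range (max l.length r.length)).map fun i => (2 * i + 1, (l[i]?, r[i]?), 2 * i + 3))

/-- the link of a chain with label `y`, over the tapes of `E` -/
def link (E : FSA) (D : ℕ → ASA) (y : Bool × ℕ) : NA :=
  if y.1 then prod (D y.2) E E else swap (prod (D y.2) E E)

/-- `R` followed by the chain with labels `ys` -/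
def chainNA (E : FSA) (D : ℕ → ASA) (R : NA) (ys : SW) : NA :=
  ys.foldl (fun R y => comp R (link E D y)) R

/-- chains of tapes in `L` with consecutive ones related by `M` -/
inductive Chain (L : List ℕ → Prop) (M : ℕ → List ℕ → List ℕ → Prop) :
    SW → List ℕ → List ℕ → Prop
  | nil (c : List ℕ) : Chain L M [] c c
  | cons {b : Bool} {x : ℕ} {ys : SW} {c c' c'' : List ℕ} : L c' →
      (if b then M x c c' else M x c' c) → Chain L M ys c' c'' → Chain L M ((b, x) :: ys) c c''

/-! ### Certificates -/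

/-- Certificate that all accepted paths of `R` can be followed. `st` is the step function of the
follower, `fin` its final states. `Z` consists of dead states. -/
def Cert {φ : Type} (st : φ → Option ℕ × Option ℕ → Option φ) (fin : φ → Prop) (φ0 : φ) (R : NA)
    (Z : List ℕ) (I : List (ℕ × φ)) : Prop :=
  (R.1 ∈ Z ∨ (R.1, φ0) ∈ I) ∧ (∀ z ∈ R.2.1, z ∉ Z) ∧ (∀ τ ∈ R.2.2, τ.1 ∈ Z → τ.2.2 ∈ Z) ∧
  (∀ i ∈ I, ∀ τ ∈ R.2.2, τ.1 = i.1 →
    τ.2.2 ∈ Z ∨ ∃ φ', st i.2 τ.2.1 = some φ' ∧ (τ.2.2, φ') ∈ I) ∧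
  (∀ i ∈ I, i.1 ∈ R.2.1 → fin i.2)

/-- one greedy micro step of the automaton on pending strings (nothing happens when it is stuck) -/
def micro (M : ASA) (c : ℕ × List ℕ × List ℕ) : Option (ℕ × List ℕ × List ℕ) :=
  if c.1 ∈ M.2.2.1 then
    match c.2.1 with
    | [] => some c
    | a :: l => (look M.2.2.2 c.1 a).map fun s => (s, l, c.2.2)
  else
    match c.2.2 with
    | [] => some c
    | a :: r => (look M.2.2.2 c.1 a).map fun s => (s, c.2.1, r)

/-- read as much as possible of the pending strings -/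
def follow (M : ASA) (s : ℕ) (l r : List ℕ) : Option (ℕ × List ℕ × List ℕ) :=
  (List.range (l.length + r.length)).foldl (fun o _ => o.bind (micro M)) (some (s, l, r))

/-- follower for the inclusion `R ⊆ M` -/
def incSt (M : ASA) (c : ℕ × List ℕ × List ℕ) (m : Option ℕ × Option ℕ) :
    Option (ℕ × List ℕ × List ℕ) := follow M c.1 (c.2.1 ++ m.1.toList) (c.2.2 ++ m.2.toList)

def IncC (R : NA) (M : ASA) : Prop :=
  ∃ (Z : List ℕ) (I : List (ℕ × ℕ × List ℕ × List ℕ)),
    Cert (incSt M) (fun c => c = (M.2.1, [], [])) (M.1, [], []) R Z I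

/-- follower for the inclusion of the left tapes of `R` in `E` -/
def domSt (E : FSA) (e : ℕ) (m : Option ℕ × Option ℕ) : Option ℕ := run E e m.1.toList

def IncF (R : NA) (E : FSA) : Prop :=
  ∃ (Z : List ℕ) (I : List (ℕ × ℕ)), Cert (domSt E) (fun e => e ∈ E.2.1) E.1 R Z I

/-- consume an optional letter of a prescribed prefix -/
def eat (x : List ℕ) (o : Option ℕ) : Option (List ℕ) :=
  match x, o with
  | x, none => some x
  | [], some _ => some []
  | c :: x, some a => if c = a then some x else none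

def preSt (c : Option (List ℕ × List ℕ)) (m : Option ℕ × Option ℕ) :
    Option (Option (List ℕ × List ℕ)) :=
  some (c.bind fun c => (eat c.1 m.1).bind fun x => (eat c.2 m.2).map fun y => (x, y))

/-- certificate that `R` accepts no pair of tapes with prefixes `x`, `y` -/
def EmptyP (R : NA) (x y : List ℕ) : Prop :=
  ∃ (Z : List ℕ) (I : List (ℕ × Option (List ℕ × List ℕ))),
    Cert preSt (fun c => c ≠ some ([], [])) (some (x, y)) R Z I

/-- states reachable with at most `N` transitions that do not read on the left tape -/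
def clos (R : NA) (N : ℕ) (S : List ℕ) : List ℕ :=
  (List.range N).foldl (fun S _ => S ++
    (R.2.2.filter fun τ => τ.2.1.1.isNone && S.any fun s => deqb s τ.1).map fun τ => τ.2.2) S

def lstep (R : NA) (a : ℕ) (S : List ℕ) : List ℕ :=
  (R.2.2.filter fun τ => deqb τ.2.1.1 (some a) && S.any fun s => deqb s τ.1).map fun τ => τ.2.2

/-- certificate for: every string accepted by `E` is the left tape of a pair accepted by `R` -/
def DomC (E : FSA) (R : NA) : Prop :=
  ∃ (N : ℕ) (J : List (ℕ × List ℕ)),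
    (∃ j ∈ J, j.1 = E.1 ∧ ∀ s ∈ j.2, s ∈ clos R N [R.1]) ∧
    (∀ j ∈ J, ∀ m ∈ E.2.2, m.1.1 = j.1 → ∀ e', look E.2.2 m.1.1 m.1.2 = some e' →
      ∃ j' ∈ J, j'.1 = e' ∧ ∀ s ∈ j'.2, s ∈ clos R N (lstep R m.1.2 j.2)) ∧
    (∀ j ∈ J, j.1 ∈ E.2.1 → ∃ s ∈ j.2, s ∈ R.2.1)

end Pool.Agent.H69.As
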