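import Pool.Agent.H69.As.Certs

set_option autoImplicit false

namespace Pool.Agent.H69.As

/-- targets of non-left transitions -/
def stp (R : NA) (S : List ℕ) : List ℕ :=
  (R.2.2.filter fun τ => τ.2.1.1.isNone && S.any fun s => deqb s τ.1).map fun τ => τ.2.2

theorem mem_stp {R : NA} {S : List ℕ} {x : ℕ} :
    x ∈ stp R S ↔ ∃ s ∈ S, ∃ p, (s, (none, p), x) ∈ R.2.2 := by
  unfold stp
  simp only [List.mem_map, List.mem_filter, Bool.and_eq_true, Option.isNone_iff_eq_none,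
    List.any_eq_true, deqb_iff]
  constructor
  · rintro ⟨⟨s, ⟨o, p⟩, s'⟩, ⟨h1, h2, s₀, h3, h4⟩, rfl⟩
    simp only at h2 h4
    subst h2 h4
    exact ⟨s₀, h3, p, h1⟩
  · rintro ⟨s, hs, p, h⟩
    exact ⟨_, ⟨h, rfl, s, hs, rfl⟩, rfl⟩

theorem mem_lstep {R : NA} {S : List ℕ} {a x : ℕ} :
    x ∈ lstep R a S ↔ ∃ s ∈ S, ∃ p, (s, (some a, p), x) ∈ R.2.2 := by
  unfold lstep
  simp only [List.mem_map, List.mem_filter, Bool.and_eq_true,
    List.any_eq_true, deqb_iff]
  constructor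
  · rintro ⟨⟨s, ⟨o, p⟩, s'⟩, ⟨h1, h2, s₀, h3, h4⟩, rfl⟩
    simp only at h2 h4
    subst h2 h4
    exact ⟨s₀, h3, p, h1⟩
  · rintro ⟨s, hs, p, h⟩
    exact ⟨_, ⟨h, rfl, s, hs, rfl⟩, rfl⟩

theorem clos_zero (R : NA) (S : List ℕ) : clos R 0 S = S := rfl

theorem clos_succ (R : NA) (k : ℕ) (S : List ℕ) :
    clos R (k + 1) S = clos R k S ++ stp R (clos R k S) := by
  unfold clos
  rw [List.range_succ, List.foldl_append]
  rfl

theorem clos_mono_k {R : NA} {S : List ℕ} {k k' : ℕ} (h : k ≤ k') {x : ℕ}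
    (hx : x ∈ clos R k S) : x ∈ clos R k' S := by
  induction h with
  | refl => exact hx
  | step _ ih => rw [clos_succ]; exact List.mem_append_left _ ih

theorem stp_mono {R : NA} {S T : List ℕ} (h : ∀ x ∈ S, x ∈ T) {x : ℕ} (hx : x ∈ stp R S) :
    x ∈ stp R T := by
  rw [mem_stp] at hx ⊢
  obtain ⟨s, hs, p, hp⟩ := hx
  exact ⟨s, h s hs, p, hp⟩

theorem clos_mono {R : NA} {S T : List ℕ} (h : ∀ x ∈ S, x ∈ T) (k : ℕ) :
    ∀ x ∈ clos R k S, x ∈ clos R k T := by
  induction k with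
  | zero => exact h
  | succ k ih =>
    intro x hx
    rw [clos_succ] at hx ⊢
    rw [List.mem_append] at hx ⊢
    rcases hx with hx | hx
    · exact Or.inl (ih x hx)
    · exact Or.inr (stp_mono ih hx)

theorem clos_sound {R : NA} {S : List ℕ} {k x : ℕ} (hx : x ∈ clos R k S) :
    ∃ s ∈ S, ∃ v, Path R.2.2 s [] v x := by
  induction k generalizing x with
  | zero => exact ⟨x, hx, [], Path.nil x⟩
  | succ k ih =>
    rw [clos_succ, List.mem_append] at hx
    rcases hx with hx | hx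
    · exact ih hx
    · obtain ⟨y, hy, p, hp⟩ := mem_stp.1 hx
      obtain ⟨s, hs, v, hv⟩ := ih hy
      exact ⟨s, hs, _, by simpa using hv.snoc hp⟩

theorem clos_cons {R : NA} {s s' x : ℕ} {k : ℕ} {p : Option ℕ} (h : (s, (none, p), s') ∈ R.2.2)
    (hx : x ∈ clos R k [s']) : x ∈ clos R (k + 1) [s] := by
  induction k generalizing x with
  | zero =>
    rw [clos_zero, List.mem_singleton] at hx
    subst hx
    rw [clos_succ, List.mem_append]
    right
    rw [mem_stp]
    exact ⟨s, by simp [clos_zero], p, h⟩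
  | succ k ih =>
    rw [clos_succ, List.mem_append] at hx
    rw [clos_succ, List.mem_append]
    rcases hx with hx | hx
    · exact Or.inl (ih hx)
    · exact Or.inr (stp_mono (fun x hx => ih hx) hx)

theorem clos_of_path {R : NA} {s x : ℕ} {u v : List ℕ} (h : Path R.2.2 s u v x) (hu : u = []) :
    ∃ k, x ∈ clos R k [s] := by
  induction h with
  | nil s => exact ⟨0, by simp [clos_zero]⟩
  | @cons s s' t o p u v h1 _ ih =>
    obtain ⟨ho, hu'⟩ := List.append_eq_nil_iff.1 hu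
    have ho' : o = none := by
      cases o with
      | none => rfl
      | some b => simp at ho
    subst ho'
    obtain ⟨k, hk⟩ := ih hu'
    exact ⟨k + 1, clos_cons h1 hk⟩

/-- the last left letter is read somewhere -/
theorem Path.split_last {R : List Tr} {s t : ℕ} {u v : List ℕ} (h : Path R s u v t) :
    ∀ {p : List ℕ} {a : ℕ}, u = p ++ [a] → ∃ v₁ s₁ q s₂ v₂, Path R s p v₁ s₁ ∧
      (s₁, (some a, q), s₂) ∈ R ∧ Path R s₂ [] v₂ t := by
  induction h with
  | nil s => intro p a h; simp at h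
  | @cons s s' t o q u v h1 h2 ih =>
    intro p a h
    cases o with
    | none =>
      simp only [Option.toList_none, List.nil_append] at h
      obtain ⟨v₁, s₁, q', s₂, v₂, h3, h4, h5⟩ := ih h
      refine ⟨q.toList ++ v₁, s₁, q', s₂, v₂, ?_, h4, h5⟩
      simpa using Path.cons h1 h3
    | some b =>
      simp only [Option.toList_some, List.cons_append, List.nil_append] at h
      cases p with
      | nil =>
        simp only [List.nil_append, List.cons.injEq] at h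
        obtain ⟨rfl, rfl⟩ := h
        exact ⟨[], s, q, s', v, Path.nil s, h1, h2⟩
      | cons c p =>
        simp only [List.cons_append, List.cons.injEq] at h
        obtain ⟨rfl, h⟩ := h
        obtain ⟨v₁, s₁, q', s₂, v₂, h3, h4, h5⟩ := ih h
        refine ⟨q.toList ++ v₁, s₁, q', s₂, v₂, ?_, h4, h5⟩
        simpa using Path.cons h1 h3

theorem run_snoc {E : FSA} {q q' : ℕ} {p : List ℕ} {a : ℕ} :
    run E q (p ++ [a]) = some q' ↔ ∃ r, run E q p = some r ∧ look E.2.2 r a = some q' := by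
  rw [run_append, Option.bind_eq_some_iff]
  constructor
  · rintro ⟨r, h1, h2⟩
    rw [run_cons] at h2
    obtain ⟨x, h3, h4⟩ := Option.bind_eq_some_iff.1 h2
    simp only [run_nil, Option.some.injEq] at h4
    exact ⟨r, h1, h4 ▸ h3⟩
  · rintro ⟨r, h1, h2⟩
    exact ⟨r, h1, by rw [run_cons, h2]; rfl⟩

theorem DomC.sound {E : FSA} {R : NA} (h : DomC E R) {t : List ℕ} (ht : FAcc E t) :
    ∃ t', NAcc R t t' := by
  obtain ⟨N, J, h1, h2, h3⟩ := h
  have key : ∀ (p : List ℕ) (e : ℕ), run E E.1 p = some e →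
      ∃ j ∈ J, j.1 = e ∧ ∀ s ∈ j.2, ∃ v, Path R.2.2 R.1 p v s := by
    intro p
    induction p using List.reverseRecOn with
    | nil =>
      intro e he
      simp only [run_nil, Option.some.injEq] at he
      obtain ⟨j, hj, hje, hjs⟩ := h1
      refine ⟨j, hj, by rw [hje, he], fun s hs => ?_⟩
      obtain ⟨s₀, hs₀, v, hv⟩ := clos_sound (hjs s hs)
      rw [List.mem_singleton] at hs₀
      subst hs₀
      exact ⟨v, hv⟩
    | append_singleton p a ih =>
      intro e he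
      obtain ⟨r, hr, hl⟩ := run_snoc.1 he
      obtain ⟨j, hj, hje, hjs⟩ := ih r hr
      subst hje
      obtain ⟨j', hj', hje', hjs'⟩ := h2 j hj _ (look_mem hl) rfl e hl
      refine ⟨j', hj', hje', fun s hs => ?_⟩
      obtain ⟨s₁, hs₁, v, hv⟩ := clos_sound (hjs' s hs)
      obtain ⟨s₀, hs₀, q, hq⟩ := mem_lstep.1 hs₁
      obtain ⟨w, hw⟩ := hjs s₀ hs₀
      exact ⟨_, by simpa using (hw.snoc hq).trans hv⟩
  obtain ⟨e, he, hacc⟩ := ht
  obtain ⟨j, hj, hje, hjs⟩ := key t e he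
  obtain ⟨s, hs, hs'⟩ := h3 j hj (hje ▸ hacc)
  obtain ⟨v, hv⟩ := hjs s hs
  exact ⟨v, s, hs', hv⟩

theorem DomC.complete {E : FSA} {R : NA} (h : ∀ t, FAcc E t → ∃ t', NAcc R t t') :
    DomC E R := by
  classical
  -- uniform closure bound
  obtain ⟨N, hN⟩ : ∃ N, ∀ s ∈ nstates R, ∀ x ∈ nstates R, (∃ v, Path R.2.2 s [] v x) →
      x ∈ clos R N [s] := by
    have h1 : ∀ y : ℕ × ℕ, ∃ k, (∃ v, Path R.2.2 y.1 [] v y.2) → y.2 ∈ clos R k [y.1] := by
      intro y
      by_cases hy : ∃ v, Path R.2.2 y.1 [] v y.2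
      · obtain ⟨v, hv⟩ := hy
        obtain ⟨k, hk⟩ := clos_of_path hv rfl
        exact ⟨k, fun _ => hk⟩
      · exact ⟨0, fun h => absurd h hy⟩
    choose k hk using h1
    refine ⟨((nstates R).toFinset ×ˢ (nstates R).toFinset).sup k, ?_⟩
    intro s hs x hx hv
    refine clos_mono_k ?_ (hk (s, x) hv)
    exact Finset.le_sup (f := k) (by simp [hs, hx])
  have hN' : ∀ (S : List ℕ), (∀ s ∈ S, s ∈ nstates R) → ∀ s ∈ S, ∀ x v,
      Path R.2.2 s [] v x → x ∈ clos R N S := by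
    intro S hS s hs x v hv
    have hx : x ∈ nstates R := hv.mem_states (hS s hs)
    exact clos_mono (by simpa using hs) N x (hN s (hS s hs) x hx ⟨v, hv⟩)
  set P : List ℕ → List ℕ := fun t => (nstates R).filter fun s => ∃ v, Path R.2.2 R.1 t v s with hP
  have memP : ∀ t s, s ∈ P t ↔ ∃ v, Path R.2.2 R.1 t v s := by
    intro t s
    rw [hP]
    simp only [List.mem_filter, decide_eq_true_eq]
    constructor
    · exact fun h => h.2
    · rintro ⟨v, hv⟩
      exact ⟨hv.mem_states (nstart_mem R), v, hv⟩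
  have Psub : ∀ t, ∀ s ∈ P t, s ∈ nstates R := fun t s hs => List.mem_of_mem_filter hs
  set Y : Set (ℕ × List ℕ) := {y | ∃ t, run E E.1 t = some y.1 ∧ y.2 = P t} with hY
  have hYf : Y.Finite := by
    refine Set.Finite.subset ((List.finite_toSet (fstates E)).prod
      (List.finite_toSet (nstates R).sublists)) ?_
    rintro ⟨e, Q⟩ ⟨t, h1, h2⟩
    simp only at h1 h2
    refine ⟨run_mem_states (start_mem_states E) h1, ?_⟩
    change Q ∈ (nstates R).sublists
    rw [List.mem_sublists, h2]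
    exact List.filter_sublist
  refine ⟨N, hYf.toFinset.toList, ⟨(E.1, P []), ?_, rfl, ?_⟩, ?_, ?_⟩
  · rw [Finset.mem_toList, Set.Finite.mem_toFinset]
    exact ⟨[], rfl, rfl⟩
  · intro s hs
    obtain ⟨v, hv⟩ := (memP _ _).1 hs
    exact hN' [R.1] (by simpa using nstart_mem R) R.1 (by simp) s v hv
  · intro j hj m hm hmj e' he'
    rw [Finset.mem_toList, Set.Finite.mem_toFinset] at hj
    obtain ⟨t, h1, h2⟩ := hj
    refine ⟨(e', P (t ++ [m.1.2])), ?_, rfl, ?_⟩
    · rw [Finset.mem_toList, Set.Finite.mem_toFinset]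
      refine ⟨t ++ [m.1.2], run_snoc.2 ⟨j.1, h1, ?_⟩, rfl⟩
      rw [← hmj]
      exact he'
    · intro s hs
      obtain ⟨v, hv⟩ := (memP _ _).1 hs
      obtain ⟨v₁, s₁, q, s₂, v₂, h3, h4, h5⟩ := hv.split_last rfl
      rw [h2]
      refine hN' _ ?_ s₂ ?_ s v₂ h5
      · intro x hx
        obtain ⟨_, _, p, hp⟩ := mem_lstep.1 hx
        exact List.mem_cons_of_mem _ (List.mem_map.2 ⟨_, hp, rfl⟩)
      · rw [mem_lstep]
        exact ⟨s₁, (memP _ _).2 ⟨v₁, h3⟩, q, h4⟩
  · intro j hj hacc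
    rw [Finset.mem_toList, Set.Finite.mem_toFinset] at hj
    obtain ⟨t, h1, h2⟩ := hj
    obtain ⟨t', s, hs, hp⟩ := h t ⟨j.1, h1, hacc⟩
    exact ⟨s, by rw [h2]; exact (memP _ _).2 ⟨t', hp⟩, hs⟩

end Pool.Agent.H69.As
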