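import Pool.Agent.H69.As.Pres

/-!
# The decision results
-/

set_option autoImplicit false

namespace Pool.Agent.H69.As

theorem mach_eq (d : AData) : mach d = mc d.2.2 := rfl

/-- The list of words extracted from the automata: the relators of short accepted pairs together
with the relators which are trivial in the free group. -/
def lst (d : AData) : List SW := lw d.1 (mach d)

theorem lst_comp : RC ∅ lst := by
  have h : ∀ d : AData, lst d = (RelsM d.1 d.2.2).map fun r => r.1 ++ [(false, r.2)] :=
    fun d => rfl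
  refine RC.of_eq ?_ fun d => (h d).symm
  fun_prop

theorem exists_str_iff {d : AData} : (∃ (G : Type) (_ : Group G) (f : Fin d.1 → G), IsStr d f) ↔
    CertOK d.1 (TA d) (mach d) := by
  constructor
  · rintro ⟨G, hG, f, h⟩
    exact (isStr_iff.1 h).certOK
  · intro h
    have hv := h.valid fun t => ta_prp
    refine ⟨_, _, fun i => valG d.1 (Rels d.1 (mach d)) (i.val + 1), isStr_iff.2 ?_⟩
    have e : ∀ x ≤ d.1, valG d.1 (Rels d.1 (mach d)) x =
        valOf (fun i : Fin d.1 => valG d.1 (Rels d.1 (mach d)) (i.val + 1)) x := by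
      intro x hx
      unfold valOf
      split_ifs with h
      · simp only
        congr 1
        omega
      · have : x = 0 := by omega
        rw [this, valG_zero]
    exact hv.of_iso (MulEquiv.refl _) e

theorem str_decidable :
    ComputablePred fun d : AData => ∃ (G : Type) (_ : Group G) (f : Fin d.1 → G), IsStr d f := by
  have h1 : Sg fun d : AData => CertOK d.1 (TA d) (mc d.2.2) :=
    sg_CertOK (n := fun d : AData => d.1) (E := fun d => TA d) (Ms := fun d => d.2.2)
      (by fun_prop) (by fun_prop) (by fun_prop)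
  have h2 : Sg fun d : AData => Viol d.1 (TA d) (mc d.2.2) :=
    sg_Viol (n := fun d : AData => d.1) (E := fun d => TA d) (Ms := fun d => d.2.2)
      (by fun_prop) (by fun_prop) (by fun_prop)
  refine Sg.decidable (h1.of_iff fun d => exists_str_iff) h2 fun d => ?_
  rw [exists_str_iff]
  constructor
  · intro h
    by_contra hne
    exact h (valid_of_not_viol (fun t => ta_prp) hne).certOK
  · intro h hc
    exact (hc.valid fun t => ta_prp).not_viol h

theorem sg_QP : Sg fun q : AData × List SW => QP q.1.1 (TA q.1) (mc q.1.2.2) q.2 := by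
  unfold QP
  refine Sg.and ?_ ?_
  · exact sg_CertOK (n := fun q : AData × List SW => q.1.1) (E := fun q => TA q.1)
      (Ms := fun q => q.1.2.2) (by fun_prop) (by fun_prop) (by fun_prop)
  · refine Sg.ball (by fun_prop) ?_
    refine (Sg.ex (β := List ℕ × List ℕ) (p := fun (q : (AData × List SW) × SW) t =>
      FAcc (TA q.1.1) t.1 ∧ Chain (FAcc (TA q.1.1)) (Ach (mc q.1.1.2.2)) (nrm q.1.1.1 q.2) t.1 t.2 ∧
        AAcc (mc q.1.1.2.2 0) t.1 t.2) ?_).of_iff ?_
    · refine Sg.and ?_ (Sg.and ?_ ?_)
      · exact Sg.of_bool (c := fun q : ((AData × List SW) × SW) × (List ℕ × List ℕ) =>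
          faccb (TA q.1.1.1) q.2.1) (by fun_prop) fun q => faccb_iff.symm
      · refine sg_Chain (E := fun q : ((AData × List SW) × SW) × (List ℕ × List ℕ) => TA q.1.1.1)
          (Ms := fun q => q.1.1.1.2.2) (ys := fun q => nrm q.1.1.1.1 q.1.2) (c := fun q => q.2.1)
          (c' := fun q => q.2.2) (by fun_prop) (by fun_prop) ?_ (by fun_prop)
          (by fun_prop)
        unfold nrm
        fun_prop
      · exact Sg.of_bool (c := fun q : ((AData × List SW) × SW) × (List ℕ × List ℕ) =>
          accb (mc q.1.1.1.2.2 0) q.2.1 q.2.2) (by fun_prop) fun q => accb_iff.symm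
    · intro q
      simp only [Prod.exists]

theorem sg_QN : Sg fun q : AData × List SW => QN q.1.1 (TA q.1) (mc q.1.2.2) q.2 := by
  unfold QN
  refine Sg.or ?_ ?_
  · exact sg_Viol (n := fun q : AData × List SW => q.1.1) (E := fun q => TA q.1)
      (Ms := fun q => q.1.2.2) (by fun_prop) (by fun_prop) (by fun_prop)
  · refine Sg.bex (by fun_prop) ?_
    refine (Sg.ex (β := List ℕ × List ℕ) (p := fun (q : (AData × List SW) × SW) t =>
      FAcc (TA q.1.1) t.1 ∧ Chain (FAcc (TA q.1.1)) (Ach (mc q.1.1.2.2)) (nrm q.1.1.1 q.2) t.1 t.2 ∧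
        ¬ AAcc (mc q.1.1.2.2 0) t.1 t.2) ?_).of_iff ?_
    · refine Sg.and ?_ (Sg.and ?_ ?_)
      · exact Sg.of_bool (c := fun q : ((AData × List SW) × SW) × (List ℕ × List ℕ) =>
          faccb (TA q.1.1.1) q.2.1) (by fun_prop) fun q => faccb_iff.symm
      · refine sg_Chain (E := fun q : ((AData × List SW) × SW) × (List ℕ × List ℕ) => TA q.1.1.1)
          (Ms := fun q => q.1.1.1.2.2) (ys := fun q => nrm q.1.1.1.1 q.1.2) (c := fun q => q.2.1)
          (c' := fun q => q.2.2) (by fun_prop) (by fun_prop) ?_ (by fun_prop)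
          (by fun_prop)
        unfold nrm
        fun_prop
      · exact Sg.of_bool (c := fun q : ((AData × List SW) × SW) × (List ℕ × List ℕ) =>
          !accb (mc q.1.1.1.2.2 0) q.2.1 q.2.2) (by fun_prop) fun q => not_aacc
    · intro q
      simp only [Prod.exists]

theorem QP_decidable :
    ComputablePred fun q : AData × List SW => QP q.1.1 (TA q.1) (mach q.1) q.2 :=
  Sg.decidable sg_QP sg_QN fun _ => not_QP fun _ => ta_prp

theorem str_pres (d : AData) (P : List SW) : IsStr d (gen d.1 P) ↔
    QP d.1 (TA d) (mach d) P ∧ ∀ w ∈ lst d, Triv d.1 P w := by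
  rw [isStr_iff]
  exact valid_pres fun t => ta_prp

/-- a valid structure presents its group -/
theorem str_presents {d : AData} {G : Type} [Group G] {f : Fin d.1 → G} (h : IsStr d f) :
    ∃ θ : GP d.1 (lst d) ≃* G, ∀ i, θ (gen d.1 (lst d) i) = f i := by
  have hv := isStr_iff.1 h
  have hw : Valid d.1 (TA d) (mach d) (valOf (gen d.1 (lst d))) := by
    rw [valid_pres fun t => ta_prp]
    refine ⟨⟨hv.certOK, fun r hr => ?_⟩, fun w hw => ?_⟩
    · obtain ⟨c, hc, _⟩ := hv.onto 1
      obtain ⟨c', _, h3⟩ := hv.chain_exists (nrm d.1 r) nrm_labels hc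
      refine ⟨c, c', hc, h3, (hv.chain_end nrm_labels hc h3).2 ?_⟩
      rw [vsS_nrm ?_ hv.zero]
      · exact lw_triv.2 (fun r hr => hv.rels hr) r hr
      · intro x hx
        unfold valOf
        rw [dif_neg (by omega)]
    · exact PresentedGroup.one_of_mem ⟨w, hw, rfl⟩
  obtain ⟨θ, hθ⟩ := hw.iso hv
  refine ⟨θ, fun i => ?_⟩
  have h1 := hθ (i.val + 1) i.isLt
  rwa [valOf_succ, valOf_succ] at h1

theorem str_of_wp (S : Set (ℕ × List SW)) (wp : (ℕ × List SW) × SW → Bool) (hc : Computable wp)
    (hwp : ∀ p ∈ S, ∀ w, wp (p, w) = true ↔ Triv p.1 p.2 w) :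
    ∃ dec : AData × List SW → Bool, Computable dec ∧
      ∀ (d : AData) P, (d.1, P) ∈ S → (dec (d, P) = true ↔ IsStr d (gen d.1 P)) := by
  obtain ⟨hdec, hQ⟩ := QP_decidable
  have hQ' : RC ∅ fun q : AData × List SW =>
      decide (QP q.1.1 (TA q.1) (mach q.1) q.2) := Computable.rc hQ
  have hwp' : RC ∅ wp := Computable.rc hc
  have hl := lst_comp
  refine ⟨fun q => decide (QP q.1.1 (TA q.1) (mach q.1) q.2) &&
    (lst q.1).all fun w => wp ((q.1.1, q.2), w), ?_, ?_⟩
  · refine RC.computable (RC.and hQ' ?_)
    refine RC.list_all (f := fun q : AData × List SW => lst q.1)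
      (h := fun q w => wp ((q.1.1, q.2), w)) (RC.comp hl (by fun_prop)) ?_
    exact RC.comp (f := wp) (g := fun q : (AData × List SW) × SW => ((q.1.1.1, q.1.2), q.2))
      hwp' (by fun_prop)
  · intro d P hS
    rw [str_pres, Bool.and_eq_true, decide_eq_true_eq, List.all_eq_true]
    refine and_congr Iff.rfl (forall₂_congr fun w _ => ?_)
    exact hwp _ hS w

/-! ### The reduction from triviality -/

theorem dtriv_comp : Computable dtriv := by
  refine RC.computable ?_
  unfold dtriv
  fun_prop

theorem mtriv_acc {n : ℕ} {u v : List (Fin n)} : AAcc mtriv (tape u) (tape v) ↔ u = [] ∧ v = [] := by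
  constructor
  · intro h
    unfold AAcc at h
    have e1 : mtriv.1 = 0 := rfl
    have e2 : mtriv.2.1 = 2 := rfl
    rw [e1, e2] at h
    have l0 : ∀ a s, look mtriv.2.2.2 0 a = some s → a = 0 ∧ s = 1 := by
      intro a s h
      have := look_mem h
      simp only [mtriv, List.mem_cons, Prod.mk.injEq, List.not_mem_nil, or_false] at this
      omega
    have l1 : ∀ a s, look mtriv.2.2.2 1 a = some s → a = 0 ∧ s = 2 := by
      intro a s h
      have := look_mem h
      simp only [mtriv, List.mem_cons, Prod.mk.injEq, List.not_mem_nil, or_false] at this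
      omega
    have l2 : ∀ a s, look mtriv.2.2.2 2 a = some s → False := by
      intro a s h
      have := look_mem h
      simp only [mtriv, List.mem_cons, Prod.mk.injEq, List.not_mem_nil, or_false] at this
      omega
    generalize hl : tape u = l at h
    generalize hr : tape v = r at h
    cases h with
    | left h1 h2 h3 =>
      obtain ⟨ha, hs⟩ := l0 _ _ h2
      subst ha hs
      cases h3 with
      | left h4 h5 h6 =>
        exfalso
        simp [mtriv] at h4
      | right h4 h5 h6 =>
        obtain ⟨ha, hs⟩ := l1 _ _ h5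
        subst ha hs
        cases h6 with
        | nil =>
          unfold tape at hl hr
          constructor
          · cases u with
            | nil => rfl
            | cons i u => simp at hl
          · cases v with
            | nil => rfl
            | cons i v => simp at hr
        | left h7 h8 h9 => exact (l2 _ _ h8).elim
        | right h7 h8 h9 => exact (l2 _ _ h8).elim
    | right h1 h2 h3 =>
      exfalso
      simp [mtriv] at h1
  · rintro ⟨rfl, rfl⟩
    refine Rd.left (s' := 1) (by simp [mtriv]) (by simp [mtriv, look]) ?_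
    refine Rd.right (s' := 2) (by simp [mtriv]) (by simp [mtriv, look]) ?_
    exact Rd.nil _

theorem dtriv_str {n : ℕ} {G : Type} [Group G] (f : Fin n → G) :
    IsStr (dtriv n) f ↔ Subsingleton G := by
  have hW : ∀ w : List (Fin n), WAcc (dtriv n) w ↔ w = [] := by
    intro w
    change FAcc (0, [0], []) (w.map fun i => i.val + 1) ↔ w = []
    unfold FAcc
    constructor
    · rintro ⟨q, h1, h2⟩
      cases w with
      | nil => rfl
      | cons i w =>
        rw [List.map_cons, run_cons] at h1
        obtain ⟨s, h3, _⟩ := Option.bind_eq_some_iff.1 h1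
        have := look_mem h3
        simp at this
    · rintro rfl
      exact ⟨0, rfl, by simp⟩
  have hM : ∀ x ≤ n, mach (dtriv n) x = mtriv := by
    intro x hx
    unfold mach dtriv
    simp only
    rw [List.getElem?_replicate, if_pos (by omega)]
    rfl
  constructor
  · rintro ⟨h1, _, _⟩
    refine ⟨fun a b => ?_⟩
    obtain ⟨w, hw, rfl⟩ := h1 a
    obtain ⟨w', hw', rfl⟩ := h1 b
    rw [(hW w).1 hw, (hW w').1 hw']
  · intro hs
    refine ⟨fun g => ⟨[], (hW []).2 rfl, Subsingleton.elim _ _⟩, ?_, ?_⟩
    · intro u v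
      rw [hM 0 (Nat.zero_le _), mtriv_acc, hW, hW]
      constructor
      · rintro ⟨h1, h2⟩; exact ⟨h1, h2, Subsingleton.elim _ _⟩
      · rintro ⟨h1, h2, _⟩; exact ⟨h1, h2⟩
    · intro x u v
      rw [hM (x.val + 1) x.isLt, mtriv_acc, hW, hW]
      constructor
      · rintro ⟨h1, h2⟩; exact ⟨h1, h2, Subsingleton.elim _ _⟩
      · rintro ⟨h1, h2, _⟩; exact ⟨h1, h2⟩

end Pool.Agent.H69.As
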