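import Pool.Agent.H69.As.Sig

/-!
# Computability of the constructions
-/

set_option autoImplicit false

namespace Pool.Agent.H69.As

section
variable {O : Set (ℕ →. ℕ)}
variable {α β γ δ σ φ : Type}
variable [Primcodable α] [Primcodable β] [Primcodable γ] [Primcodable δ] [Primcodable σ]
variable [Primcodable φ]

@[fun_prop] theorem rc_look {T : α → Tab} {q a : α → ℕ} (hT : RC O T) (hq : RC O q)
    (ha : RC O a) : RC O fun x => look (T x) (q x) (a x) := by
  simp only [look_def]
  fun_prop

@[fun_prop] theorem rc_run {E : α → FSA} {q : α → ℕ} {t : α → List ℕ} (hE : RC O E)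
    (hq : RC O q) (ht : RC O t) : RC O fun x => run (E x) (q x) (t x) := by
  unfold run
  fun_prop

/-- acceptance test -/
def faccb (E : FSA) (t : List ℕ) : Bool := (run E E.1 t).elim false fun q => memb q E.2.1

theorem faccb_iff {E : FSA} {t : List ℕ} : faccb E t = true ↔ FAcc E t := by
  unfold faccb FAcc
  cases run E E.1 t with
  | none => simp
  | some q => simp

@[fun_prop] theorem rc_faccb {E : α → FSA} {t : α → List ℕ} (hE : RC O E)
    (ht : RC O t) : RC O fun x => faccb (E x) (t x) := by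
  unfold faccb
  fun_prop

/-- Boolean form of `micro` -/
def microb (M : ASA) (c : ℕ × List ℕ × List ℕ) : Option (ℕ × List ℕ × List ℕ) :=
  bif memb c.1 M.2.2.1 then
    c.2.1.head?.elim (some c) fun a =>
      (look M.2.2.2 c.1 a).map fun s => (s, c.2.1.drop 1, c.2.2)
  else
    c.2.2.head?.elim (some c) fun a =>
      (look M.2.2.2 c.1 a).map fun s => (s, c.2.1, c.2.2.drop 1)

theorem micro_eq (M : ASA) (c : ℕ × List ℕ × List ℕ) : micro M c = microb M c := by
  obtain ⟨s, l, r⟩ := c
  unfold micro microb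
  by_cases h : s ∈ M.2.2.1
  · have h' : memb s M.2.2.1 = true := memb_iff.2 h
    simp only [h, if_true, h', cond_true]
    cases l <;> rfl
  · have h' : memb s M.2.2.1 = false := memb_false.2 h
    simp only [h, if_false, h', cond_false]
    cases r <;> rfl

@[fun_prop] theorem rc_follow {M : α → ASA} {s : α → ℕ} {l r : α → List ℕ} (hM : RC O M)
    (hs : RC O s) (hl : RC O l) (hr : RC O r) :
    RC O fun x => follow (M x) (s x) (l x) (r x) := by
  have h : ∀ x, follow (M x) (s x) (l x) (r x) =
      (List.range ((l x).length + (r x).length)).foldl (fun o _ => o.bind fun c =>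
        microb (M x) c) (some (s x, l x, r x)) := by
    intro x
    unfold follow
    congr 1
    funext o _
    congr 1
    funext c
    exact micro_eq _ _
  refine RC.of_eq ?_ fun x => (h x).symm
  unfold microb
  fun_prop

@[fun_prop] theorem rc_accb {M : α → ASA} {u v : α → List ℕ} (hM : RC O M)
    (hu : RC O u) (hv : RC O v) : RC O fun x => accb (M x) (u x) (v x) := by
  unfold accb
  fun_prop

@[fun_prop] theorem rc_nstates {R : α → NA} (hR : RC O R) : RC O fun x => nstates (R x) := by
  unfold nstates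
  fun_prop

@[fun_prop] theorem rc_fstates {R : α → FSA} (hR : RC O R) : RC O fun x => fstates (R x) := by
  unfold fstates
  fun_prop

@[fun_prop] theorem rc_swap {R : α → NA} (hR : RC O R) : RC O fun x => swap (R x) := by
  unfold swap
  fun_prop

theorem ite_bif {p : Prop} [Decidable p] {b : Bool} (h : p ↔ b = true) {β : Type} (x y : β) :
    (if p then x else y) = bif b then x else y := by
  by_cases hp : p
  · rw [if_pos hp, h.1 hp]; rfl
  · rw [if_neg hp]
    cases b with
    | true => exact absurd (h.2 rfl) hp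
    | false => rfl

@[fun_prop] theorem rc_comp {R S : α → NA} (hR : RC O R) (hS : RC O S) :
    RC O fun x => comp (R x) (S x) := by
  unfold comp
  have h1 : ∀ o : Option ℕ, o = none ↔ o.isNone = true := by intro o; cases o <;> simp
  have h2 : ∀ o p : Option ℕ, (o ≠ none ∧ o = p) ↔ (o.isSome && deqb o p) = true := by
    intro o p; cases o <;> simp
  simp only [ite_bif (h1 _), ite_bif (h2 _ _)]
  fun_prop

@[fun_prop] theorem rc_tri {s e f : α → ℕ} (hs : RC O s) (he : RC O e) (hf : RC O f) :
    RC O fun x => tri (s x) (e x) (f x) := by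
  unfold tri
  fun_prop

@[fun_prop] theorem rc_prod {M : α → ASA} {E F : α → FSA} (hM : RC O M) (hE : RC O E)
    (hF : RC O F) : RC O fun x => prod (M x) (E x) (F x) := by
  unfold prod
  simp only [ite_bif (memb_iff (β := ℕ)).symm]
  fun_prop

@[fun_prop] theorem rc_idNA {E : α → FSA} (hE : RC O E) : RC O fun x => idNA (E x) := by
  unfold idNA
  fun_prop

@[fun_prop] theorem rc_tailNA {E : α → FSA} {e : α → ℕ} {l r : α → List ℕ} (hE : RC O E)
    (he : RC O e) (hl : RC O l) (hr : RC O r) :
    RC O fun x => tailNA (E x) (e x) (l x) (r x) := by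
  unfold tailNA
  fun_prop

/-- the automaton with label `x` -/
def mc (Ms : List ASA) (x : ℕ) : ASA := (Ms[x]?).getD (0, 0, [], [])

@[fun_prop] theorem rc_mc {Ms : α → List ASA} {x : α → ℕ} (hM : RC O Ms) (hx : RC O x) :
    RC O fun a => mc (Ms a) (x a) := by
  unfold mc
  fun_prop

/-- the link automaton -/
def lk (E : FSA) (Ms : List ASA) (y : Bool × ℕ) : NA := link E (mc Ms) y

@[fun_prop] theorem rc_lk {E : α → FSA} {Ms : α → List ASA} {y : α → Bool × ℕ} (hE : RC O E)
    (hM : RC O Ms) (hy : RC O y) : RC O fun a => lk (E a) (Ms a) (y a) := by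
  unfold lk link
  have h1 : ∀ b : Bool, b = true ↔ b = true := fun b => Iff.rfl
  simp only [ite_bif (h1 _)]
  fun_prop

def chNA (E : FSA) (Ms : List ASA) (R : NA) (ys : SW) : NA := chainNA E (mc Ms) R ys

@[fun_prop] theorem rc_chNA {E : α → FSA} {Ms : α → List ASA} {R : α → NA} {ys : α → SW}
    (hE : RC O E) (hM : RC O Ms) (hR : RC O R) (hy : RC O ys) :
    RC O fun a => chNA (E a) (Ms a) (R a) (ys a) := by
  have h : ∀ a, chNA (E a) (Ms a) (R a) (ys a) =
    (ys a).foldl (fun R y => comp R (lk (E a) (Ms a) y)) (R a) := fun a => rfl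
  refine RC.of_eq ?_ fun x => (h x).symm
  fun_prop

@[fun_prop] theorem rc_bnd {M : α → ASA} (hM : RC O M) : RC O fun a => bnd (M a) := by
  unfold bnd
  fun_prop

@[fun_prop] theorem rc_relr {x : α → ℕ} {u v : α → List ℕ} (hx : RC O x) (hu : RC O u)
    (hv : RC O v) : RC O fun a => relr (x a) (u a) (v a) := by
  unfold relr
  fun_prop

@[fun_prop] theorem rc_wordsLE {n B : α → ℕ} (hn : RC O n) (hB : RC O B) :
    RC O fun a => wordsLE (n a) (B a) := by
  unfold wordsLE
  fun_prop

@[fun_prop] theorem rc_basicRels {n : α → ℕ} (hn : RC O n) :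
    RC O fun a => basicRels (n a) := by
  unfold basicRels
  fun_prop

def sndR (n : ℕ) (Ms : List ASA) : List (SW × ℕ) := sndRels n (mc Ms)

@[fun_prop] theorem rc_sndR {n : α → ℕ} {Ms : α → List ASA} (hn : RC O n) (hM : RC O Ms) :
    RC O fun a => sndR (n a) (Ms a) := by
  unfold sndR sndRels
  fun_prop

def RelsM (n : ℕ) (Ms : List ASA) : List (SW × ℕ) := Rels n (mc Ms)

@[fun_prop] theorem rc_RelsM {n : α → ℕ} {Ms : α → List ASA} (hn : RC O n) (hM : RC O Ms) :
    RC O fun a => RelsM (n a) (Ms a) := by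
  have h : ∀ a, RelsM (n a) (Ms a) = basicRels (n a) ++ sndR (n a) (Ms a) := fun a => rfl
  refine RC.of_eq ?_ fun x => (h x).symm
  fun_prop

@[fun_prop] theorem rc_PT {n : α → ℕ} (hn : RC O n) : RC O fun a => PT (n a) := by
  unfold PT
  fun_prop

@[fun_prop] theorem rc_baseLab {a : α → ℕ} {r r' : α → List ℕ} (ha : RC O a) (hr : RC O r)
    (hr' : RC O r') : RC O fun x => baseLab (a x) (r x) (r' x) := by
  unfold baseLab
  fun_prop

@[fun_prop] theorem rc_clos {R : α → NA} {N : α → ℕ} {S : α → List ℕ} (hR : RC O R)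
    (hN : RC O N) (hS : RC O S) : RC O fun x => clos (R x) (N x) (S x) := by
  unfold clos
  fun_prop

@[fun_prop] theorem rc_lstep {R : α → NA} {N : α → ℕ} {S : α → List ℕ} (hR : RC O R)
    (hN : RC O N) (hS : RC O S) : RC O fun x => lstep (R x) (N x) (S x) := by
  unfold lstep
  fun_prop

def t3 (E E₁ : FSA) (Ms : List ASA) (x : ℕ) : NA := tri3 E E₁ (mc Ms) x

@[fun_prop] theorem rc_t3 {E E₁ : α → FSA} {Ms : α → List ASA} {x : α → ℕ} (hE : RC O E)
    (hE₁ : RC O E₁) (hM : RC O Ms) (hx : RC O x) :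
    RC O fun a => t3 (E a) (E₁ a) (Ms a) (x a) := by
  unfold t3 tri3
  fun_prop

@[fun_prop] theorem rc_tapeFSA {n : α → ℕ} {W : α → FSA} (hn : RC O n) (hW : RC O W) :
    RC O fun a => tapeFSA (n a) (W a) := by
  unfold tapeFSA
  fun_prop

@[fun_prop] theorem rc_pos {t : α → List ℕ} (ht : RC O t) : RC O fun a => pos (t a) := by
  unfold pos
  fun_prop

end

end Pool.Agent.H69.As
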