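import Mathlib

/-!
# Asynchronous automatic structures: the definitions of the statement

Tapes are lists of natural numbers. The letter `i : Fin n` is coded by `i + 1`, the
end-of-string symbol by `0`, so the word `w` is written on a tape as `w$`.
-/

set_option autoImplicit false

namespace Pool.Agent.H69.As

/-- A finite partial function `state, letter ↦ state`, given by a table. -/
abbrev Tab := List ((ℕ × ℕ) × ℕ)

/-- The value of the table: the first entry with the given key. -/
def look (T : Tab) (q a : ℕ) : Option ℕ := (T.find? fun e => decide (e.1 = (q, a))).map Prod.snd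

/-- (Partial, deterministic) finite state automaton: start state, accept states, table. -/
abbrev FSA := ℕ × List ℕ × Tab

/-- The state reached from `q` after reading `t`. -/
def run (E : FSA) (q : ℕ) (t : List ℕ) : Option ℕ :=
  t.foldl (fun o a => o.bind fun q => look E.2.2 q a) (some q)

/-- `E` accepts the string `t`. -/
def FAcc (E : FSA) (t : List ℕ) : Prop := ∃ q, run E E.1 t = some q ∧ q ∈ E.2.1

/-- Deterministic two-tape (asynchronous) automaton: start state, accept state,
the list of the states which read the left tape (all others read the right tape), table. -/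
abbrev ASA := ℕ × ℕ × List ℕ × Tab

/-- `Rd M s l r t`: starting in `s`, the automaton reads the whole string `l` on the left tape
and the whole string `r` on the right tape, and ends in `t`. -/
inductive Rd (M : ASA) : ℕ → List ℕ → List ℕ → ℕ → Prop
  | nil (s : ℕ) : Rd M s [] [] s
  | left {s a s' t : ℕ} {l r : List ℕ} : s ∈ M.2.2.1 → look M.2.2.2 s a = some s' →
      Rd M s' l r t → Rd M s (a :: l) r t
  | right {s a s' t : ℕ} {l r : List ℕ} : s ∉ M.2.2.1 → look M.2.2.2 s a = some s' →
      Rd M s' l r t → Rd M s l (a :: r) t

/-- `M` accepts the pair of tapes `(l, r)`. -/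
def AAcc (M : ASA) (l r : List ℕ) : Prop := Rd M M.1 l r M.2.1

/-- Input: size `n` of the alphabet, the word acceptor `W`, the list `[M_ε, M_1, …, M_n]`. -/
abbrev AData := ℕ × FSA × List ASA

/-- the automaton with label `x` (`0` is `ε`) -/
def mach (d : AData) (x : ℕ) : ASA := (d.2.2[x]?).getD (0, 0, [], [])

/-- the tape of a word -/
def tape {n : ℕ} (w : List (Fin n)) : List ℕ := w.map (fun i => i.val + 1) ++ [0]

/-- the word acceptor accepts the word `w` -/
def WAcc (d : AData) (w : List (Fin d.1)) : Prop := FAcc d.2.1 (w.map fun i => i.val + 1)

/-- `d` is an asynchronous automatic structure for the group `G` with generators `f`. -/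
def IsStr (d : AData) {G : Type} [Group G] (f : Fin d.1 → G) : Prop :=
  (∀ g : G, ∃ w, WAcc d w ∧ (w.map f).prod = g) ∧
  (∀ u v, AAcc (mach d 0) (tape u) (tape v) ↔
    WAcc d u ∧ WAcc d v ∧ (u.map f).prod = (v.map f).prod) ∧
  (∀ (x : Fin d.1) u v, AAcc (mach d (x.val + 1)) (tape u) (tape v) ↔
    WAcc d u ∧ WAcc d v ∧ (u.map f).prod * f x = (v.map f).prod)

/-! ### Presentations -/

/-- Signed words: `(true, i + 1)` stands for the generator `i`, `(false, i + 1)` for its
inverse; the other codes stand for the unit. -/
abbrev SW := List (Bool × ℕ)

/-- value of a signed string -/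
def vsS {G : Type} [Group G] (val : ℕ → G) (ys : SW) : G :=
  (ys.map fun s => if s.1 then val s.2 else (val s.2)⁻¹).prod

/-- the element of the free group with the given code -/
def toFree (n x : ℕ) : FreeGroup (Fin n) :=
  if h : 1 ≤ x ∧ x ≤ n then FreeGroup.of ⟨x - 1, by omega⟩ else 1

/-- the relators of the presentation with generators `1..n` and list of relators `P` -/
def pset (n : ℕ) (P : List SW) : Set (FreeGroup (Fin n)) := {g | ∃ r ∈ P, g = vsS (toFree n) r}

/-- the presented group -/
abbrev GP (n : ℕ) (P : List SW) : Type := PresentedGroup (pset n P)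

/-- its generators -/
def gen (n : ℕ) (P : List SW) (i : Fin n) : GP n P := PresentedGroup.of i

/-- the word `r` is trivial in the presented group -/
def Triv (n : ℕ) (P : List SW) (r : SW) : Prop :=
  PresentedGroup.mk (pset n P) (vsS (toFree n) r) = 1

/-! ### The structure with only the empty word -/

/-- the automaton accepting only the pair of empty words -/
def mtriv : ASA := (0, 2, [0], [((0, 0), 1), ((1, 0), 2)])

/-- The word acceptor accepts only the empty word and all the multiplier automata accept only
the pair of empty words. -/
def dtriv (n : ℕ) : AData := (n, (0, [0], []), List.replicate (n + 1) mtriv)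

end Pool.Agent.H69.As
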