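import Pool.Agent.H69.As.Trans

/-!
# Presentations
-/

set_option autoImplicit false

namespace Pool.Agent.H69.As

section
variable {n : ℕ} {E : FSA} {D : ℕ → ASA} {G : Type} [Group G] {val : ℕ → G}

theorem Valid.chain_exists (hv : Valid n E D val) (ys : SW) (hys : ∀ y ∈ ys, y.2 ≤ n)
    {c : List ℕ} (hc : FAcc E c) : ∃ c', FAcc E c' ∧ Chain (FAcc E) (Ach D) ys c c' := by
  induction ys generalizing c with
  | nil => exact ⟨c, hc, Chain.nil c⟩
  | cons y ys ih =>
    obtain ⟨b, x⟩ := y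
    have hx : x ≤ n := hys _ List.mem_cons_self
    have hys' : ∀ y ∈ ys, y.2 ≤ n := fun y hy => hys y (List.mem_cons_of_mem _ hy)
    cases b with
    | true =>
      obtain ⟨c₁, h1, h2⟩ := hv.onto (vs val c * val x)
      have h3 := (hv.mul x hx c c₁ (hv.prp c hc) (hv.prp c₁ h1)).2 ⟨hc, h1, h2.symm⟩
      obtain ⟨c', h4, h5⟩ := ih hys' h1
      exact ⟨c', h4, Chain.cons h1 (by simpa using h3) h5⟩
    | false =>
      obtain ⟨c₁, h1, h2⟩ := hv.onto (vs val c * (val x)⁻¹)
      have h3 := (hv.mul x hx c₁ c (hv.prp c₁ h1) (hv.prp c hc)).2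
        ⟨h1, hc, by rw [h2, inv_mul_cancel_right]⟩
      obtain ⟨c', h4, h5⟩ := ih hys' h1
      exact ⟨c', h4, Chain.cons h1 (by simpa using h3) h5⟩

theorem Valid.chain_end (hv : Valid n E D val) {ys : SW} (hys : ∀ y ∈ ys, y.2 ≤ n)
    {c c' : List ℕ} (hc : FAcc E c) (h : Chain (FAcc E) (Ach D) ys c c') :
    AAcc (D 0) c c' ↔ vsS val ys = 1 := by
  have hc' := h.mem hc
  have h1 := hv.chain (fun t ht => ht) hys hc h
  rw [hv.mul 0 (Nat.zero_le _) c c' (hv.prp c hc) (hv.prp c' hc'), hv.zero, mul_one]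
  constructor
  · rintro ⟨_, _, h2⟩
    rw [← h2] at h1
    exact mul_left_cancel (a := vs val c) (by rw [h1, mul_one])
  · intro h2
    exact ⟨hc, hc', by rw [← h1, h2, mul_one]⟩

theorem Valid.word_iff (hv : Valid n E D val) {G' : Type} [Group G'] {val' : ℕ → G'}
    (hv' : Valid n E D val') {ys : SW} (hys : ∀ y ∈ ys, y.2 ≤ n) :
    vsS val ys = 1 ↔ vsS val' ys = 1 := by
  obtain ⟨c, hc, _⟩ := hv.onto 1
  obtain ⟨c', _, h⟩ := hv.chain_exists ys hys hc
  rw [← hv.chain_end hys hc h, ← hv'.chain_end hys hc h]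

theorem Valid.iso (hv : Valid n E D val) {G' : Type} [Group G'] {val' : ℕ → G'}
    (hv' : Valid n E D val') : ∃ θ : G ≃* G', ∀ x ≤ n, θ (val x) = val' x := by
  have hle : ∀ t, FAcc E t → ∀ a ∈ t, a ≤ n := fun t ht => prp_le (hv.prp t ht)
  choose t ht hg using hv.onto
  have key : ∀ ys : SW, (∀ y ∈ ys, y.2 ≤ n) → vs val' (t (vsS val ys)) = vsS val' ys := by
    intro ys hys
    have l1 : ∀ y ∈ ys ++ ((t (vsS val ys)).reverse.map fun a => ((false, a) : Bool × ℕ)),
        y.2 ≤ n := by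
      intro y hy
      rcases List.mem_append.1 hy with hy | hy
      · exact hys y hy
      · obtain ⟨a, ha, rfl⟩ := List.mem_map.1 hy
        exact hle _ (ht _) a (List.mem_reverse.1 ha)
    have h1 := hv.word_iff hv' l1
    rw [vsS_append, vsS_append, vsS_neg, vsS_neg, hg, mul_inv_cancel] at h1
    exact (mul_inv_eq_one.1 (h1.1 rfl)).symm
  have key2 : ∀ s, (∀ a ∈ s, a ≤ n) → vs val' (t (vs val s)) = vs val' s := by
    intro s hs
    have h1 := key (pos s) (pos_labels hs)
    unfold pos at h1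
    rwa [vsS_pos, vsS_pos] at h1
  refine ⟨MulEquiv.ofBijective (MonoidHom.mk' (fun g => vs val' (t g)) ?_) ⟨?_, ?_⟩, ?_⟩
  · intro g h
    have h1 := key2 (t g ++ t h) (by
      intro a ha
      rcases List.mem_append.1 ha with ha | ha
      · exact hle _ (ht _) a ha
      · exact hle _ (ht _) a ha)
    rw [vs_append, hg, hg, vs_append] at h1
    exact h1
  · intro g h hgh
    simp only [MonoidHom.mk'_apply] at hgh
    have h1 := (hv'.mul 0 (Nat.zero_le _) (t g) (t h) (hv.prp _ (ht g)) (hv.prp _ (ht h))).2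
      ⟨ht g, ht h, by rw [hv'.zero, mul_one, hgh]⟩
    have h2 := ((hv.mul 0 (Nat.zero_le _) (t g) (t h) (hv.prp _ (ht g))
      (hv.prp _ (ht h))).1 h1).2.2
    rw [hv.zero, mul_one, hg, hg] at h2
    exact h2
  · intro g
    obtain ⟨s, hs, rfl⟩ := hv'.onto g
    exact ⟨vs val s, key2 s (hle s hs)⟩
  · intro x hx
    have h1 := key [(true, x)] (by simpa using hx)
    simp only [vsS_cons, vsS_nil, if_true, mul_one] at h1
    exact h1

theorem Valid.of_iso (hv : Valid n E D val) {G' : Type} [Group G'] {val' : ℕ → G'}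
    (θ : G ≃* G') (h : ∀ x ≤ n, θ (val x) = val' x) : Valid n E D val' := by
  have hs : ∀ s, (∀ a ∈ s, a ≤ n) → θ (vs val s) = vs val' s := by
    intro s hs
    induction s with
    | nil => simp
    | cons a s ih =>
      rw [vs_cons, vs_cons, map_mul, h a (hs a List.mem_cons_self),
        ih fun b hb => hs b (List.mem_cons_of_mem _ hb)]
  refine ⟨by rw [← h 0 (Nat.zero_le _), hv.zero, map_one], hv.prp, ?_, ?_⟩
  · intro g
    obtain ⟨t, ht, hg⟩ := hv.onto (θ.symm g)
    exact ⟨t, ht, by rw [← hs t (prp_le (hv.prp t ht)), hg, MulEquiv.apply_symm_apply]⟩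
  · intro x hx t t' ht ht'
    rw [hv.mul x hx t t' ht ht', ← hs t (prp_le ht), ← hs t' (prp_le ht'), ← h x hx, ← map_mul]
    simp only [EmbeddingLike.apply_eq_iff_eq]

end

/-- replace the codes which are not generators by `0` -/
def nrm (n : ℕ) (r : SW) : SW := r.map fun y => (y.1, bif leb y.2 n then y.2 else 0)

theorem nrm_labels {n : ℕ} {r : SW} : ∀ y ∈ nrm n r, y.2 ≤ n := by
  intro y hy
  unfold nrm at hy
  obtain ⟨z, _, rfl⟩ := List.mem_map.1 hy
  simp only
  cases h : leb z.2 n with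
  | true => exact leb_iff.1 h
  | false => exact Nat.zero_le _

theorem vsS_nrm {n : ℕ} {G : Type} [Group G] {val : ℕ → G} (h : ∀ x, n < x → val x = 1)
    (h0 : val 0 = 1) (r : SW) : vsS val (nrm n r) = vsS val r := by
  induction r with
  | nil => rfl
  | cons y r ih =>
    have e : nrm n (y :: r) = (y.1, bif leb y.2 n then y.2 else 0) :: nrm n r := rfl
    rw [e, vsS_cons, vsS_cons, ih]
    congr 1
    simp only
    cases h1 : leb y.2 n with
    | true => rfl
    | false =>
      have h2 : ¬ y.2 ≤ n := by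
        intro h3
        rw [leb_iff.2 h3] at h1
        exact absurd h1 (by simp)
      rw [cond_false, h0, h y.2 (by omega)]

theorem valOf_gen (n : ℕ) (P : List SW) (x : ℕ) :
    valOf (gen n P) x = PresentedGroup.mk (pset n P) (toFree n x) := by
  unfold valOf toFree
  split_ifs with h
  · rfl
  · rw [map_one]

theorem triv_iff {n : ℕ} {P : List SW} {r : SW} :
    Triv n P r ↔ vsS (valOf (gen n P)) r = 1 := by
  unfold Triv
  rw [vsS_hom]
  have : (fun x => PresentedGroup.mk (pset n P) (toFree n x)) = valOf (gen n P) := by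
    funext x
    exact (valOf_gen n P x).symm
  rw [this]

/-- the relators extracted from the automata -/
def lw (n : ℕ) (D : ℕ → ASA) : List SW := (Rels n D).map fun r => r.1 ++ [(false, r.2)]

/-- the decidable part of the validity for a presentation -/
def QP (n : ℕ) (E : FSA) (D : ℕ → ASA) (P : List SW) : Prop :=
  CertOK n E D ∧ ∀ r ∈ P, ∃ c c', FAcc E c ∧ Chain (FAcc E) (Ach D) (nrm n r) c c' ∧
    AAcc (D 0) c c'

def QN (n : ℕ) (E : FSA) (D : ℕ → ASA) (P : List SW) : Prop :=
  Viol n E D ∨ ∃ r ∈ P, ∃ c c', FAcc E c ∧ Chain (FAcc E) (Ach D) (nrm n r) c c' ∧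
    ¬ AAcc (D 0) c c'

theorem not_QP {n : ℕ} {E : FSA} {D : ℕ → ASA} {P : List SW} (hp : ∀ t, FAcc E t → Prp n t) :
    ¬ QP n E D P ↔ QN n E D P := by
  unfold QP QN
  constructor
  · intro h
    by_contra hne
    push Not at hne
    obtain ⟨h1, h2⟩ := hne
    have hv := valid_of_not_viol hp h1
    refine h ⟨hv.certOK, fun r hr => ?_⟩
    obtain ⟨c, hc, _⟩ := hv.onto 1
    obtain ⟨c', _, h3⟩ := hv.chain_exists (nrm n r) nrm_labels hc
    exact ⟨c, c', hc, h3, h2 r hr c c' hc h3⟩
  · rintro h ⟨h1, h2⟩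
    have hv := h1.valid hp
    rcases h with h | ⟨r, hr, c, c', hc, h3, h4⟩
    · exact hv.not_viol h
    · obtain ⟨d, d', hd, h5, h6⟩ := h2 r hr
      apply h4
      rw [hv.chain_end nrm_labels hc h3, ← hv.chain_end nrm_labels hd h5]
      exact h6

theorem lw_triv {n : ℕ} {D : ℕ → ASA} {G : Type} [Group G] {val : ℕ → G} :
    (∀ w ∈ lw n D, vsS val w = 1) ↔ ∀ r ∈ Rels n D, vsS val r.1 = val r.2 := by
  unfold lw
  constructor
  · intro h r hr
    have h1 := h _ (List.mem_map.2 ⟨r, hr, rfl⟩)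
    rw [vsS_append, vsS_cons] at h1
    simp only [Bool.false_eq_true, if_false, vsS_nil, mul_one, mul_inv_eq_one] at h1
    exact h1
  · intro h w hw
    obtain ⟨r, hr, rfl⟩ := List.mem_map.1 hw
    rw [vsS_append, vsS_cons]
    simp [h r hr]

/-- validity for the presented group -/
theorem valid_pres {n : ℕ} {E : FSA} {D : ℕ → ASA} {P : List SW}
    (hp : ∀ t, FAcc E t → Prp n t) :
    Valid n E D (valOf (gen n P)) ↔ QP n E D P ∧ ∀ w ∈ lw n D, Triv n P w := by
  have hP : ∀ r ∈ P, vsS (valOf (gen n P)) r = 1 := by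
    intro r hr
    rw [← triv_iff]
    exact PresentedGroup.one_of_mem ⟨r, hr, rfl⟩
  have hbig : ∀ x, n < x → valOf (gen n P) x = 1 := by
    intro x hx
    unfold valOf
    rw [dif_neg (by omega)]
  have h0 : valOf (gen n P) 0 = 1 := valOf_zero _
  simp only [triv_iff, lw_triv]
  constructor
  · intro hv
    refine ⟨⟨hv.certOK, fun r hr => ?_⟩, fun r hr => hv.rels hr⟩
    obtain ⟨c, hc, _⟩ := hv.onto 1
    obtain ⟨c', _, h3⟩ := hv.chain_exists (nrm n r) nrm_labels hc
    exact ⟨c, c', hc, h3, (hv.chain_end nrm_labels hc h3).2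
      (by rw [vsS_nrm hbig h0, hP r hr])⟩
  · rintro ⟨⟨h1, h2⟩, h3⟩
    have hv := h1.valid hp
    set Rs := Rels n D with hRs
    have hlab : ∀ r ∈ Rs, r.2 ≤ n ∧ ∀ y ∈ r.1, y.2 ≤ n := fun r hr => Rels_labels hr
    obtain ⟨θ, hθ⟩ := valG_univ hlab (GP n P) (valOf (gen n P)) h0 h3
    have hbig' : ∀ x, n < x → valG n Rs x = 1 := by
      intro x hx
      unfold valG toFree
      rw [dif_neg (by omega), map_one]
    have hPG : ∀ r ∈ P, vsS (valG n Rs) r = 1 := by
      intro r hr
      obtain ⟨c, c', hc, h4, h5⟩ := h2 r hr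
      have h6 := (hv.chain_end nrm_labels hc h4).1 h5
      rwa [vsS_nrm hbig' (valG_zero _ _)] at h6
    set f : Fin n → Gd n Rs := fun i => valG n Rs (i.val + 1) with hf
    have hlift : ∀ x, FreeGroup.lift f (toFree n x) = valG n Rs x := by
      intro x
      unfold toFree
      split_ifs with h
      · rw [FreeGroup.lift_apply_of, hf]
        simp only
        congr 1
        omega
      · rw [map_one]
        by_cases hx : x = 0
        · rw [hx, valG_zero]
        · rw [hbig' x (by omega)]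
    have hlift' : ∀ r : SW, FreeGroup.lift f (vsS (toFree n) r) = vsS (valG n Rs) r := by
      intro r
      rw [vsS_hom]
      exact vsS_congr fun y _ => hlift _
    have hrel : ∀ r ∈ pset n P, FreeGroup.lift f r = 1 := by
      rintro _ ⟨r, hr, rfl⟩
      rw [hlift', hPG r hr]
    set θ' : GP n P →* Gd n Rs := PresentedGroup.toGroup (f := f) hrel with hθ'
    have e1 : θ'.comp θ = MonoidHom.id _ := by
      apply PresentedGroup.ext
      intro i
      have h4 : (PresentedGroup.of i : Gd n Rs) = valG n Rs (i.val + 1) := by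
        unfold valG toFree
        rw [dif_pos ⟨by omega, by omega⟩]
        rfl
      rw [MonoidHom.comp_apply, h4, hθ _ i.isLt, valOf_succ]
      change θ' (PresentedGroup.of i) = _
      rw [hθ', PresentedGroup.toGroup.of]
      rfl
    have e2 : θ.comp θ' = MonoidHom.id _ := by
      apply PresentedGroup.ext
      intro i
      rw [MonoidHom.comp_apply, hθ', PresentedGroup.toGroup.of, hf]
      simp only
      rw [hθ _ i.isLt, valOf_succ]
      rfl
    refine hv.of_iso (MonoidHom.toMulEquiv θ θ' e1 e2) fun x hx => ?_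
    exact hθ x hx

end Pool.Agent.H69.As
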