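import Pool.Agent.H69.As.Defs

set_option autoImplicit false

namespace Pool.Agent.H69.As

/-! ### Values -/

section Values
variable {G : Type} [Group G] {val : ℕ → G}

@[simp] theorem vs_nil : vs val [] = 1 := rfl

@[simp] theorem vs_cons (a : ℕ) (t : List ℕ) : vs val (a :: t) = val a * vs val t := by simp [vs]

@[simp] theorem vs_append (s t : List ℕ) : vs val (s ++ t) = vs val s * vs val t := by simp [vs]

@[simp] theorem vsS_nil : vsS val [] = 1 := rfl

theorem vsS_cons (y : Bool × ℕ) (t : SW) :
    vsS val (y :: t) = (if y.1 then val y.2 else (val y.2)⁻¹) * vsS val t := by simp [vsS]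

@[simp] theorem vsS_append (s t : SW) : vsS val (s ++ t) = vsS val s * vsS val t := by simp [vsS]

theorem vsS_pos (t : List ℕ) : vsS val (t.map fun a => (true, a)) = vs val t := by
  induction t with
  | nil => rfl
  | cons a t ih => rw [List.map_cons, vsS_cons, ih]; simp

theorem vsS_neg (t : List ℕ) : vsS val (t.reverse.map fun a => (false, a)) = (vs val t)⁻¹ := by
  induction t with
  | nil => simp
  | cons a t ih =>
    rw [List.reverse_cons, List.map_append, vsS_append, ih]
    simp [vsS_cons]

theorem vsS_hom {H : Type} [Group H] (θ : G →* H) (ys : SW) :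
    θ (vsS val ys) = vsS (fun x => θ (val x)) ys := by
  induction ys with
  | nil => simp
  | cons y ys ih =>
    rw [vsS_cons, vsS_cons, map_mul, ih]
    cases y.1 <;> simp

theorem vsS_congr {val' : ℕ → G} {ys : SW} (h : ∀ y ∈ ys, val y.2 = val' y.2) :
    vsS val ys = vsS val' ys := by
  induction ys with
  | nil => rfl
  | cons y ys ih =>
    rw [vsS_cons, vsS_cons, ih fun z hz => h z (List.mem_cons_of_mem _ hz),
      h y List.mem_cons_self]

end Values

end Pool.Agent.H69.As
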