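import Pool.Agent.H69.As.Window
import Pool.Agent.H69.As.Vals

set_option autoImplicit false

namespace Pool.Agent.H69.As

/-- split a run at a given time -/
theorem Rd.split_time {M : ASA} {s t : ℕ} {l r : List ℕ} (h : Rd M s l r t) :
    ∀ i : ℕ, i ≤ l.length + r.length → ∃ l₁ l₂ r₁ r₂ s', l = l₁ ++ l₂ ∧ r = r₁ ++ r₂ ∧
      l₁.length + r₁.length = i ∧ Rd M s l₁ r₁ s' ∧ Rd M s' l₂ r₂ t := by
  induction h with
  | nil s =>
    intro i hi
    simp only [List.length_nil, add_zero, Nat.le_zero] at hi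
    subst hi
    exact ⟨[], [], [], [], s, rfl, rfl, rfl, Rd.nil s, Rd.nil s⟩
  | @left s a s' t l r h1 h2 h3 ih =>
    intro i hi
    cases i with
    | zero => exact ⟨[], a :: l, [], r, s, rfl, rfl, rfl, Rd.nil s, Rd.left h1 h2 h3⟩
    | succ i =>
      obtain ⟨l₁, l₂, r₁, r₂, s'', e1, e2, e3, h4, h5⟩ := ih i (by
        simp only [List.length_cons] at hi; omega)
      refine ⟨a :: l₁, l₂, r₁, r₂, s'', by rw [e1]; rfl, e2, ?_, Rd.left h1 h2 h4, h5⟩
      simp only [List.length_cons]; omega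
  | @right s a s' t l r h1 h2 h3 ih =>
    intro i hi
    cases i with
    | zero => exact ⟨[], l, [], a :: r, s, rfl, rfl, rfl, Rd.nil s, Rd.right h1 h2 h3⟩
    | succ i =>
      obtain ⟨l₁, l₂, r₁, r₂, s'', e1, e2, e3, h4, h5⟩ := ih i (by
        simp only [List.length_cons] at hi; omega)
      refine ⟨l₁, l₂, a :: r₁, r₂, s'', e1, by rw [e2]; rfl, ?_, Rd.right h1 h2 h4, h5⟩
      simp only [List.length_cons]; omega

theorem okL_flag {n : ℕ} {a : Bool} {l t : List ℕ} (h : okL n a (l ++ t)) :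
    ∃ a' : Bool, okL n a' t ∧ ∀ A, okL n a' A → okL n a (l ++ A) := by
  cases a with
  | true =>
    have h' : l ++ t = [] := h
    obtain ⟨rfl, rfl⟩ := List.append_eq_nil_iff.1 h'
    exact ⟨true, rfl, fun A hA => hA⟩
  | false =>
    obtain ⟨a', h1, h2⟩ := exists_flag (n := n) (l := l) (t := t) h
    exact ⟨a', h1, fun A hA => h2 A hA⟩

theorem card_keys (M : ASA) :
    ((asts M).toFinset ×ˢ ((Finset.univ : Finset Bool) ×ˢ (Finset.univ : Finset Bool))).card ≤
      4 * (M.2.2.2.length + 1) := by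
  rw [Finset.card_product, Finset.card_product, Finset.card_univ, Fintype.card_bool]
  have h1 : (asts M).toFinset.card ≤ M.2.2.2.length + 1 := by
    refine (List.toFinset_card_le _).trans ?_
    simp [asts]
  omega

/-- two times with the same state and the same flags -/
theorem exists_repeat {n : ℕ} {M : ASA} {s t : ℕ} {a b : Bool} {l r : List ℕ}
    (h : Rd M s l r t) (hs : s ∈ asts M) (ha : okL n a l) (hb : okL n b r)
    (hlen : 4 * (M.2.2.2.length + 1) ≤ l.length + r.length) :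
    ∃ l₁ l₂ r₁ r₂ l₁' l₂' r₁' r₂' s' a' b', l = l₁ ++ l₂ ∧ r = r₁ ++ r₂ ∧ l = l₁' ++ l₂' ∧
      r = r₁' ++ r₂' ∧ l₁.length + r₁.length < l₁'.length + r₁'.length ∧
      l₁'.length + r₁'.length ≤ 4 * (M.2.2.2.length + 1) ∧
      Rd M s l₁ r₁ s' ∧ Rd M s l₁' r₁' s' ∧ Rd M s' l₂' r₂' t ∧ s' ∈ asts M ∧
      okL n a' l₂' ∧ okL n b' r₂' ∧
      (∀ A, okL n a' A → okL n a (l₁ ++ A) ∧ okL n a (l₁' ++ A)) ∧
      (∀ B, okL n b' B → okL n b (r₁ ++ B) ∧ okL n b (r₁' ++ B)) := by
  classical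
  set K := 4 * (M.2.2.2.length + 1) with hK
  have hsplit : ∀ i : ℕ, ∃ (l₁ l₂ r₁ r₂ : List ℕ) (s' : ℕ) (a' b' : Bool), i ≤ K →
      (l = l₁ ++ l₂ ∧ r = r₁ ++ r₂ ∧ l₁.length + r₁.length = i ∧ Rd M s l₁ r₁ s' ∧
        Rd M s' l₂ r₂ t ∧ okL n a' l₂ ∧ okL n b' r₂ ∧ (∀ A, okL n a' A → okL n a (l₁ ++ A)) ∧
        (∀ B, okL n b' B → okL n b (r₁ ++ B))) := by
    intro i
    by_cases hi : i ≤ K
    · obtain ⟨l₁, l₂, r₁, r₂, s', e1, e2, e3, h1, h2⟩ := h.split_time i (hi.trans hlen)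
      obtain ⟨a', h3, h4⟩ := okL_flag (e1 ▸ ha)
      obtain ⟨b', h5, h6⟩ := okL_flag (e2 ▸ hb)
      exact ⟨l₁, l₂, r₁, r₂, s', a', b', fun _ => ⟨e1, e2, e3, h1, h2, h3, h5, h4, h6⟩⟩
    · exact ⟨[], [], [], [], 0, true, true, fun h' => absurd h' hi⟩
  choose l₁ l₂ r₁ r₂ s' a' b' hd using hsplit
  obtain ⟨i, hi, j, hj, hij, heq⟩ :=
    Finset.exists_ne_map_eq_of_card_lt_of_maps_to
      (s := Finset.range (K + 1))
      (t := (asts M).toFinset ×ˢ ((Finset.univ : Finset Bool) ×ˢ (Finset.univ : Finset Bool)))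
      (f := fun i => (s' i, (a' i, b' i)))
      (by
        rw [Finset.card_range]
        exact Nat.lt_succ_of_le (card_keys M))
      (by
        intro i hi
        simp only [Finset.coe_range, Set.mem_Iio] at hi
        simp only [Finset.coe_product, Set.mem_prod, Finset.mem_coe, List.mem_toFinset,
          Finset.mem_univ, and_true]
        exact (hd i (by omega)).2.2.2.1.mem_asts hs)
  simp only [Prod.mk.injEq] at heq
  rw [Finset.mem_range] at hi hj
  have key : ∀ i j : ℕ, i < j → j ≤ K → s' i = s' j → a' i = a' j → b' i = b' j →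
      ∃ l₁ l₂ r₁ r₂ l₁' l₂' r₁' r₂' s' a' b', l = l₁ ++ l₂ ∧ r = r₁ ++ r₂ ∧ l = l₁' ++ l₂' ∧
      r = r₁' ++ r₂' ∧ l₁.length + r₁.length < l₁'.length + r₁'.length ∧
      l₁'.length + r₁'.length ≤ K ∧
      Rd M s l₁ r₁ s' ∧ Rd M s l₁' r₁' s' ∧ Rd M s' l₂' r₂' t ∧ s' ∈ asts M ∧
      okL n a' l₂' ∧ okL n b' r₂' ∧
      (∀ A, okL n a' A → okL n a (l₁ ++ A) ∧ okL n a (l₁' ++ A)) ∧
      (∀ B, okL n b' B → okL n b (r₁ ++ B) ∧ okL n b (r₁' ++ B)) := by
    intro i j hlt hj e1 e2 e3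
    obtain ⟨i1, i2, i3, i4, i5, i6, i7, i8, i9⟩ := hd i (by omega)
    obtain ⟨j1, j2, j3, j4, j5, j6, j7, j8, j9⟩ := hd j hj
    refine ⟨l₁ i, l₂ i, r₁ i, r₂ i, l₁ j, l₂ j, r₁ j, r₂ j, s' j, a' j, b' j, i1, i2, j1, j2,
      by omega, by omega, e1 ▸ i4, j4, j5, j4.mem_asts hs, j6, j7, ?_, ?_⟩
    · intro A hA; exact ⟨i8 A (e2 ▸ hA), j8 A hA⟩
    · intro B hB; exact ⟨i9 B (e3 ▸ hB), j9 B hB⟩
  rcases lt_or_gt_of_ne hij with hlt | hlt
  · exact key i j hlt (by omega) heq.1 heq.2.1 heq.2.2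
  · exact key j i hlt (by omega) heq.1.symm heq.2.1.symm heq.2.2.symm

/-- short completions -/
theorem exists_short {n : ℕ} {M : ASA} {s t : ℕ} {a b : Bool} (hs : s ∈ asts M) :
    ∀ (m : ℕ) (l r : List ℕ), l.length + r.length = m → Rd M s l r t → okL n a l → okL n b r →
      ∃ A B, Rd M s A B t ∧ okL n a A ∧ okL n b B ∧
        A.length + B.length ≤ 4 * (M.2.2.2.length + 1) := by
  intro m
  induction m using Nat.strong_induction_on with
  | _ m ih =>
  intro l r hm h ha hb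
  by_cases hlen : l.length + r.length ≤ 4 * (M.2.2.2.length + 1)
  · exact ⟨l, r, h, ha, hb, hlen⟩
  · obtain ⟨l₁, l₂, r₁, r₂, l₁', l₂', r₁', r₂', s', a', b', e1, e2, e3, e4, h1, h2, h3, h4, h5, h6,
      h7, h8, h9, h10⟩ := exists_repeat (n := n) h hs ha hb (by omega)
    have hl := congrArg List.length e3
    have hr := congrArg List.length e4
    rw [List.length_append] at hl hr
    refine ih ((l₁ ++ l₂').length + (r₁ ++ r₂').length) ?_ _ _ rfl (h3.trans h5) (h9 _ h7).1
      (h10 _ h8).1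
    rw [List.length_append, List.length_append]
    omega

theorem pumping {n : ℕ} {M : ASA} {G : Type} [Group G] {val : ℕ → G} {g : G}
    (h : ∀ u v, Prp n u → Prp n v → u.length + v.length ≤ 8 * M.2.2.2.length + 20 →
      AAcc M u v → vs val u * g = vs val v) :
    ∀ u v, Prp n u → Prp n v → AAcc M u v → vs val u * g = vs val v := by
  have main : ∀ (m : ℕ) (u v : List ℕ), u.length + v.length = m → Prp n u → Prp n v →
      AAcc M u v → vs val u * g = vs val v := by
    intro m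
    induction m using Nat.strong_induction_on with
    | _ m ih =>
    intro u v hm hu hv hacc
    by_cases hlen : u.length + v.length ≤ 8 * M.2.2.2.length + 20
    · exact h u v hu hv hlen hacc
    · have hs : M.1 ∈ asts M := List.mem_cons_self
      obtain ⟨l₁, l₂, r₁, r₂, l₁', l₂', r₁', r₂', s', a', b', e1, e2, e3, e4, h1, h2, h3, h4, h5,
        h6, h7, h8, h9, h10⟩ := exists_repeat (n := n) (a := false) (b := false) hacc hs hu hv
          (by omega)
      obtain ⟨A, B, c1, c2, c3, c4⟩ := exists_short (n := n) (a := a') (b := b') h6 _ l₂' r₂' rfl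
        h5 h7 h8
      have hl := congrArg List.length e3
      have hr := congrArg List.length e4
      rw [List.length_append] at hl hr
      -- the three smaller pairs
      have p1 := ih ((l₁ ++ l₂').length + (r₁ ++ r₂').length)
        (by rw [List.length_append, List.length_append]; omega) _ _ rfl (h9 _ h7).1 (h10 _ h8).1
        (h3.trans h5)
      have p2 := ih ((l₁ ++ A).length + (r₁ ++ B).length)
        (by rw [List.length_append, List.length_append]; omega) _ _ rfl (h9 _ c2).1 (h10 _ c3).1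
        (h3.trans c1)
      have p3 := ih ((l₁' ++ A).length + (r₁' ++ B).length)
        (by rw [List.length_append, List.length_append]; omega) _ _ rfl (h9 _ c2).2 (h10 _ c3).2
        (h4.trans c1)
      rw [vs_append, vs_append] at p1 p2 p3
      rw [e3, e4, vs_append, vs_append]
      -- algebra
      have q1 : (vs val r₁)⁻¹ * vs val l₁ = vs val r₂' * g⁻¹ * (vs val l₂')⁻¹ := by
        rw [inv_mul_eq_iff_eq_mul]
        have : vs val l₁ = (vs val r₁ * vs val r₂') * g⁻¹ * (vs val l₂')⁻¹ := by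
          rw [← p1]; group
        rw [this]; group
      have q2 : (vs val r₁)⁻¹ * vs val l₁ = vs val B * g⁻¹ * (vs val A)⁻¹ := by
        rw [inv_mul_eq_iff_eq_mul]
        have : vs val l₁ = (vs val r₁ * vs val B) * g⁻¹ * (vs val A)⁻¹ := by
          rw [← p2]; group
        rw [this]; group
      have q3 : (vs val r₁')⁻¹ * vs val l₁' = vs val B * g⁻¹ * (vs val A)⁻¹ := by
        rw [inv_mul_eq_iff_eq_mul]
        have : vs val l₁' = (vs val r₁' * vs val B) * g⁻¹ * (vs val A)⁻¹ := by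
          rw [← p3]; group
        rw [this]; group
      have q4 : (vs val r₁')⁻¹ * vs val l₁' = vs val r₂' * g⁻¹ * (vs val l₂')⁻¹ := by
        rw [q3, ← q2, q1]
      have q5 : vs val l₁' = vs val r₁' * (vs val r₂' * g⁻¹ * (vs val l₂')⁻¹) := by
        rw [← q4]; group
      rw [q5]; group
  intro u v hu hv hacc
  exact main _ u v rfl hu hv hacc

end Pool.Agent.H69.As
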