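import Pool.Agent.H69.As.Dom
import Pool.Agent.H69.As.Vals

set_option autoImplicit false

namespace Pool.Agent.H69.As

/-! ### The cycle conditions -/

def basicRels (n : ℕ) : List (SW × ℕ) :=
  ([(true, 0), (false, 0)], 0) :: (List.range (n + 1)).flatMap fun x =>
    [([(true, x), (true, 0)], x), ([(false, x), (true, 0), (true, x)], 0),
      ([(true, x), (true, 0), (false, x)], 0)]

/-- all words over `1..n` of length at most `B` -/
def wordsLE (n B : ℕ) : List (List ℕ) :=
  (List.range B).foldl (fun L _ => [] :: L.flatMap fun w => (List.range n).map fun i =>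
    (i + 1) :: w) [[]]

/-- acceptance test -/
def accb (M : ASA) (u v : List ℕ) : Bool := deqb (follow M M.1 u v) (some (M.2.1, [], []))

theorem accb_iff {M : ASA} {u v : List ℕ} : accb M u v = true ↔ AAcc M u v := by
  unfold accb AAcc
  rw [deqb_iff, follow_eq_iff]

def bnd (M : ASA) : ℕ := 8 * M.2.2.2.length + 20

/-- the relator of an accepted pair of tapes -/
def relr (x : ℕ) (u v : List ℕ) : SW :=
  (u.map fun a => (true, a)) ++ (true, x) :: v.reverse.map fun a => (false, a)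

def sndRels (n : ℕ) (D : ℕ → ASA) : List (SW × ℕ) :=
  (List.range (n + 1)).flatMap fun x => (wordsLE n (bnd (D x))).flatMap fun u =>
    ((wordsLE n (bnd (D x))).filter fun v => accb (D x) (u ++ [0]) (v ++ [0])).map fun v =>
      (relr x (u ++ [0]) (v ++ [0]), 0)

def Rels (n : ℕ) (D : ℕ → ASA) : List (SW × ℕ) := basicRels n ++ sndRels n D

/-- labels of the chain in the base condition -/
def baseLab (a : ℕ) (r r' : List ℕ) : SW :=
  (r.reverse.map fun a => (false, a)) ++ (true, a) :: r'.map fun a => (true, a)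

theorem mem_wordsLE {n B : ℕ} {w : List ℕ} :
    w ∈ wordsLE n B ↔ w.length ≤ B ∧ ∀ a ∈ w, 1 ≤ a ∧ a ≤ n := by
  induction B generalizing w with
  | zero =>
    have e : wordsLE n 0 = [[]] := rfl
    rw [e, List.mem_singleton]
    constructor
    · rintro rfl; simp
    · rintro ⟨h, _⟩; exact List.length_eq_zero_iff.1 (by omega)
  | succ B ih =>
    have e : wordsLE n (B + 1) = [] :: (wordsLE n B).flatMap fun w => (List.range n).map fun i =>
        (i + 1) :: w := by
      unfold wordsLE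
      rw [List.range_succ, List.foldl_append]
      rfl
    rw [e, List.mem_cons, List.mem_flatMap]
    constructor
    · rintro (rfl | ⟨w', h1, h2⟩)
      · simp
      · obtain ⟨i, hi, rfl⟩ := List.mem_map.1 h2
        rw [List.mem_range] at hi
        obtain ⟨h3, h4⟩ := ih.1 h1
        refine ⟨by simpa using h3, ?_⟩
        intro a ha
        rcases List.mem_cons.1 ha with rfl | ha
        · omega
        · exact h4 a ha
    · rintro ⟨h1, h2⟩
      cases w with
      | nil => exact Or.inl rfl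
      | cons a w =>
        right
        have ha := h2 a List.mem_cons_self
        refine ⟨w, ih.2 ⟨by simpa using h1, fun b hb => h2 b (List.mem_cons_of_mem _ hb)⟩, ?_⟩
        rw [List.mem_map]
        exact ⟨a - 1, by rw [List.mem_range]; omega, by congr 1; omega⟩

theorem mem_sndRels {n : ℕ} {D : ℕ → ASA} {r : SW × ℕ} :
    r ∈ sndRels n D ↔ ∃ x ≤ n, ∃ u v, u ∈ wordsLE n (bnd (D x)) ∧ v ∈ wordsLE n (bnd (D x)) ∧
      AAcc (D x) (u ++ [0]) (v ++ [0]) ∧ r = (relr x (u ++ [0]) (v ++ [0]), 0) := by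
  unfold sndRels
  simp only [List.mem_flatMap, List.mem_range, List.mem_map, List.mem_filter, accb_iff]
  constructor
  · rintro ⟨x, hx, u, hu, v, ⟨hv, h⟩, rfl⟩
    exact ⟨x, by omega, u, v, hu, hv, h, rfl⟩
  · rintro ⟨x, hx, u, v, hu, hv, h, rfl⟩
    exact ⟨x, by omega, u, hu, v, ⟨hv, h⟩, rfl⟩

theorem prp_le {n : ℕ} {t : List ℕ} (h : Prp n t) : ∀ a ∈ t, a ≤ n := by
  obtain ⟨w, hw, rfl⟩ := h
  intro a ha
  rcases List.mem_append.1 ha with ha | ha
  · exact (hw a ha).2
  · rw [List.mem_singleton] at ha; omega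

theorem prp_of_words {n B : ℕ} {w : List ℕ} (h : w ∈ wordsLE n B) : Prp n (w ++ [0]) :=
  ⟨w, (mem_wordsLE.1 h).2, rfl⟩

theorem Rels_labels {n : ℕ} {D : ℕ → ASA} {r : SW × ℕ} (h : r ∈ Rels n D) :
    r.2 ≤ n ∧ ∀ y ∈ r.1, y.2 ≤ n := by
  unfold Rels at h
  rcases List.mem_append.1 h with h | h
  · unfold basicRels at h
    rcases List.mem_cons.1 h with rfl | h
    · simp
    · obtain ⟨x, hx, h⟩ := List.mem_flatMap.1 h
      rw [List.mem_range] at hx
      simp only [List.mem_cons, List.not_mem_nil, or_false] at h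
      rcases h with rfl | rfl | rfl <;> simp <;> omega
  · obtain ⟨x, hx, u, v, hu, hv, _, rfl⟩ := mem_sndRels.1 h
    refine ⟨Nat.zero_le _, ?_⟩
    intro y hy
    simp only [relr, List.mem_append, List.mem_map, List.mem_cons] at hy
    rcases hy with ⟨a, ha, rfl⟩ | rfl | ⟨a, ha, rfl⟩
    · refine prp_le (prp_of_words hu) a ?_
      simpa using ha
    · exact hx
    · refine prp_le (prp_of_words hv) a ?_
      have h' : a = 0 ∨ a ∈ v := by simpa using ha
      rw [List.mem_append, List.mem_singleton]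
      exact h'.symm

theorem basic_mem {n : ℕ} {D : ℕ → ASA} :
    (([(true, 0), (false, 0)], 0) : SW × ℕ) ∈ Rels n D ∧
    (∀ x ≤ n, (([(true, x), (true, 0)], x) : SW × ℕ) ∈ Rels n D) ∧
    (∀ x ≤ n, (([(false, x), (true, 0), (true, x)], 0) : SW × ℕ) ∈ Rels n D) ∧
    (∀ x ≤ n, (([(true, x), (true, 0), (false, x)], 0) : SW × ℕ) ∈ Rels n D) := by
  refine ⟨List.mem_append_left _ List.mem_cons_self, ?_, ?_, ?_⟩ <;> intro x hx <;>
  · refine List.mem_append_left _ (List.mem_cons_of_mem _ (List.mem_flatMap.2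
      ⟨x, List.mem_range.2 (by omega), ?_⟩))
    simp

/-! ### The presented group -/

def relSet (n : ℕ) (Rs : List (SW × ℕ)) : Set (FreeGroup (Fin n)) :=
  {g | ∃ r ∈ Rs, g = vsS (toFree n) r.1 * (toFree n r.2)⁻¹}

abbrev Gd (n : ℕ) (Rs : List (SW × ℕ)) : Type := PresentedGroup (relSet n Rs)

def valG (n : ℕ) (Rs : List (SW × ℕ)) (x : ℕ) : Gd n Rs :=
  PresentedGroup.mk (relSet n Rs) (toFree n x)

theorem valG_zero (n : ℕ) (Rs : List (SW × ℕ)) : valG n Rs 0 = 1 := by
  unfold valG toFree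
  simp

theorem valG_rel {n : ℕ} {Rs : List (SW × ℕ)} {r : SW × ℕ} (hr : r ∈ Rs) :
    vsS (valG n Rs) r.1 = valG n Rs r.2 := by
  have h1 : PresentedGroup.mk (relSet n Rs) (vsS (toFree n) r.1 * (toFree n r.2)⁻¹) = 1 :=
    PresentedGroup.one_of_mem ⟨r, hr, rfl⟩
  rw [map_mul, map_inv, mul_inv_eq_one, vsS_hom] at h1
  exact h1

theorem valG_gen (n : ℕ) (Rs : List (SW × ℕ)) :
    Subgroup.closure {g | ∃ x ≤ n, g = valG n Rs x} = ⊤ := by
  rw [eq_top_iff, ← PresentedGroup.closure_range_of (relSet n Rs), Subgroup.closure_le]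
  rintro _ ⟨i, rfl⟩
  apply Subgroup.subset_closure
  refine ⟨i.val + 1, i.isLt, ?_⟩
  unfold valG toFree
  rw [dif_pos ⟨by omega, i.isLt⟩]
  rfl

theorem valG_univ {n : ℕ} {Rs : List (SW × ℕ)}
    (hlab : ∀ r ∈ Rs, r.2 ≤ n ∧ ∀ y ∈ r.1, y.2 ≤ n) (H : Type) [Group H] (ψ : ℕ → H)
    (h0 : ψ 0 = 1) (hr : ∀ r ∈ Rs, vsS ψ r.1 = ψ r.2) :
    ∃ θ : Gd n Rs →* H, ∀ x ≤ n, θ (valG n Rs x) = ψ x := by
  set f : Fin n → H := fun i => ψ (i.val + 1) with hf
  have h1 : ∀ x ≤ n, FreeGroup.lift f (toFree n x) = ψ x := by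
    intro x hx
    unfold toFree
    split_ifs with h
    · rw [FreeGroup.lift_apply_of, hf]
      simp only
      congr 1
      omega
    · have : x = 0 := by omega
      rw [this, h0, map_one]
  have h2 : ∀ r ∈ relSet n Rs, FreeGroup.lift f r = 1 := by
    rintro _ ⟨r, hr', rfl⟩
    obtain ⟨h3, h4⟩ := hlab r hr'
    rw [map_mul, map_inv, mul_inv_eq_one, vsS_hom, h1 _ h3, ← hr r hr']
    exact vsS_congr fun y hy => h1 _ (h4 y hy)
  refine ⟨PresentedGroup.toGroup (f := f) h2, fun x hx => ?_⟩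
  rw [← h1 x hx]
  rfl

end Pool.Agent.H69.As
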