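import Pool.Agent.H69.As.Fun

/-!
# The certificates are semidecidable
-/

set_option autoImplicit false

namespace Pool.Agent.H69.As

/-- Boolean certificate check -/
def certb {φ : Type} [DecidableEq φ] (st : φ → Option ℕ × Option ℕ → Option φ) (fin : φ → Bool)
    (φ0 : φ) (R : NA) (Z : List ℕ) (I : List (ℕ × φ)) : Bool :=
  (memb R.1 Z || memb (R.1, φ0) I) && (R.2.1.all fun z => !memb z Z) &&
  (R.2.2.all fun τ => !memb τ.1 Z || memb τ.2.2 Z) &&
  (I.all fun i => R.2.2.all fun τ => !deqb τ.1 i.1 ||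
    (memb τ.2.2 Z || (st i.2 τ.2.1).elim false fun φ' => memb (τ.2.2, φ') I)) &&
  (I.all fun i => !memb i.1 R.2.1 || fin i.2)

theorem imp_bool {p q : Prop} {a b : Bool} (h : p ↔ a = true) (h' : q ↔ b = true) :
    (p → q) ↔ (!a || b) = true := by
  rw [h, h']
  cases a <;> simp

theorem elim_ex {φ : Type} {o : Option φ} {P : φ → Bool} :
    o.elim false P = true ↔ ∃ x, o = some x ∧ P x = true := by
  cases o <;> simp

theorem certb_iff {φ : Type} [DecidableEq φ] {st : φ → Option ℕ × Option ℕ → Option φ}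
    {fin : φ → Prop} {finb : φ → Bool} (h : ∀ c, fin c ↔ finb c = true) {φ0 : φ} {R : NA}
    {Z : List ℕ} {I : List (ℕ × φ)} :
    Cert st fin φ0 R Z I ↔ certb st finb φ0 R Z I = true := by
  unfold Cert certb
  rw [Bool.and_eq_true, Bool.and_eq_true, Bool.and_eq_true, Bool.and_eq_true, Bool.or_eq_true,
    memb_iff, memb_iff, List.all_eq_true, List.all_eq_true, List.all_eq_true, List.all_eq_true,
    and_assoc, and_assoc, and_assoc]
  refine and_congr Iff.rfl (and_congr ?_ (and_congr ?_ (and_congr ?_ ?_)))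
  · refine forall₂_congr fun z _ => ?_
    simp
  · refine forall₂_congr fun τ _ => ?_
    exact imp_bool memb_iff.symm memb_iff.symm
  · refine forall₂_congr fun i _ => ?_
    rw [List.all_eq_true]
    refine forall₂_congr fun τ _ => ?_
    refine imp_bool deqb_iff.symm ?_
    rw [Bool.or_eq_true, memb_iff, elim_ex]
    simp
  · refine forall₂_congr fun i _ => ?_
    exact imp_bool memb_iff.symm (h _)

section
variable {O : Set (ℕ →. ℕ)}
variable {α β γ δ σ : Type}
variable [Primcodable α] [Primcodable β] [Primcodable γ] [Primcodable δ] [Primcodable σ]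

theorem sg_IncC {R : α → NA} {M : α → ASA} (hR : RC ∅ R) (hM : RC ∅ M) :
    Sg fun a => IncC (R a) (M a) := by
  refine Sg.ex_bool (β := List ℕ × List (ℕ × ℕ × List ℕ × List ℕ))
    (c := fun a p => certb (incSt (M a)) (fun c => deqb c ((M a).2.1, [], [])) ((M a).1, [], [])
      (R a) p.1 p.2) ?_ fun a => ?_
  · unfold certb incSt
    fun_prop
  · constructor
    · rintro ⟨Z, I, h⟩
      exact ⟨(Z, I), (certb_iff fun c => deqb_iff.symm).1 h⟩
    · rintro ⟨⟨Z, I⟩, h⟩
      exact ⟨Z, I, (certb_iff fun c => deqb_iff.symm).2 h⟩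

theorem sg_IncF {R : α → NA} {E : α → FSA} (hR : RC ∅ R) (hE : RC ∅ E) :
    Sg fun a => IncF (R a) (E a) := by
  refine Sg.ex_bool (β := List ℕ × List (ℕ × ℕ))
    (c := fun a p => certb (domSt (E a)) (fun e => memb e (E a).2.1) (E a).1
      (R a) p.1 p.2) ?_ fun a => ?_
  · unfold certb domSt
    fun_prop
  · constructor
    · rintro ⟨Z, I, h⟩
      exact ⟨(Z, I), (certb_iff fun c => memb_iff.symm).1 h⟩
    · rintro ⟨⟨Z, I⟩, h⟩
      exact ⟨Z, I, (certb_iff fun c => memb_iff.symm).2 h⟩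

/-- Boolean form of `eat` -/
def eatb (x : List ℕ) (o : Option ℕ) : Option (List ℕ) :=
  o.elim (some x) fun a => x.head?.elim (some []) fun c =>
    bif deqb c a then some (x.drop 1) else none

theorem eat_eq (x : List ℕ) (o : Option ℕ) : eat x o = eatb x o := by
  cases o with
  | none => cases x <;> rfl
  | some a =>
    cases x with
    | nil => rfl
    | cons c x =>
      unfold eat eatb
      simp only [Option.elim_some, List.head?_cons]
      rw [ite_bif (deqb_iff (a := c) (b := a)).symm]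
      rfl

theorem sg_EmptyP {R : α → NA} {x y : α → List ℕ} (hR : RC ∅ R) (hx : RC ∅ x) (hy : RC ∅ y) :
    Sg fun a => EmptyP (R a) (x a) (y a) := by
  have key : ∀ c : Option (List ℕ × List ℕ), c ≠ some ([], []) ↔
      (!deqb c (some ([], []))) = true := by
    intro c
    simp
  refine Sg.ex_bool (β := List ℕ × List (ℕ × Option (List ℕ × List ℕ)))
    (c := fun a p => certb preSt (fun c => !deqb c (some ([], []))) (some (x a, y a))
      (R a) p.1 p.2) ?_ fun a => ?_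
  · unfold certb preSt
    simp only [eat_eq]
    unfold eatb
    fun_prop
  · constructor
    · rintro ⟨Z, I, h⟩
      exact ⟨(Z, I), (certb_iff key).1 h⟩
    · rintro ⟨⟨Z, I⟩, h⟩
      exact ⟨Z, I, (certb_iff key).2 h⟩

/-- Boolean check for `DomC` -/
def domb (E : FSA) (R : NA) (N : ℕ) (J : List (ℕ × List ℕ)) : Bool :=
  (J.any fun j => deqb j.1 E.1 && j.2.all fun s => memb s (clos R N [R.1])) &&
  (J.all fun j => E.2.2.all fun m => !deqb m.1.1 j.1 ||
    (look E.2.2 m.1.1 m.1.2).toList.all fun e' =>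
      J.any fun j' => deqb j'.1 e' && j'.2.all fun s => memb s (clos R N (lstep R m.1.2 j.2))) &&
  (J.all fun j => !memb j.1 E.2.1 || j.2.any fun s => memb s R.2.1)

theorem sg_DomC {E : α → FSA} {R : α → NA} (hE : RC ∅ E) (hR : RC ∅ R) :
    Sg fun a => DomC (E a) (R a) := by
  refine Sg.ex_bool (β := ℕ × List (ℕ × List ℕ)) (c := fun a p => domb (E a) (R a) p.1 p.2) ?_
    fun a => ?_
  · unfold domb
    fun_prop
  · have key : ∀ N J, ((∃ j ∈ J, j.1 = (E a).1 ∧ ∀ s ∈ j.2, s ∈ clos (R a) N [(R a).1]) ∧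
    (∀ j ∈ J, ∀ m ∈ (E a).2.2, m.1.1 = j.1 → ∀ e', look (E a).2.2 m.1.1 m.1.2 = some e' →
      ∃ j' ∈ J, j'.1 = e' ∧ ∀ s ∈ j'.2, s ∈ clos (R a) N (lstep (R a) m.1.2 j.2)) ∧
    (∀ j ∈ J, j.1 ∈ (E a).2.1 → ∃ s ∈ j.2, s ∈ (R a).2.1)) ↔ domb (E a) (R a) N J = true := by
      intro N J
      unfold domb
      rw [Bool.and_eq_true, Bool.and_eq_true, and_assoc, List.any_eq_true, List.all_eq_true,
        List.all_eq_true]
      refine and_congr ?_ (and_congr ?_ ?_)
      · simp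
      · refine forall₂_congr fun j _ => ?_
        rw [List.all_eq_true]
        refine forall₂_congr fun m _ => ?_
        refine imp_bool deqb_iff.symm ?_
        rw [List.all_eq_true]
        refine forall_congr' fun e' => ?_
        simp
      · refine forall₂_congr fun j _ => ?_
        refine imp_bool memb_iff.symm ?_
        simp
    constructor
    · rintro ⟨N, J, h⟩
      exact ⟨(N, J), (key N J).1 h⟩
    · rintro ⟨⟨N, J⟩, h⟩
      exact ⟨N, J, (key N J).2 h⟩

/-- Boolean link -/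
def linkb (E : FSA) (Ms : List ASA) (c : List ℕ) (y : Bool × ℕ) (c' : List ℕ) : Bool :=
  faccb E c' && bif y.1 then accb (mc Ms y.2) c c' else accb (mc Ms y.2) c' c

/-- check a chain given with its tapes -/
def chb (E : FSA) (Ms : List ASA) (c : List ℕ) (w : List ((Bool × ℕ) × List ℕ)) :
    Option (List ℕ) :=
  w.foldl (fun o p => o.bind fun c => bif linkb E Ms c p.1 p.2 then some p.2 else none) (some c)

theorem chb_cons (E : FSA) (Ms : List ASA) (c : List ℕ) (p : (Bool × ℕ) × List ℕ)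
    (w : List ((Bool × ℕ) × List ℕ)) :
    chb E Ms c (p :: w) = if linkb E Ms c p.1 p.2 = true then chb E Ms p.2 w else none := by
  have hn : ∀ w : List ((Bool × ℕ) × List ℕ),
      w.foldl (fun o p => o.bind fun c => bif linkb E Ms c p.1 p.2 then some p.2 else none)
        (none : Option (List ℕ)) = none := by
    intro w
    induction w with
    | nil => rfl
    | cons p w ih => rw [List.foldl_cons]; exact ih
  unfold chb
  rw [List.foldl_cons]
  simp only [Option.bind_some]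
  cases h : linkb E Ms c p.1 p.2 with
  | true => simp
  | false => simpa using hn w

theorem linkb_iff {E : FSA} {Ms : List ASA} {c c' : List ℕ} {b : Bool} {x : ℕ} :
    linkb E Ms c (b, x) c' = true ↔
      FAcc E c' ∧ if b then Ach (mc Ms) x c c' else Ach (mc Ms) x c' c := by
  unfold linkb
  rw [Bool.and_eq_true, faccb_iff]
  cases b with
  | true => simp [accb_iff]
  | false => simp [accb_iff]

theorem chain_iff {E : FSA} {Ms : List ASA} {ys : SW} {c c' : List ℕ} :
    Chain (FAcc E) (Ach (mc Ms)) ys c c' ↔ ∃ w : List ((Bool × ℕ) × List ℕ),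
      w.map Prod.fst = ys ∧ chb E Ms c w = some c' := by
  constructor
  · intro h
    induction h with
    | nil c => exact ⟨[], rfl, rfl⟩
    | @cons b x ys c c' c'' h1 h2 _ ih =>
      obtain ⟨w, h3, h4⟩ := ih
      refine ⟨((b, x), c') :: w, by simp [h3], ?_⟩
      rw [chb_cons, if_pos (linkb_iff.2 ⟨h1, h2⟩)]
      exact h4
  · rintro ⟨w, h1, h2⟩
    induction w generalizing ys c with
    | nil =>
      simp only [List.map_nil] at h1
      subst h1
      have : c = c' := by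
        simpa [chb] using h2
      subst this
      exact Chain.nil c
    | cons p w ih =>
      obtain ⟨⟨b, x⟩, c₁⟩ := p
      rw [chb_cons] at h2
      split_ifs at h2 with h3
      rw [List.map_cons] at h1
      subst h1
      obtain ⟨h4, h5⟩ := linkb_iff.1 h3
      exact Chain.cons h4 h5 (ih rfl h2)

@[fun_prop] theorem rc_chb {E : α → FSA} {Ms : α → List ASA} {c : α → List ℕ}
    {w : α → List ((Bool × ℕ) × List ℕ)} (hE : RC O E) (hM : RC O Ms) (hc : RC O c)
    (hw : RC O w) : RC O fun a => chb (E a) (Ms a) (c a) (w a) := by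
  unfold chb linkb
  fun_prop

/-! ### The certificate of validity -/

theorem sg_BaseOK {E₁ : α → FSA} {Ms : α → List ASA} {C : α → List (ℕ × List ℕ)}
    (hE : RC ∅ E₁) (hM : RC ∅ Ms) (hC : RC ∅ C) :
    Sg fun a => BaseOK (E₁ a) (mc (Ms a)) (C a) := by
  unfold BaseOK
  refine Sg.and ?_ (Sg.and ?_ (Sg.and ?_ ?_))
  · refine Sg.of_bool (c := fun a => (C a).any fun c => deqb c.1 (E₁ a).1) (by fun_prop) ?_
    intro a
    simp
  · refine Sg.of_bool (c := fun a => (C a).all fun c => !memb c.1 (E₁ a).2.1 || deqb c.2 [])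
      (by fun_prop) ?_
    intro a
    rw [List.all_eq_true]
    exact forall₂_congr fun c _ => imp_bool memb_iff.symm deqb_iff.symm
  · refine Sg.of_bool (c := fun a => (C a).all fun c => (E₁ a).2.1.any fun q =>
      deqb (run (E₁ a) c.1 c.2) (some q)) (by fun_prop) ?_
    intro a
    simp
  · refine Sg.ball (by fun_prop) ?_
    refine Sg.ball (f := fun q : α × (ℕ × List ℕ) => (E₁ q.1).2.2)
      (p := fun q m => m.1.1 = q.2.1 → ∃ c' ∈ C q.1, look (E₁ q.1).2.2 m.1.1 m.1.2 = some c'.1 ∧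
        IncC (chainNA (E₁ q.1) (mc (Ms q.1)) (tailNA (E₁ q.1) q.2.1 (m.1.2 :: c'.2) q.2.2)
          (baseLab m.1.2 q.2.2 c'.2)) (mc (Ms q.1) 0)) (by fun_prop) ?_
    refine Sg.imp (c := fun q : (α × (ℕ × List ℕ)) × ((ℕ × ℕ) × ℕ) => deqb q.2.1.1 q.1.2.1)
      (by fun_prop) (fun q => deqb_iff.symm) ?_
    refine Sg.bex (f := fun q : (α × (ℕ × List ℕ)) × ((ℕ × ℕ) × ℕ) => C q.1.1)
      (p := fun q c' => look (E₁ q.1.1).2.2 q.2.1.1 q.2.1.2 = some c'.1 ∧
        IncC (chainNA (E₁ q.1.1) (mc (Ms q.1.1)) (tailNA (E₁ q.1.1) q.1.2.1 (q.2.1.2 :: c'.2)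
          q.1.2.2) (baseLab q.2.1.2 q.1.2.2 c'.2)) (mc (Ms q.1.1) 0)) (by fun_prop) ?_
    refine Sg.and ?_ ?_
    · exact Sg.of_bool (c := fun q : ((α × (ℕ × List ℕ)) × ((ℕ × ℕ) × ℕ)) × (ℕ × List ℕ) =>
        deqb (look (E₁ q.1.1.1).2.2 q.1.2.1.1 q.1.2.1.2) (some q.2.1)) (by fun_prop)
        fun q => deqb_iff.symm
    · exact sg_IncC (R := fun q : ((α × (ℕ × List ℕ)) × ((ℕ × ℕ) × ℕ)) × (ℕ × List ℕ) =>
        chNA (E₁ q.1.1.1) (Ms q.1.1.1) (tailNA (E₁ q.1.1.1) q.1.1.2.1 (q.1.2.1.2 :: q.2.2)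
          q.1.1.2.2) (baseLab q.1.2.1.2 q.1.1.2.2 q.2.2))
        (M := fun q => mc (Ms q.1.1.1) 0) (by fun_prop) (by fun_prop)

/-- Boolean form of `ItemOK` -/
def itemb (E : FSA) (M : ASA) (i : Item) : Bool :=
  deqb (follow M M.1 i.2.2.1.1 i.2.2.1.2) (some (i.1, [], [])) &&
  (deqb (run E E.1 i.2.2.1.1) (some i.2.1.1) &&
  (deqb (run E E.1 i.2.2.1.2) (some i.2.1.2) &&
  (deqb (follow M i.1 i.2.2.2.1 i.2.2.2.2) (some (M.2.1, [], [])) &&
  (faccb E (i.2.2.1.1 ++ i.2.2.2.1) && faccb E (i.2.2.1.2 ++ i.2.2.2.2)))))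

theorem itemb_iff {E : FSA} {M : ASA} {i : Item} : ItemOK E M i ↔ itemb E M i = true := by
  unfold ItemOK itemb
  simp only [Bool.and_eq_true, deqb_iff, follow_eq_iff, faccb_iff]

theorem sg_StepOK {E E₁ : α → FSA} {Ms : α → List ASA} {x : α → ℕ} {A : α → List Item}
    {i : α → Item} {b : α → ℕ} (hE : RC ∅ E) (hE₁ : RC ∅ E₁) (hM : RC ∅ Ms) (hx : RC ∅ x)
    (hA : RC ∅ A) (hi : RC ∅ i) (hb : RC ∅ b) :
    Sg fun a => StepOK (E a) (E₁ a) (mc (Ms a)) (x a) (A a) (i a) (b a) := by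
  have key1 : Sg fun a => ∀ q ∈ (look (E a).2.2 (i a).2.1.1 (b a)).toList,
      (∃ j ∈ A a, look (mc (Ms a) (x a)).2.2.2 (i a).1 (b a) = some j.1 ∧
        j.2.1 = (q, (i a).2.1.2)) ∨
      EmptyP (t3 (E a) (E₁ a) (Ms a) (x a)) ((i a).2.2.1.1 ++ [b a]) (i a).2.2.1.2 := by
    refine Sg.ball (by fun_prop) (Sg.or ?_ ?_)
    · refine Sg.of_bool (c := fun q : α × ℕ => (A q.1).any fun j =>
        deqb (look (mc (Ms q.1) (x q.1)).2.2.2 (i q.1).1 (b q.1)) (some j.1) &&
        deqb j.2.1 (q.2, (i q.1).2.1.2)) (by fun_prop) fun q => ?_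
      simp
    · exact sg_EmptyP (R := fun q : α × ℕ => t3 (E q.1) (E₁ q.1) (Ms q.1) (x q.1))
        (x := fun q => (i q.1).2.2.1.1 ++ [b q.1]) (y := fun q => (i q.1).2.2.1.2)
        (by fun_prop) (by fun_prop) (by fun_prop)
  have key2 : Sg fun a => ∀ q ∈ (look (E a).2.2 (i a).2.1.2 (b a)).toList,
      (∃ j ∈ A a, look (mc (Ms a) (x a)).2.2.2 (i a).1 (b a) = some j.1 ∧
        j.2.1 = ((i a).2.1.1, q)) ∨
      EmptyP (t3 (E a) (E₁ a) (Ms a) (x a)) (i a).2.2.1.1 ((i a).2.2.1.2 ++ [b a]) := by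
    refine Sg.ball (by fun_prop) (Sg.or ?_ ?_)
    · refine Sg.of_bool (c := fun q : α × ℕ => (A q.1).any fun j =>
        deqb (look (mc (Ms q.1) (x q.1)).2.2.2 (i q.1).1 (b q.1)) (some j.1) &&
        deqb j.2.1 ((i q.1).2.1.1, q.2)) (by fun_prop) fun q => ?_
      simp
    · exact sg_EmptyP (R := fun q : α × ℕ => t3 (E q.1) (E₁ q.1) (Ms q.1) (x q.1))
        (x := fun q => (i q.1).2.2.1.1) (y := fun q => (i q.1).2.2.1.2 ++ [b q.1])
        (by fun_prop) (by fun_prop) (by fun_prop)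
  have k1 := Sg.imp (c := fun a => memb (i a).1 (mc (Ms a) (x a)).2.2.1) (by fun_prop)
    (fun a => memb_iff.symm) key1
  have k2 := Sg.imp (p := fun a => (i a).1 ∉ (mc (Ms a) (x a)).2.2.1)
    (c := fun a => !memb (i a).1 (mc (Ms a) (x a)).2.2.1) (by fun_prop)
    (fun a => by simp) key2
  refine (k1.and k2).of_iff fun a => ?_
  unfold StepOK
  simp only [Option.mem_toList]
  rfl

theorem sg_StC {n : α → ℕ} {E E₁ : α → FSA} {Ms : α → List ASA} {x : α → ℕ} (hn : RC ∅ n)
    (hE : RC ∅ E) (hE₁ : RC ∅ E₁) (hM : RC ∅ Ms) (hx : RC ∅ x) :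
    Sg fun a => StC (n a) (E a) (E₁ a) (mc (Ms a)) (x a) := by
  unfold StC
  refine Sg.ex (β := List Item) (p := fun a A => (∃ i ∈ A, i.1 = (mc (Ms a) (x a)).1 ∧
    i.2.1 = ((E a).1, (E a).1)) ∧ (∀ i ∈ A, ItemOK (E a) (mc (Ms a) (x a)) i) ∧
    (∀ i ∈ A, ∀ b ∈ List.range (n a + 1), StepOK (E a) (E₁ a) (mc (Ms a)) (x a) A i b)) ?_
  refine Sg.and ?_ (Sg.and ?_ ?_)
  · refine Sg.of_bool (c := fun q : α × List Item => q.2.any fun i =>
      deqb i.1 (mc (Ms q.1) (x q.1)).1 && deqb i.2.1 ((E q.1).1, (E q.1).1)) (by fun_prop)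
      fun q => ?_
    simp
  · refine Sg.of_bool (c := fun q : α × List Item => q.2.all fun i =>
      itemb (E q.1) (mc (Ms q.1) (x q.1)) i) ?_ fun q => ?_
    · unfold itemb
      fun_prop
    · rw [List.all_eq_true]
      exact forall₂_congr fun i _ => itemb_iff
  · refine Sg.ball (f := fun q : α × List Item => q.2)
      (p := fun q i => ∀ b ∈ List.range (n q.1 + 1),
        StepOK (E q.1) (E₁ q.1) (mc (Ms q.1)) (x q.1) q.2 i b) (by fun_prop) ?_
    refine Sg.ball (f := fun q : (α × List Item) × Item => List.range (n q.1.1 + 1))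
      (p := fun q b => StepOK (E q.1.1) (E₁ q.1.1) (mc (Ms q.1.1)) (x q.1.1) q.1.2 q.2 b)
      (by fun_prop) ?_
    exact sg_StepOK (E := fun q : ((α × List Item) × Item) × ℕ => E q.1.1.1)
      (E₁ := fun q => E₁ q.1.1.1) (Ms := fun q => Ms q.1.1.1) (x := fun q => x q.1.1.1)
      (A := fun q => q.1.1.2) (i := fun q => q.1.2) (b := fun q => q.2)
      (by fun_prop) (by fun_prop) (by fun_prop) (by fun_prop) (by fun_prop) (by fun_prop)
      (by fun_prop)

end

end Pool.Agent.H69.As
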