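import Pool.Agent.H69.As.Viol

/-!
# Semidecidable predicates
-/

set_option autoImplicit false

namespace Pool.Agent.H69.RC

variable {O : Set (ℕ →. ℕ)}
variable {α β γ δ σ : Type}
variable [Primcodable α] [Primcodable β] [Primcodable γ] [Primcodable δ] [Primcodable σ]

@[fun_prop] theorem list_flatMap {f : α → List β} {h : α → β → List σ} (hf : RC O f)
    (hh : RC O (fun p : α × β => h p.1 p.2)) : RC O fun a => (f a).flatMap (h a) := by
  have h1 : RC O fun a => (f a).foldl (fun acc x => acc ++ h a x) [] := by fun_prop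
  refine h1.of_eq fun a => ?_
  have key : ∀ (l : List β) (acc : List σ),
      l.foldl (fun acc x => acc ++ h a x) acc = acc ++ l.flatMap (h a) := by
    intro l
    induction l with
    | nil => simp
    | cons x l ih => intro acc; simp [ih]
  simpa using key (f a) []

@[fun_prop] theorem option_toList {f : α → Option β} (hf : RC O f) :
    RC O fun a => (f a).toList := by
  have h1 : RC O fun a => (f a).elim [] (fun b => [b]) := by fun_prop
  refine h1.of_eq fun a => ?_
  cases f a <;> rfl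

end Pool.Agent.H69.RC

namespace Pool.Agent.H69.As

/-- Boolean membership -/
def memb {β : Type} [DecidableEq β] (b : β) (l : List β) : Bool := l.any fun x => deqb x b

@[simp] theorem memb_iff {β : Type} [DecidableEq β] {b : β} {l : List β} :
    memb b l = true ↔ b ∈ l := by
  simp [memb]

@[simp] theorem memb_false {β : Type} [DecidableEq β] {b : β} {l : List β} :
    memb b l = false ↔ b ∉ l := by
  rw [← memb_iff, Bool.not_eq_true]

section
variable {O : Set (ℕ →. ℕ)}
variable {α β γ δ σ φ : Type}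
variable [Primcodable α] [Primcodable β] [Primcodable γ] [Primcodable δ] [Primcodable σ]
variable [Primcodable φ]

@[fun_prop] theorem rc_memb [DecidableEq β] {f : α → β} {g : α → List β} (hf : RC O f)
    (hg : RC O g) : RC O fun a => memb (f a) (g a) := by
  unfold memb
  fun_prop

/-- Semidecidable predicates. -/
def Sg (p : α → Prop) : Prop :=
  ∃ c : α → ℕ → Bool, RC ∅ (fun q : α × ℕ => c q.1 q.2) ∧ ∀ a, p a ↔ ∃ w, c a w = true

namespace Sg

theorem of_iff {p q : α → Prop} (hp : Sg p) (h : ∀ a, q a ↔ p a) : Sg q := by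
  obtain ⟨c, h1, h2⟩ := hp
  exact ⟨c, h1, fun a => (h a).trans (h2 a)⟩

theorem of_bool {c : α → Bool} (hc : RC ∅ c) {p : α → Prop} (h : ∀ a, p a ↔ c a = true) :
    Sg p :=
  ⟨fun a _ => c a, by fun_prop, fun a => ⟨fun h1 => ⟨0, (h a).1 h1⟩, fun ⟨_, h1⟩ => (h a).2 h1⟩⟩

theorem ex_bool {c : α → β → Bool} (hc : RC ∅ (fun q : α × β => c q.1 q.2)) {p : α → Prop}
    (h : ∀ a, p a ↔ ∃ b, c a b = true) : Sg p := by
  refine ⟨fun a w => ((Encodable.decode w : Option β)).elim false (c a), ?_, fun a => ?_⟩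
  · refine RC.option_elim (f := fun q : α × ℕ => (Encodable.decode q.2 : Option β))
      (g := fun _ => false) (h := fun q b => c q.1 b) (by fun_prop) (by fun_prop) ?_
    exact RC.comp (f := fun q : α × β => c q.1 q.2)
      (g := fun p : (α × ℕ) × β => (p.1.1, p.2)) hc (by fun_prop)
  · rw [h]
    constructor
    · rintro ⟨b, hb⟩
      exact ⟨Encodable.encode b, by simpa using hb⟩
    · rintro ⟨w, hw⟩
      beta_reduce at hw
      cases hd : (Encodable.decode w : Option β) with
      | none => rw [hd] at hw; simp at hw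
      | some b => rw [hd] at hw; exact ⟨b, hw⟩

theorem ex {p : α → β → Prop} (hp : Sg (fun q : α × β => p q.1 q.2)) :
    Sg (fun a => ∃ b, p a b) := by
  obtain ⟨c, h1, h2⟩ := hp
  refine ex_bool (β := β × ℕ) (c := fun a q => c (a, q.1) q.2) ?_ ?_
  · exact RC.comp (f := fun q : (α × β) × ℕ => c q.1 q.2)
      (g := fun q : α × (β × ℕ) => ((q.1, q.2.1), q.2.2)) h1 (by fun_prop)
  · intro a
    constructor
    · rintro ⟨b, hb⟩
      obtain ⟨w, hw⟩ := (h2 (a, b)).1 hb
      exact ⟨(b, w), hw⟩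
    · rintro ⟨⟨b, w⟩, hw⟩
      exact ⟨b, (h2 (a, b)).2 ⟨w, hw⟩⟩

theorem comp {p : β → Prop} {f : α → β} (hp : Sg p) (hf : RC ∅ f) : Sg (fun a => p (f a)) := by
  obtain ⟨c, h1, h2⟩ := hp
  refine ⟨fun a w => c (f a) w, ?_, fun a => h2 (f a)⟩
  exact RC.comp (f := fun q : β × ℕ => c q.1 q.2) (g := fun q : α × ℕ => (f q.1, q.2)) h1
    (by fun_prop)

theorem and {p q : α → Prop} (hp : Sg p) (hq : Sg q) : Sg (fun a => p a ∧ q a) := by
  obtain ⟨c, h1, h2⟩ := hp
  obtain ⟨d, h3, h4⟩ := hq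
  refine ex_bool (β := ℕ × ℕ) (c := fun a w => c a w.1 && d a w.2) ?_ ?_
  · refine RC.and ?_ ?_
    · exact RC.comp (f := fun q : α × ℕ => c q.1 q.2)
        (g := fun q : α × (ℕ × ℕ) => (q.1, q.2.1)) h1 (by fun_prop)
    · exact RC.comp (f := fun q : α × ℕ => d q.1 q.2)
        (g := fun q : α × (ℕ × ℕ) => (q.1, q.2.2)) h3 (by fun_prop)
  · intro a
    rw [h2, h4]
    constructor
    · rintro ⟨⟨w, hw⟩, ⟨w', hw'⟩⟩
      exact ⟨(w, w'), by simp [hw, hw']⟩
    · rintro ⟨⟨w, w'⟩, hw⟩
      simp only [Bool.and_eq_true] at hw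
      exact ⟨⟨w, hw.1⟩, ⟨w', hw.2⟩⟩

theorem or {p q : α → Prop} (hp : Sg p) (hq : Sg q) : Sg (fun a => p a ∨ q a) := by
  obtain ⟨c, h1, h2⟩ := hp
  obtain ⟨d, h3, h4⟩ := hq
  refine ⟨fun a w => c a w || d a w, by fun_prop, fun a => ?_⟩
  beta_reduce
  rw [h2, h4]
  constructor
  · rintro (⟨w, hw⟩ | ⟨w, hw⟩)
    · exact ⟨w, by simp [hw]⟩
    · exact ⟨w, by simp [hw]⟩
  · rintro ⟨w, hw⟩
    simp only [Bool.or_eq_true] at hw
    rcases hw with hw | hw
    · exact Or.inl ⟨w, hw⟩
    · exact Or.inr ⟨w, hw⟩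

/-- an implication with a decidable premise -/
theorem imp {p q : α → Prop} {c : α → Bool} (hc : RC ∅ c) (h : ∀ a, p a ↔ c a = true)
    (hq : Sg q) : Sg (fun a => p a → q a) := by
  have h1 : Sg (fun a => (!c a) = true) := of_bool (c := fun a => !c a) (by fun_prop) fun a => Iff.rfl
  refine (h1.or hq).of_iff fun a => ?_
  rw [h a]
  cases c a <;> simp

theorem ball {f : α → List β} (hf : RC ∅ f) {p : α → β → Prop}
    (hp : Sg (fun q : α × β => p q.1 q.2)) : Sg (fun a => ∀ b ∈ f a, p a b) := by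
  obtain ⟨c, h1, h2⟩ := hp
  refine ⟨fun a W => (f a).all fun b => (List.range W).any fun w => c (a, b) w, ?_, fun a => ?_⟩
  · refine RC.list_all (h := fun (q : α × ℕ) b => (List.range q.2).any fun w => c (q.1, b) w)
      (by fun_prop) ?_
    refine RC.list_any (h := fun (q : (α × ℕ) × β) w => c (q.1.1, q.2) w) (by fun_prop) ?_
    exact RC.comp (f := fun q : (α × β) × ℕ => c q.1 q.2)
      (g := fun q : ((α × ℕ) × β) × ℕ => ((q.1.1.1, q.1.2), q.2)) h1 (by fun_prop)
  · have key : ∀ l : List β, (∀ b ∈ l, p a b) ↔ ∃ W, ∀ b ∈ l, ∃ w < W, c (a, b) w = true := by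
      intro l
      induction l with
      | nil => simp
      | cons b l ih =>
        constructor
        · intro h
          obtain ⟨W, hW⟩ := ih.1 fun x hx => h x (List.mem_cons_of_mem _ hx)
          obtain ⟨w, hw⟩ := (h2 (a, b)).1 (h b List.mem_cons_self)
          refine ⟨max W (w + 1), ?_⟩
          intro x hx
          rcases List.mem_cons.1 hx with rfl | hx
          · exact ⟨w, by omega, hw⟩
          · obtain ⟨w', h3, h4⟩ := hW x hx
            exact ⟨w', by omega, h4⟩
        · rintro ⟨W, hW⟩ x hx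
          obtain ⟨w, _, hw⟩ := hW x hx
          exact (h2 (a, x)).2 ⟨w, hw⟩
    beta_reduce
    rw [key]
    simp

theorem bex {f : α → List β} (hf : RC ∅ f) {p : α → β → Prop}
    (hp : Sg (fun q : α × β => p q.1 q.2)) : Sg (fun a => ∃ b ∈ f a, p a b) := by
  obtain ⟨c, h1, h2⟩ := hp
  refine ⟨fun a w => (f a).any fun b => c (a, b) w, ?_, fun a => ?_⟩
  · refine RC.list_any (h := fun (q : α × ℕ) b => c (q.1, b) q.2)
      (by fun_prop) ?_
    exact RC.comp (f := fun q : (α × β) × ℕ => c q.1 q.2)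
      (g := fun q : (α × ℕ) × β => ((q.1.1, q.2), q.1.2)) h1 (by fun_prop)
  · simp only [List.any_eq_true]
    constructor
    · rintro ⟨b, hb, h3⟩
      obtain ⟨w, hw⟩ := (h2 (a, b)).1 h3
      exact ⟨w, b, hb, hw⟩
    · rintro ⟨w, b, hb, hw⟩
      exact ⟨b, hb, (h2 (a, b)).2 ⟨w, hw⟩⟩

theorem decidable {p q : α → Prop} (hp : Sg p) (hq : Sg q) (h : ∀ a, ¬ p a ↔ q a) :
    ComputablePred p := by
  classical
  obtain ⟨c, h1, h2⟩ := hp
  obtain ⟨d, h3, h4⟩ := hq
  have hex : ∀ a, ∃ w, (c a w || d a w) = true := by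
    intro a
    by_cases hpa : p a
    · obtain ⟨w, hw⟩ := (h2 a).1 hpa
      exact ⟨w, by simp [hw]⟩
    · obtain ⟨w, hw⟩ := (h4 a).1 ((h a).1 hpa)
      exact ⟨w, by simp [hw]⟩
  have hf : RC ∅ fun a => Nat.find (hex a) :=
    RC.find (P := fun a w => c a w || d a w) (by fun_prop) hex
  have hr : RC ∅ fun a => c a (Nat.find (hex a)) :=
    RC.comp (f := fun q : α × ℕ => c q.1 q.2) (g := fun a => (a, Nat.find (hex a))) h1
      (RC.pair (by fun_prop) hf)
  refine ⟨fun a => Classical.dec (p a), ?_⟩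
  refine Computable.of_eq hr.computable fun a => ?_
  have hspec := Nat.find_spec (hex a)
  by_cases hpa : p a
  · have hq : ∀ w, d a w = false := by
      intro w
      by_contra hne
      rw [Bool.not_eq_false] at hne
      exact (h a).2 ((h4 a).2 ⟨w, hne⟩) hpa
    rw [hq, Bool.or_false] at hspec
    rw [hspec]
    simp [hpa]
  · have hc : ∀ w, c a w = false := by
      intro w
      by_contra hne
      rw [Bool.not_eq_false] at hne
      exact hpa ((h2 a).2 ⟨w, hne⟩)
    rw [hc]
    simp [hpa]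

end Sg
end

end Pool.Agent.H69.As
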