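import Pool.Agent.H69.As.Act
import Pool.Agent.H69.As.CertOK
import Pool.Agent.H69.As.Pt
import Pool.Agent.H69.As.Pump

set_option autoImplicit false

namespace Pool.Agent.H69.As

theorem vsS_relr {G : Type} [Group G] {val : ℕ → G} (x : ℕ) (u v : List ℕ) :
    vsS val (relr x u v) = vs val u * val x * (vs val v)⁻¹ := by
  unfold relr
  rw [vsS_append, vsS_pos, vsS_cons, vsS_neg]
  simp [mul_assoc]

/-- the multiplier automata are sound in every group in which the relators hold -/
theorem snd_of_rels {n : ℕ} {D : ℕ → ASA} {G : Type} [Group G] {val : ℕ → G} (h0 : val 0 = 1)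
    (hr : ∀ r ∈ sndRels n D, vsS val r.1 = val r.2) {x : ℕ} (hx : x ≤ n) {u v : List ℕ}
    (hu : Prp n u) (hv : Prp n v) (h : AAcc (D x) u v) : vs val u * val x = vs val v := by
  refine pumping (n := n) (M := D x) (val := val) (g := val x) ?_ u v hu hv h
  rintro _ _ ⟨w, hw, rfl⟩ ⟨w', hw', rfl⟩ hlen hacc
  have h1 : (relr x (w ++ [0]) (w' ++ [0]), 0) ∈ sndRels n D := by
    rw [mem_sndRels]
    simp only [List.length_append, List.length_singleton] at hlen
    exact ⟨x, hx, w, w', mem_wordsLE.2 ⟨by unfold bnd; omega, hw⟩,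
      mem_wordsLE.2 ⟨by unfold bnd; omega, hw'⟩, hacc, rfl⟩
  have h2 := hr _ h1
  rw [vsS_relr, h0, mul_inv_eq_one] at h2
  exact h2

theorem Rd.nil_left_inv {M : ASA} {s t : ℕ} {r : List ℕ} (hs : s ∈ M.2.2.1)
    (h : Rd M s [] r t) : r = [] ∧ s = t := by
  cases h with
  | nil s => exact ⟨rfl, rfl⟩
  | right h1 _ _ => exact absurd hs h1

theorem Rd.nil_right_inv {M : ASA} {s t : ℕ} {l : List ℕ} (hs : s ∉ M.2.2.1)
    (h : Rd M s l [] t) : l = [] ∧ s = t := by
  cases h with
  | nil s => exact ⟨rfl, rfl⟩
  | left h1 _ _ => exact absurd h1 hs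

theorem CertOK.valid {n : ℕ} {E : FSA} {D : ℕ → ASA} (hp : ∀ t, FAcc E t → Prp n t)
    (h : CertOK n E D) : Valid n E D (valG n (Rels n D)) := by
  obtain ⟨E₁, C, t₀, ht₀, k1, k2, k3, k3', k4, k5, k6, k6', k7⟩ := h
  set val := valG n (Rels n D) with hval
  have h0 : val 0 = 1 := valG_zero _ _
  have hE₁ : ∀ t, FAcc E₁ t → FAcc E t := by
    intro t ht
    obtain ⟨w, hw⟩ := k1.sound ht
    exact ((prod_acc _ _ _ _ _).1 hw).2.1
  have hE : ∀ t, FAcc E t → ∃ w, FAcc E₁ w ∧ AAcc (D 0) t w := by
    intro t ht
    obtain ⟨w, hw⟩ := k2.sound ht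
    obtain ⟨h1, _, h3⟩ := (prod_acc _ _ _ _ _).1 hw
    exact ⟨w, h3, h1⟩
  have hsnd : ∀ x ≤ n, ∀ u v, Prp n u → Prp n v → AAcc (D x) u v → vs val u * val x = vs val v := by
    intro x hx u v hu hv h
    refine snd_of_rels h0 ?_ hx hu hv h
    intro r hr
    exact valG_rel (List.mem_append_right _ hr)
  have hA0 : ∀ x ≤ n, ∀ u v, Prp n u → Prp n v → AAcc (D x) u v → FAcc E u ∧ FAcc E v := by
    intro x hx u v hu hv h
    have hx' : x ∈ List.range (n + 1) := List.mem_range.2 (by omega)
    have h1 : NAcc (prod (D x) (PT n) (PT n)) u v :=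
      (prod_acc _ _ _ _ _).2 ⟨h, pt_acc.2 hu, pt_acc.2 hv⟩
    exact ⟨(k6 x hx').sound h1, (k6' x hx').sound ((swap_acc _ _ _).2 h1)⟩
  have hcyc : ∀ r ∈ Rels n D, ∀ c c', FAcc E₁ c →
      Chain (FAcc E₁) (fun x => AAcc (D x)) r.1 c c' → AAcc (D r.2) c c' := by
    intro r hr c c' hc hch
    refine (k4 r hr).sound ?_
    rw [chain_acc]
    · exact ⟨c, (id_acc _ _ _).2 ⟨rfl, hc⟩, hch⟩
    · intro u v huv
      obtain ⟨rfl, h1⟩ := (id_acc _ _ _).1 huv
      exact h1
  obtain ⟨b1, b2, b3, b4⟩ := basic_mem (n := n) (D := D)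
  have hsys : CSys n (FAcc E₁) (fun x => AAcc (D x)) {r | r ∈ Rels n D} := by
    refine ⟨?_, ?_, b1, b2, b3, b4, fun r hr c c' hc _ hch => hcyc r hr c c' hc hch⟩
    · intro x hx c hc
      obtain ⟨w, hw⟩ := (k3 x (List.mem_range.2 (by omega))).sound hc
      obtain ⟨h1, _, h3⟩ := (prod_acc _ _ _ _ _).1 hw
      exact ⟨w, h3, h1⟩
    · intro x hx c hc
      obtain ⟨w, hw⟩ := (k3' x (List.mem_range.2 (by omega))).sound hc
      obtain ⟨h1, h2, _⟩ := (prod_acc _ _ _ _ _).1 ((swap_acc _ _ _).1 hw)
      exact ⟨w, h2, h1⟩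
  have hl : ∀ c, FAcc E₁ c → ∀ a ∈ c, a ≤ n := fun c hc => prp_le (hp c (hE₁ c hc))
  obtain ⟨c1, c2, c3, c4⟩ := k5
  have hbase := hsys.base (E₁ := E₁) (fun t => Iff.rfl) hl c1 c2 c3 (by
    intro c hc m hm hmc
    obtain ⟨c', hc', h1, h2⟩ := c4 c hc m hm hmc
    refine ⟨c', hc', h1, ?_⟩
    intro p w hpc _ hch
    refine h2.sound ?_
    rw [chain_acc]
    · exact ⟨p ++ c.2, (tail_acc _ _ _ _ _ _).2 ⟨p, hpc, rfl, rfl⟩, hch⟩
    · intro u v huv
      obtain ⟨p', hp', _, rfl⟩ := (tail_acc _ _ _ _ _ _).1 huv
      obtain ⟨q, hq, hr⟩ := c3 c hc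
      exact ⟨q, by rw [run_append_some hp']; exact hr, hq⟩)
  have hact := hsys.action hl (fun r hr => Rels_labels hr) hbase h0 (valG_gen _ _)
    (fun H _ ψ hψ hr => valG_univ (fun r hr => Rels_labels hr) H ψ hψ hr)
    (fun x hx u v hu hv huv => hsnd x hx u v (hp u (hE₁ u hu)) (hp v (hE₁ v hv)) huv)
  obtain ⟨honto, hcomp⟩ := hact
  refine ⟨h0, hp, ?_, ?_⟩
  · intro g
    obtain ⟨u, hu, hg⟩ := honto g
    exact ⟨u, hE₁ u hu, hg⟩
  · intro x hx t t' ht ht'
    constructor
    · intro h
      obtain ⟨h1, h2⟩ := hA0 x hx t t' ht ht' h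
      exact ⟨h1, h2, hsnd x hx t t' ht ht' h⟩
    · rintro ⟨ht, ht', hv⟩
      obtain ⟨A, a1, a2, a3⟩ := k7 x (List.mem_range.2 (by omega))
      -- emptiness certificates are contradicted
      have hempty : ∀ p p' α β, EmptyP (tri3 E E₁ D x) p p' → FAcc E (p ++ α) → FAcc E (p' ++ β) →
          vs val (p ++ α) * val x = vs val (p' ++ β) → False := by
        intro p p' α β he h1 h2 h3
        obtain ⟨w, hw1, hw2⟩ := hE _ h1
        obtain ⟨w', hw1', hw2'⟩ := hE _ h2
        have e1 := hsnd 0 (Nat.zero_le _) _ _ (hp _ h1) (hp _ (hE₁ _ hw1)) hw2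
        have e2 := hsnd 0 (Nat.zero_le _) _ _ (hp _ h2) (hp _ (hE₁ _ hw1')) hw2'
        rw [h0, mul_one] at e1 e2
        have h4 := hcomp x hx w w' hw1 hw1' (by rw [← e1, ← e2]; exact h3)
        refine he.sound α β ?_
        unfold tri3
        rw [comp_acc]
        refine ⟨w', ?_, ?_⟩
        · rw [comp_acc]
          exact ⟨w, (prod_acc _ _ _ _ _).2 ⟨hw2, h1, hw1⟩, (prod_acc _ _ _ _ _).2 ⟨h4, hw1, hw1'⟩⟩
        · rw [swap_acc]
          exact (prod_acc _ _ _ _ _).2 ⟨hw2', h2, hw1'⟩
      -- follow the automaton along the tapes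
      have key : ∀ k, ∀ (p p' l r : List ℕ) (i : Item), l.length + r.length = k → i ∈ A →
          Rd (D x) (D x).1 p p' i.1 → run E E.1 p = some i.2.1.1 → run E E.1 p' = some i.2.1.2 →
          FAcc E (p ++ l) → FAcc E (p' ++ r) → vs val (p ++ l) * val x = vs val (p' ++ r) →
          Rd (D x) i.1 l r (D x).2.1 := by
        intro k
        induction k with
        | zero =>
          intro p p' l r i hk hi hrd hq hq' hl1 hr1 hval'
          have el : l = [] := List.length_eq_zero_iff.1 (by omega)
          have er : r = [] := List.length_eq_zero_iff.1 (by omega)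
          subst el er
          rw [List.append_nil] at hl1 hr1
          obtain ⟨i1, i2, i3, i4, i5, i6⟩ := a2 i hi
          -- the completions are empty
          obtain ⟨q, hq1, hq2⟩ := hl1
          rw [hq] at hq1
          obtain ⟨q', hq1', hq2'⟩ := hr1
          rw [hq'] at hq1'
          have e1 : i.2.2.2.1 = [] := prp_ext (hp _ ⟨q, by rw [i2]; exact hq1, hq2⟩) (hp _ i5)
          have e2 : i.2.2.2.2 = [] := prp_ext (hp _ ⟨q', by rw [i3]; exact hq1', hq2'⟩) (hp _ i6)
          rw [e1, e2] at i4
          exact i4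
        | succ k ih =>
          intro p p' l r i hk hi hrd hq hq' hl1 hr1 hval'
          obtain ⟨i1, i2, i3, i4, i5, i6⟩ := a2 i hi
          -- same word difference
          have hdiff : (vs val i.2.2.1.1)⁻¹ * vs val i.2.2.1.2 = (vs val p)⁻¹ * vs val p' := by
            have f1 : FAcc E (p ++ i.2.2.2.1) := by
              obtain ⟨q, hq1, hq2⟩ := i5
              rw [run_append_some i2] at hq1
              exact ⟨q, by rw [run_append_some hq]; exact hq1, hq2⟩
            have f2 : FAcc E (p' ++ i.2.2.2.2) := by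
              obtain ⟨q, hq1, hq2⟩ := i6
              rw [run_append_some i3] at hq1
              exact ⟨q, by rw [run_append_some hq']; exact hq1, hq2⟩
            have g1 := hsnd x hx _ _ (hp _ f1) (hp _ f2) (hrd.trans i4)
            have g2 := hsnd x hx _ _ (hp _ i5) (hp _ i6) (i1.trans i4)
            rw [vs_append, vs_append] at g1 g2
            have g1' : vs val i.2.2.2.1 * val x * (vs val i.2.2.2.2)⁻¹ = (vs val p)⁻¹ * vs val p' := by
              rw [mul_inv_eq_iff_eq_mul, mul_assoc, ← g1]
              group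
            have g2' : vs val i.2.2.2.1 * val x * (vs val i.2.2.2.2)⁻¹ =
                (vs val i.2.2.1.1)⁻¹ * vs val i.2.2.1.2 := by
              rw [mul_inv_eq_iff_eq_mul, mul_assoc, ← g2]
              group
            rw [← g1', ← g2']
          have htrans : ∀ l r, FAcc E (p ++ l) → FAcc E (p' ++ r) →
              vs val (p ++ l) * val x = vs val (p' ++ r) →
              FAcc E (i.2.2.1.1 ++ l) ∧ FAcc E (i.2.2.1.2 ++ r) ∧
                vs val (i.2.2.1.1 ++ l) * val x = vs val (i.2.2.1.2 ++ r) := by
            intro l r hl1 hr1 hval'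
            refine ⟨?_, ?_, ?_⟩
            · obtain ⟨q, hq1, hq2⟩ := hl1
              rw [run_append_some hq] at hq1
              exact ⟨q, by rw [run_append_some i2]; exact hq1, hq2⟩
            · obtain ⟨q, hq1, hq2⟩ := hr1
              rw [run_append_some hq'] at hq1
              exact ⟨q, by rw [run_append_some i3]; exact hq1, hq2⟩
            · rw [vs_append, vs_append] at hval' ⊢
              have e1 : vs val l * val x = (vs val p)⁻¹ * vs val p' * vs val r := by
                rw [mul_assoc, ← hval']; group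
              rw [← hdiff] at e1
              rw [mul_assoc, e1]; group
          by_cases hs : i.1 ∈ (D x).2.2.1
          · cases l with
            | nil =>
              -- left tape finished but the automaton wants to read it
              rw [List.append_nil] at hl1
              obtain ⟨q, hq1, hq2⟩ := hl1
              rw [hq] at hq1
              have e1 : i.2.2.2.1 = [] := prp_ext (hp _ ⟨q, by rw [i2]; exact hq1, hq2⟩) (hp _ i5)
              rw [e1] at i4
              have e2 := Rd.nil_left_inv hs i4
              rw [e2.1, List.append_nil] at i6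
              have e3 : r = [] := by
                obtain ⟨q', hq1', hq2'⟩ := i6
                rw [i3] at hq1'
                exact prp_ext (hp p' ⟨q', by rw [hq']; exact hq1', hq2'⟩) (hp _ hr1)
              rw [e3, e2.2]
              exact Rd.nil _
            | cons a l =>
              have ha : a ∈ List.range (n + 1) :=
                List.mem_range.2 (Nat.lt_succ_of_le (prp_le (hp _ hl1) a (by simp)))
              obtain ⟨q, hq1, hq2⟩ := hl1
              rw [run_append_some hq, run_cons] at hq1
              obtain ⟨q₁, hq3, hq4⟩ := Option.bind_eq_some_iff.1 hq1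
              rcases (a3 i hi a ha).1 hs q₁ hq3 with ⟨j, hj, hj1, hj2⟩ | he
              · refine Rd.left hs hj1 ?_
                have hst : Rd (D x) i.1 [a] [] j.1 := Rd.left hs hj1 (Rd.nil _)
                refine ih (p ++ [a]) p' l r j ?_ hj ?_ ?_ ?_ ?_ hr1 ?_
                · simp only [List.length_cons] at hk; omega
                · simpa using hrd.trans hst
                · rw [hj2]; exact run_snoc.2 ⟨_, hq, hq3⟩
                · rw [hj2]; exact hq'
                · exact ⟨q, by
                    rw [List.append_assoc, run_append_some hq, List.singleton_append, run_cons, hq3]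
                    exact hq4, hq2⟩
                · simpa using hval'
              · exfalso
                obtain ⟨f1, f2, f3⟩ := htrans (a :: l) r ⟨q, by
                  rw [run_append_some hq, run_cons, hq3]; exact hq4, hq2⟩ hr1 hval'
                refine hempty (i.2.2.1.1 ++ [a]) i.2.2.1.2 l r he ?_ f2 ?_
                · simpa using f1
                · simpa using f3
          · cases r with
            | nil =>
              rw [List.append_nil] at hr1
              obtain ⟨q, hq1, hq2⟩ := hr1
              rw [hq'] at hq1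
              have e1 : i.2.2.2.2 = [] := prp_ext (hp _ ⟨q, by rw [i3]; exact hq1, hq2⟩) (hp _ i6)
              rw [e1] at i4
              have e2 := Rd.nil_right_inv hs i4
              rw [e2.1, List.append_nil] at i5
              have e3 : l = [] := by
                obtain ⟨q', hq1', hq2'⟩ := i5
                rw [i2] at hq1'
                exact prp_ext (hp p ⟨q', by rw [hq]; exact hq1', hq2'⟩) (hp _ hl1)
              rw [e3, e2.2]
              exact Rd.nil _
            | cons a r =>
              have ha : a ∈ List.range (n + 1) :=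
                List.mem_range.2 (Nat.lt_succ_of_le (prp_le (hp _ hr1) a (by simp)))
              obtain ⟨q, hq1, hq2⟩ := hr1
              rw [run_append_some hq', run_cons] at hq1
              obtain ⟨q₁, hq3, hq4⟩ := Option.bind_eq_some_iff.1 hq1
              rcases (a3 i hi a ha).2 hs q₁ hq3 with ⟨j, hj, hj1, hj2⟩ | he
              · refine Rd.right hs hj1 ?_
                have hst : Rd (D x) i.1 [] [a] j.1 := Rd.right hs hj1 (Rd.nil _)
                refine ih p (p' ++ [a]) l r j ?_ hj ?_ ?_ ?_ hl1 ?_ ?_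
                · simp only [List.length_cons] at hk; omega
                · simpa using hrd.trans hst
                · rw [hj2]; exact hq
                · rw [hj2]; exact run_snoc.2 ⟨_, hq', hq3⟩
                · exact ⟨q, by
                    rw [List.append_assoc, run_append_some hq', List.singleton_append, run_cons, hq3]
                    exact hq4, hq2⟩
                · simpa using hval'
              · exfalso
                obtain ⟨f1, f2, f3⟩ := htrans l (a :: r) hl1 ⟨q, by
                  rw [run_append_some hq', run_cons, hq3]; exact hq4, hq2⟩ hval'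
                refine hempty i.2.2.1.1 (i.2.2.1.2 ++ [a]) l r he f1 ?_ ?_
                · simpa using f2
                · simpa using f3
      obtain ⟨i, hi, hi1, hi2⟩ := a1
      have h1 := key _ [] [] t t' i rfl hi (by rw [hi1]; exact Rd.nil _) (by rw [hi2]; rfl)
        (by rw [hi2]; rfl) ht ht' hv
      rw [hi1] at h1
      exact h1

end Pool.Agent.H69.As
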