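import Pool.Agent.H69.As.Dec

/-!
# From the input data to the internal form
-/

set_option autoImplicit false

namespace Pool.Agent.H69.As

theorem look_append (T T' : Tab) (q a : ℕ) :
    look (T ++ T') q a = (look T q a).or (look T' q a) := by
  simp only [look_def]
  rw [List.find?_append]
  cases List.find? (fun e => deqb e.1 (q, a)) T <;> rfl

theorem look_shift (n : ℕ) (T : Tab) (q a : ℕ) :
    look ((T.filter fun e => leb 1 e.1.2 && leb e.1.2 n).map
      fun e => ((e.1.1 + 1, e.1.2), e.2 + 1)) (q + 1) a =
    if 1 ≤ a ∧ a ≤ n then (look T q a).map (· + 1) else none := by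
  induction T with
  | nil => simp [look_def]
  | cons e T ih =>
    obtain ⟨⟨s, b⟩, s'⟩ := e
    simp only [look_def] at ih ⊢
    rw [List.filter_cons]
    by_cases hb : 1 ≤ b ∧ b ≤ n
    · have hb' : (leb 1 b && leb b n) = true := by simp [hb]
      simp only [hb', if_true, List.map_cons, List.find?_cons]
      by_cases he : s = q ∧ b = a
      · obtain ⟨rfl, rfl⟩ := he
        simp [deqb, hb]
      · have h1 : deqb ((s + 1, b) : ℕ × ℕ) (q + 1, a) = false := by
          simp only [deqb_false, ne_eq, Prod.mk.injEq, Nat.add_right_cancel_iff]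
          exact he
        have h2 : deqb ((s, b) : ℕ × ℕ) (q, a) = false := by
          simp only [deqb_false, ne_eq, Prod.mk.injEq]
          exact he
        simp only [h1, h2]
        exact ih
    · have hb' : (leb 1 b && leb b n) = false := by
        rw [Bool.and_eq_false_iff]
        by_contra hne
        push Not at hne
        simp only [ne_eq, Bool.not_eq_false, leb_iff] at hne
        exact hb hne
      simp only [hb', Bool.false_eq_true, if_false, List.find?_cons]
      rw [ih]
      split_ifs with ha
      · have h2 : deqb ((s, b) : ℕ × ℕ) (q, a) = false := by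
          simp only [deqb_false, ne_eq, Prod.mk.injEq]
          rintro ⟨_, rfl⟩
          exact hb ha
        simp only [h2]
      · rfl

theorem look_acc (A : List ℕ) (q a : ℕ) :
    look (A.map fun q => ((q + 1, 0), 0)) (q + 1) a = if a = 0 ∧ q ∈ A then some 0 else none := by
  induction A with
  | nil => simp [look_def]
  | cons s A ih =>
    simp only [look_def] at ih ⊢
    rw [List.map_cons, List.find?_cons]
    by_cases he : s = q ∧ 0 = a
    · obtain ⟨rfl, rfl⟩ := he
      simp [deqb]
    · have h1 : deqb ((s + 1, 0) : ℕ × ℕ) (q + 1, a) = false := by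
        simp only [deqb_false, ne_eq, Prod.mk.injEq, Nat.add_right_cancel_iff]
        exact he
      simp only [h1]
      rw [ih]
      have h2 : (a = 0 ∧ q ∈ s :: A) ↔ (a = 0 ∧ q ∈ A) := by
        rw [List.mem_cons]
        constructor
        · rintro ⟨h3, h4 | h4⟩
          · exact absurd ⟨h4.symm, h3.symm⟩ he
          · exact ⟨h3, h4⟩
        · rintro ⟨h3, h4⟩
          exact ⟨h3, Or.inr h4⟩
      simp only [h2]

theorem tape_look (n : ℕ) (W : FSA) (q a : ℕ) :
    look (tapeFSA n W).2.2 (q + 1) a = if a = 0 then (if q ∈ W.2.1 then some 0 else none)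
      else if a ≤ n then (look W.2.2 q a).map (· + 1) else none := by
  unfold tapeFSA
  simp only
  rw [look_append, look_shift, look_acc]
  by_cases ha : a = 0
  · subst ha
    simp
  · by_cases hn : a ≤ n
    · rw [if_pos ⟨by omega, hn⟩, if_neg (fun h => ha h.1), if_neg ha, if_pos hn, Option.or_none]
    · rw [if_neg (fun h => hn h.2), if_neg (fun h => ha h.1), if_neg ha, if_neg hn]
      rfl

theorem tape_look_zero (n : ℕ) (W : FSA) (a : ℕ) : look (tapeFSA n W).2.2 0 a = none := by
  cases h : look (tapeFSA n W).2.2 0 a with
  | none => rfl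
  | some s =>
    have h1 := look_mem h
    unfold tapeFSA at h1
    simp only [List.mem_append, List.mem_map, Prod.mk.injEq] at h1
    rcases h1 with ⟨e, _, ⟨h2, _⟩, _⟩ | ⟨e, _, ⟨h2, _⟩, _⟩ <;> omega

theorem tape_run_zero {n : ℕ} {W : FSA} {t : List ℕ} {q : ℕ}
    (h : run (tapeFSA n W) 0 t = some q) : t = [] := by
  cases t with
  | nil => rfl
  | cons a t =>
    rw [run_cons, tape_look_zero] at h
    simp at h

theorem tape_run {n : ℕ} {W : FSA} {t : List ℕ} {q : ℕ} :
    run (tapeFSA n W) (q + 1) t = some 0 ↔ ∃ w q', (∀ a ∈ w, 1 ≤ a ∧ a ≤ n) ∧ t = w ++ [0] ∧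
      run W q w = some q' ∧ q' ∈ W.2.1 := by
  induction t generalizing q with
  | nil => simp
  | cons a t ih =>
    rw [run_cons, tape_look]
    by_cases ha : a = 0
    · subst ha
      rw [if_pos rfl]
      by_cases hq : q ∈ W.2.1
      · rw [if_pos hq, Option.bind_some]
        constructor
        · intro h
          have := tape_run_zero h
          subst this
          exact ⟨[], q, by simp, rfl, rfl, hq⟩
        · rintro ⟨w, q', h1, h2, h3, h4⟩
          cases w with
          | nil =>
            simp only [List.nil_append, List.cons.injEq, true_and] at h2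
            subst h2
            rfl
          | cons b w =>
            simp only [List.cons_append, List.cons.injEq] at h2
            have := (h1 b List.mem_cons_self).1
            omega
      · rw [if_neg hq]
        constructor
        · intro h; simp at h
        · rintro ⟨w, q', h1, h2, h3, h4⟩
          cases w with
          | nil =>
            rw [run_nil, Option.some.injEq] at h3
            subst h3
            exact absurd h4 hq
          | cons b w =>
            simp only [List.cons_append, List.cons.injEq] at h2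
            have := (h1 b List.mem_cons_self).1
            omega
    · rw [if_neg ha]
      by_cases hn : a ≤ n
      · rw [if_pos hn]
        constructor
        · intro h
          obtain ⟨s, h1, h2⟩ := Option.bind_eq_some_iff.1 h
          obtain ⟨s', h3, rfl⟩ := Option.map_eq_some_iff.1 h1
          obtain ⟨w, q', h4, h5, h6, h7⟩ := ih.1 h2
          refine ⟨a :: w, q', ?_, by rw [h5]; rfl, ?_, h7⟩
          · intro b hb
            rcases List.mem_cons.1 hb with rfl | hb
            · exact ⟨by omega, hn⟩
            · exact h4 b hb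
          · rw [run_cons, h3]
            exact h6
        · rintro ⟨w, q', h1, h2, h3, h4⟩
          cases w with
          | nil =>
            simp only [List.nil_append, List.cons.injEq] at h2
            omega
          | cons b w =>
            simp only [List.cons_append, List.cons.injEq] at h2
            obtain ⟨rfl, h2⟩ := h2
            rw [run_cons] at h3
            obtain ⟨s, h5, h6⟩ := Option.bind_eq_some_iff.1 h3
            rw [h5]
            exact ih.2 ⟨w, q', fun c hc => h1 c (List.mem_cons_of_mem _ hc), h2, h6, h4⟩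
      · rw [if_neg hn]
        constructor
        · intro h; simp at h
        · rintro ⟨w, q', h1, h2, h3, h4⟩
          cases w with
          | nil =>
            simp only [List.nil_append, List.cons.injEq] at h2
            omega
          | cons b w =>
            simp only [List.cons_append, List.cons.injEq] at h2
            have := (h1 b List.mem_cons_self).2
            omega

theorem tape_acc {n : ℕ} {W : FSA} {t : List ℕ} : FAcc (tapeFSA n W) t ↔
    ∃ w, (∀ a ∈ w, 1 ≤ a ∧ a ≤ n) ∧ t = w ++ [0] ∧ FAcc W w := by
  have h1 : FAcc (tapeFSA n W) t ↔ run (tapeFSA n W) (W.1 + 1) t = some 0 := by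
    unfold FAcc
    have e1 : (tapeFSA n W).1 = W.1 + 1 := rfl
    have e2 : (tapeFSA n W).2.1 = [0] := rfl
    rw [e1, e2]
    simp
  rw [h1, tape_run]
  unfold FAcc
  constructor
  · rintro ⟨w, q', h2, h3, h4, h5⟩
    exact ⟨w, h2, h3, q', h4, h5⟩
  · rintro ⟨w, h2, h3, q', h4, h5⟩
    exact ⟨w, q', h2, h3, h4, h5⟩

section
variable {n : ℕ} {G : Type} [Group G]

/-- values of the codes -/
def valOf (f : Fin n → G) (x : ℕ) : G := if h : 1 ≤ x ∧ x ≤ n then f ⟨x - 1, by omega⟩ else 1

theorem valOf_zero (f : Fin n → G) : valOf f 0 = 1 := by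
  unfold valOf
  rw [dif_neg (by omega)]

theorem valOf_succ (f : Fin n → G) (i : Fin n) : valOf f (i.val + 1) = f i := by
  unfold valOf
  rw [dif_pos ⟨by omega, by omega⟩]
  rfl

theorem vs_word (f : Fin n → G) (w : List (Fin n)) :
    vs (valOf f) (w.map fun i => i.val + 1) = (w.map f).prod := by
  induction w with
  | nil => simp
  | cons i w ih => rw [List.map_cons, vs_cons, ih, valOf_succ]; simp

theorem vs_tape (f : Fin n → G) (w : List (Fin n)) : vs (valOf f) (tape w) = (w.map f).prod := by
  unfold tape
  rw [vs_append, vs_word]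
  simp [valOf_zero]

theorem prp_tape (w : List (Fin n)) : Prp n (tape w) := by
  refine ⟨_, ?_, rfl⟩
  intro a ha
  obtain ⟨i, _, rfl⟩ := List.mem_map.1 ha
  omega

theorem exists_word {w : List ℕ} (h : ∀ a ∈ w, 1 ≤ a ∧ a ≤ n) :
    ∃ v : List (Fin n), w = v.map fun i => i.val + 1 := by
  induction w with
  | nil => exact ⟨[], rfl⟩
  | cons a w ih =>
    obtain ⟨v, hv⟩ := ih fun b hb => h b (List.mem_cons_of_mem _ hb)
    have ha := h a List.mem_cons_self
    refine ⟨⟨a - 1, by omega⟩ :: v, ?_⟩
    rw [List.map_cons, ← hv]
    congr 1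
    simp only
    omega

theorem exists_tape {t : List ℕ} (h : Prp n t) : ∃ w : List (Fin n), t = tape w := by
  obtain ⟨w, hw, rfl⟩ := h
  obtain ⟨v, rfl⟩ := exists_word hw
  exact ⟨v, rfl⟩

end

/-- the word acceptor as an automaton on tapes -/
abbrev TA (d : AData) : FSA := tapeFSA d.1 d.2.1

theorem facc_tape {d : AData} {w : List (Fin d.1)} : FAcc (TA d) (tape w) ↔ WAcc d w := by
  rw [tape_acc]
  unfold WAcc
  constructor
  · rintro ⟨v, _, h2, h3⟩
    unfold tape at h2
    have := (List.append_inj' h2 rfl).1
    rw [this]
    exact h3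
  · intro h
    refine ⟨_, ?_, rfl, h⟩
    intro a ha
    obtain ⟨i, _, rfl⟩ := List.mem_map.1 ha
    omega

theorem ta_prp {d : AData} {t : List ℕ} (h : FAcc (TA d) t) : Prp d.1 t := by
  obtain ⟨w, h1, h2, _⟩ := tape_acc.1 h
  exact ⟨w, h1, h2⟩

/-- the two forms of validity agree -/
theorem isStr_iff {d : AData} {G : Type} [Group G] {f : Fin d.1 → G} :
    IsStr d f ↔ Valid d.1 (TA d) (mach d) (valOf f) := by
  constructor
  · rintro ⟨h1, h2, h3⟩
    refine ⟨valOf_zero f, fun t => ta_prp, ?_, ?_⟩
    · intro g
      obtain ⟨w, hw, hg⟩ := h1 g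
      exact ⟨tape w, facc_tape.2 hw, by rw [vs_tape, hg]⟩
    · intro x hx t t' ht ht'
      obtain ⟨u, rfl⟩ := exists_tape ht
      obtain ⟨v, rfl⟩ := exists_tape ht'
      rw [facc_tape, facc_tape, vs_tape, vs_tape]
      cases x with
      | zero => rw [h2, valOf_zero, mul_one]
      | succ x =>
        have h4 := h3 ⟨x, by omega⟩ u v
        rw [← valOf_succ f] at h4
        exact h4
  · intro h
    refine ⟨?_, ?_, ?_⟩
    · intro g
      obtain ⟨t, ht, hg⟩ := h.onto g
      obtain ⟨w, rfl⟩ := exists_tape (ta_prp ht)
      exact ⟨w, facc_tape.1 ht, by rw [← hg, vs_tape]⟩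
    · intro u v
      have := h.mul 0 (Nat.zero_le _) (tape u) (tape v) (prp_tape u) (prp_tape v)
      rw [facc_tape, facc_tape, vs_tape, vs_tape, valOf_zero, mul_one] at this
      exact this
    · intro x u v
      have := h.mul (x.val + 1) x.isLt (tape u) (tape v) (prp_tape u) (prp_tape v)
      rw [facc_tape, facc_tape, vs_tape, vs_tape, valOf_succ] at this
      exact this

end Pool.Agent.H69.As
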