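import Pool.Agent.H69.As.Sound
import Pool.Agent.H69.As.Complete

set_option autoImplicit false

namespace Pool.Agent.H69.As

/-- the relations given by the automata -/
abbrev Ach (D : ℕ → ASA) (x : ℕ) (c c' : List ℕ) : Prop := AAcc (D x) c c'

/-- positive labels -/
def pos (t : List ℕ) : SW := t.map fun a => (true, a)

/-- a finite witness of a failure -/
def Viol (n : ℕ) (E : FSA) (D : ℕ → ASA) : Prop :=
  EmptyP (prod (D 0) E E) [] [] ∨
  (∃ x ∈ List.range (n + 1), ∃ t t', Prp n t ∧ Prp n t' ∧ AAcc (D x) t t' ∧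
    (¬ FAcc E t ∨ ¬ FAcc E t')) ∨
  (∃ x ∈ List.range (n + 1), ∃ t, FAcc E t ∧
    (EmptyP (prod (D x) E E) t [] ∨ EmptyP (swap (prod (D x) E E)) t [])) ∨
  (∃ r ∈ Rels n D, ∃ c c', FAcc E c ∧ Chain (FAcc E) (Ach D) r.1 c c' ∧ ¬ AAcc (D r.2) c c') ∨
  (∃ b c₀ u c v, FAcc E b ∧ FAcc E u ∧ FAcc E v ∧ Chain (FAcc E) (Ach D) (pos u) b c₀ ∧
    AAcc (D 0) c₀ u ∧ Chain (FAcc E) (Ach D) (pos v) b c ∧ ¬ AAcc (D 0) c v)

theorem pos_labels {n : ℕ} {t : List ℕ} (ht : ∀ a ∈ t, a ≤ n) : ∀ y ∈ pos t, y.2 ≤ n := by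
  intro y hy
  unfold pos at hy
  obtain ⟨a, ha, rfl⟩ := List.mem_map.1 hy
  exact ht a ha

theorem Valid.not_viol {n : ℕ} {E : FSA} {D : ℕ → ASA} {G : Type} [Group G] {val : ℕ → G}
    (hv : Valid n E D val) : ¬ Viol n E D := by
  have hle : ∀ t, FAcc E t → ∀ a ∈ t, a ≤ n := fun t ht => prp_le (hv.prp t ht)
  have hmul : ∀ x ≤ n, ∀ t t', FAcc E t → FAcc E t' → vs val t * val x = vs val t' →
      AAcc (D x) t t' := fun x hx t t' ht ht' h =>
    (hv.mul x hx t t' (hv.prp t ht) (hv.prp t' ht')).2 ⟨ht, ht', h⟩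
  rintro (h | ⟨x, hx, t, t', ht, ht', h1, h2⟩ | ⟨x, hx, t, ht, h⟩ | ⟨r, hr, c, c', h1, h2, h3⟩ |
    ⟨b, c₀, u, c, v, hb, hu, hv', h1, h2, h3, h4⟩)
  · obtain ⟨t, ht, _⟩ := hv.onto 1
    refine h.sound t t ?_
    refine (prod_acc _ _ _ _ _).2 ⟨hmul 0 (Nat.zero_le _) t t ht ht ?_, ht, ht⟩
    rw [hv.zero, mul_one]
  · rw [List.mem_range] at hx
    have h3 := (hv.mul x (by omega) t t' ht ht').1 h1
    rcases h2 with h2 | h2
    · exact h2 h3.1
    · exact h2 h3.2.1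
  · rw [List.mem_range] at hx
    rcases h with h | h
    · obtain ⟨t', ht', hg⟩ := hv.onto (vs val t * val x)
      refine h.sound [] t' ?_
      rw [List.append_nil, List.nil_append]
      exact (prod_acc _ _ _ _ _).2 ⟨hmul x (by omega) t t' ht ht' hg.symm, ht, ht'⟩
    · obtain ⟨t', ht', hg⟩ := hv.onto (vs val t * (val x)⁻¹)
      refine h.sound [] t' ?_
      rw [List.append_nil, List.nil_append, swap_acc]
      refine (prod_acc _ _ _ _ _).2 ⟨hmul x (by omega) t' t ht' ht ?_, ht', ht⟩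
      rw [hg, inv_mul_cancel_right]
  · obtain ⟨l2, l1⟩ := Rels_labels hr
    apply h3
    refine hmul _ l2 c c' h1 (h2.mem h1) ?_
    rw [← hv.rels hr]
    exact hv.chain (fun t ht => ht) l1 h1 h2
  · have e1 := hv.chain (fun t ht => ht) (pos_labels (hle u hu)) hb h1
    have e3 := hv.chain (fun t ht => ht) (pos_labels (hle v hv')) hb h3
    have e2 := ((hv.mul 0 (Nat.zero_le _) _ _ (hv.prp _ (h1.mem hb)) (hv.prp _ hu)).1 h2).2.2
    unfold pos at e1 e3
    rw [vsS_pos] at e1 e3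
    rw [hv.zero, mul_one] at e2
    rw [e2] at e1
    have hb1 : vs val b = 1 := by
      apply mul_right_cancel (b := vs val u)
      rw [one_mul]; exact e1
    apply h4
    refine hmul 0 (Nat.zero_le _) c v (h3.mem hb) hv' ?_
    rw [hv.zero, mul_one, ← e3, hb1, one_mul]

theorem valid_of_not_viol {n : ℕ} {E : FSA} {D : ℕ → ASA} (hp : ∀ t, FAcc E t → Prp n t)
    (h : ¬ Viol n E D) : Valid n E D (valG n (Rels n D)) := by
  unfold Viol at h
  push Not at h
  obtain ⟨k0, k1, k2, k3, k4⟩ := h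
  have hA0 : ∀ x ≤ n, ∀ t t', Prp n t → Prp n t' → AAcc (D x) t t' → FAcc E t ∧ FAcc E t' := by
    intro x hx t t' ht ht' h
    exact k1 x (List.mem_range.2 (by omega)) t t' ht ht' h
  obtain ⟨u₀, v₀, h00⟩ : ∃ u v, NAcc (prod (D 0) E E) u v := by
    by_contra hne
    push Not at hne
    exact k0 (EmptyP.complete fun u v => by simpa using hne u v)
  have hu₀ : FAcc E u₀ := ((prod_acc _ _ _ _ _).1 h00).2.1
  have htotR : ∀ x ≤ n, ∀ c, FAcc E c → ∃ c', FAcc E c' ∧ AAcc (D x) c c' := by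
    intro x hx c hc
    have h1 := (k2 x (List.mem_range.2 (by omega)) c hc).1
    by_contra hne
    push Not at hne
    refine h1 (EmptyP.complete fun u v h2 => ?_)
    rw [List.nil_append] at h2
    obtain ⟨h3, h4, h5⟩ := (prod_acc _ _ _ _ _).1 h2
    have h6 := prp_ext (hp c hc) (hp _ h4)
    subst h6
    rw [List.append_nil] at h3
    exact hne v h5 h3
  have htotL : ∀ x ≤ n, ∀ c, FAcc E c → ∃ c', FAcc E c' ∧ AAcc (D x) c' c := by
    intro x hx c hc
    have h1 := (k2 x (List.mem_range.2 (by omega)) c hc).2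
    by_contra hne
    push Not at hne
    refine h1 (EmptyP.complete fun u v h2 => ?_)
    rw [List.nil_append, swap_acc] at h2
    obtain ⟨h3, h4, h5⟩ := (prod_acc _ _ _ _ _).1 h2
    have h6 := prp_ext (hp c hc) (hp _ h5)
    subst h6
    rw [List.append_nil] at h3
    exact hne v h4 h3
  obtain ⟨b1, b2, b3, b4⟩ := basic_mem (n := n) (D := D)
  have hsys : CSys n (FAcc E) (Ach D) {r | r ∈ Rels n D} :=
    ⟨htotR, htotL, b1, b2, b3, b4, fun r hr c c' hc _ hch => k3 r hr c c' hc hch⟩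
  have hl : ∀ c, FAcc E c → ∀ a ∈ c, a ≤ n := fun c hc => prp_le (hp c hc)
  have hbase : ∃ b, FAcc E b ∧ ∀ u, FAcc E u → ∃ c, FAcc E c ∧
      Chain (FAcc E) (Ach D) (u.map fun a => (true, a)) b c ∧ Ach D 0 c u := by
    have labN : ∀ y ∈ (u₀.reverse.map fun a => ((false, a) : Bool × ℕ)), y.2 ≤ n := by
      intro y hy
      obtain ⟨a, ha, rfl⟩ := List.mem_map.1 hy
      exact hl u₀ hu₀ a (List.mem_reverse.1 ha)
    obtain ⟨b, hb, hcb⟩ := hsys.chain_exists _ labN hu₀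
    have hbc : Chain (FAcc E) (Ach D) (pos u₀) b u₀ := by
      have := hcb.inv hu₀
      rw [← invS_pos] at this
      have e : invS (invS (u₀.map fun a => (true, a))) = u₀.map fun a => (true, a) := by
        simp [invS, List.map_reverse]
      rwa [e] at this
    refine ⟨b, hb, fun v hv => ?_⟩
    obtain ⟨c, hc, hvc⟩ := hsys.chain_exists (pos v) (pos_labels (hl v hv)) hb
    exact ⟨c, hc, hvc, k4 b u₀ u₀ c v hb hu₀ hv hbc (hsys.refl hu₀) hvc⟩
  set val := valG n (Rels n D) with hval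
  have h0 : val 0 = 1 := valG_zero _ _
  have hsnd : ∀ x ≤ n, ∀ u v, Prp n u → Prp n v → AAcc (D x) u v → vs val u * val x = vs val v := by
    intro x hx u v hu hv h
    refine snd_of_rels h0 ?_ hx hu hv h
    intro r hr
    exact valG_rel (List.mem_append_right _ hr)
  have hact := hsys.action hl (fun r hr => Rels_labels hr) hbase h0 (valG_gen _ _)
    (fun H _ ψ hψ hr => valG_univ (fun r hr => Rels_labels hr) H ψ hψ hr)
    (fun x hx u v hu hv huv => hsnd x hx u v (hp u hu) (hp v hv) huv)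
  obtain ⟨honto, hcomp⟩ := hact
  refine ⟨h0, hp, honto, ?_⟩
  intro x hx t t' ht ht'
  constructor
  · intro h
    obtain ⟨h1, h2⟩ := hA0 x hx t t' ht ht' h
    exact ⟨h1, h2, hsnd x hx t t' ht ht' h⟩
  · rintro ⟨h1, h2, h3⟩
    exact hcomp x hx t t' h1 h2 h3

end Pool.Agent.H69.As
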